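import Pool.Agent.W_92892c_h19.Ee
import Pool.Agent.W_3283e1_h53.Ces
import Pool.Agent.W_92892c.NearZero

open MeasureTheory Set Filter Topology

namespace BSDC

open BSDS W3283g Complex

variable {ι : Type} {c u : ι → ℝ} {a : ℝ} {L : ℂ → ℂ}

theorem Bdd_nonneg (e : ℝ → ℝ) (B : ℝ)
    (h : ∀ U : ℝ, 0 < U → |∫ v in Ioc 0 U, e v| ≤ B * (1 + U)) : 0 ≤ B := by
  have h1 := h 1 one_pos
  have h2 := abs_nonneg (∫ v in Ioc (0 : ℝ) 1, e v)
  linarith

theorem Bdd_int (e : ℝ → ℝ) (he : Measurable e) (B : ℝ)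
    (h : ∀ U : ℝ, 0 < U → |∫ v in Ioc 0 U, e v| ≤ B * (1 + U)) (σ : ℝ) (hσ : 0 < σ) :
    IntegrableOn (fun v : ℝ => (∫ w in Ioc 0 v, e w) * Real.exp (-(σ * v))) (Ioi 0) := by
  have hB := Bdd_nonneg e B h
  have hB1 : 0 < B + 1 := by linarith
  have h1 := Ces_Fint (fun v : ℝ => (B + 1)⁻¹ * ∫ w in Ioc 0 v, e w)
    ((Ces_Fmeas e he).const_mul _) 1 zero_le_one (fun U hU => by
      rw [abs_mul, abs_of_pos (inv_pos.2 hB1), inv_mul_le_iff₀ hB1]
      have h2 := h U hU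
      nlinarith) σ hσ
  have h2 := h1.const_mul (B + 1)
  refine Integrable.congr h2 (Eventually.of_forall fun v => ?_)
  show (B + 1) * ((B + 1)⁻¹ * (∫ w in Ioc 0 v, e w) * Real.exp (-(σ * v))) = _
  field_simp

/-- `ces_rep` (module CesF) with bounded means instead of vanishing means: the same proof with
`|F U| ≤ B + B U` (`Ces_Fint` is for `M + U`; apply it to `F/(B+1)` or repeat it). -/
theorem bdd_rep (H : Hyp c u a L) (κ : ℝ) (r : ℕ) (B : ℝ)
    (h : ∀ U : ℝ, 0 < U → |∫ v in Ioc 0 U, ee c u κ r v| ≤ B * (1 + U)) (s : ℂ) (hs : 0 < s.re) :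
    L s = s ^ r * Complex.exp (r * Real.eulerMascheroniConstant - κ -
      s ^ 2 * ∫ v in Ioi (0 : ℝ),
        ((∫ w in Ioc 0 v, ee c u κ r w : ℝ) : ℂ) * Complex.exp (-(s * v))) := by
  have hem := ee_meas H κ r
  have hFi := Bdd_int (ee c u κ r) hem B h
  have hd := lap_diff (fun U : ℝ => ∫ w in Ioc 0 U, ee c u κ r w) (Ces_Fmeas _ hem) hFi
  set Φ : ℂ → ℂ := fun s => ∫ v in Ioi (0 : ℝ),
    ((∫ w in Ioc 0 v, ee c u κ r w : ℝ) : ℂ) * Complex.exp (-(s * v)) with hΦ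
  have ho : IsOpen {s : ℂ | 0 < s.re} := isOpen_lt continuous_const Complex.continuous_re
  have hR : DifferentiableOn ℂ (fun s : ℂ => s ^ r *
      Complex.exp (r * Real.eulerMascheroniConstant - κ - s ^ 2 * Φ s)) {s : ℂ | 0 < s.re} := by
    refine (differentiableOn_id.pow r).mul (DifferentiableOn.cexp ?_)
    exact ((differentiableOn_id.pow 2).mul hd).const_sub _
  have hpc : IsPreconnected {s : ℂ | 0 < s.re} := (convex_halfSpace_re_gt 0).isPreconnected
  have ha1 := H.apos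
  have hmem : ((a + 1 : ℝ) : ℂ) ∈ {s : ℂ | 0 < s.re} := by
    show 0 < ((a + 1 : ℝ) : ℂ).re
    rw [Complex.ofReal_re]
    linarith
  have hev : L =ᶠ[𝓝 (((a + 1 : ℝ) : ℂ))] (fun s : ℂ => s ^ r *
      Complex.exp (r * Real.eulerMascheroniConstant - κ - s ^ 2 * Φ s)) := by
    have ho2 : IsOpen {s : ℂ | a < s.re} := isOpen_lt continuous_const Complex.continuous_re
    have hm2 : ((a + 1 : ℝ) : ℂ) ∈ {s : ℂ | a < s.re} := by
      show a < ((a + 1 : ℝ) : ℂ).re
      rw [Complex.ofReal_re]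
      linarith
    filter_upwards [ho2.mem_nhds hm2] with s hs
    have hs' : a < s.re := hs
    have hs0 : s ≠ 0 := by
      rintro rfl
      rw [Complex.zero_re] at hs'
      linarith
    have h1 := Ces_fub (ee c u κ r) hem s (by linarith) (ee_int H κ r s.re hs')
    have h2 := ee_transform H κ r s hs'
    have h3 : s ^ 2 * Φ s = -Dser c u s + r * ((Real.eulerMascheroniConstant : ℂ) +
        Complex.log s) - κ := by
      rw [← h2, ← h1, hΦ]
      ring
    show L s = s ^ r * Complex.exp (r * Real.eulerMascheroniConstant - κ - s ^ 2 * Φ s)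
    rw [h3, H.LD s hs'.le]
    have h4 : (r : ℂ) * Real.eulerMascheroniConstant - κ - (-Dser c u s +
        r * ((Real.eulerMascheroniConstant : ℂ) + Complex.log s) - κ) =
        Dser c u s + -(r * Complex.log s) := by ring
    rw [h4, Complex.exp_add, Complex.exp_neg, Complex.exp_nat_mul, Complex.exp_log hs0]
    have h5 : s ^ r ≠ 0 := pow_ne_zero _ hs0
    field_simp
  have h6 := (H.Lent.differentiableOn.analyticOnNhd ho).eqOn_of_preconnected_of_eventuallyEq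
    (hR.analyticOnNhd ho) hpc hmem hev
  exact h6 hs

theorem Bdd_I1 (x : ℝ) (hx : 0 < x) :
    IntegrableOn (fun v : ℝ => (1 + v) * Real.exp (-(x * v))) (Ioi 0) ∧
      ∫ v in Ioi (0 : ℝ), (1 + v) * Real.exp (-(x * v)) = 1 / x + 1 / x ^ 2 := by
  have h1 : IntegrableOn (fun v : ℝ => Real.exp (-(x * v))) (Ioi 0) := by
    have := integrableOn_exp_mul_Ioi (a := -x) (by linarith) 0
    refine this.congr_fun (fun v _ => ?_) measurableSet_Ioi
    show Real.exp (-x * v) = _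
    rw [neg_mul]
  have h2 : ∫ v in Ioi (0 : ℝ), Real.exp (-(x * v)) = 1 / x := by
    have := integral_exp_mul_Ioi (a := -x) (by linarith) 0
    have h3 : ∫ v in Ioi (0 : ℝ), Real.exp (-(x * v)) = ∫ v in Ioi (0 : ℝ), Real.exp (-x * v) := by
      simp only [neg_mul]
    rw [h3, this]
    simp
  have h3 : ∫ v in Ioi (0 : ℝ), v ^ ((2 : ℝ) - 1) * Real.exp (-(x * v)) =
      (1 / x) ^ (2 : ℝ) * Real.Gamma 2 :=
    Real.integral_rpow_mul_exp_neg_mul_Ioi (by norm_num) hx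
  have h4 : Real.Gamma 2 = 1 := Real.Gamma_two
  have h5 : ∀ v : ℝ, v ^ ((2 : ℝ) - 1) = v := fun v => by
    rw [show (2 : ℝ) - 1 = 1 by norm_num, Real.rpow_one]
  simp only [h5] at h3
  rw [h4, mul_one, show (2 : ℝ) = ((2 : ℕ) : ℝ) by norm_num, Real.rpow_natCast] at h3
  have h6 : IntegrableOn (fun v : ℝ => v * Real.exp (-(x * v))) (Ioi 0) := by
    by_contra hc
    have h7 : ∫ v in Ioi (0 : ℝ), v * Real.exp (-(x * v)) = 0 := integral_undef hc
    rw [h7] at h3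
    have : (0 : ℝ) < (1 / x) ^ 2 := by positivity
    linarith
  have h8 : (fun v : ℝ => (1 + v) * Real.exp (-(x * v))) =
      fun v => Real.exp (-(x * v)) + v * Real.exp (-(x * v)) := by
    funext v
    ring
  rw [h8]
  refine ⟨h1.add h6, ?_⟩
  rw [integral_add h1 h6, h2, h3]
  ring

theorem Bdd_norm (e : ℝ → ℝ) (B : ℝ)
    (h : ∀ U : ℝ, 0 < U → |∫ v in Ioc 0 U, e v| ≤ B * (1 + U)) (x : ℝ) (hx : 0 < x)
    (hx1 : x < 1) :
    ‖(x : ℂ) ^ 2 * ∫ v in Ioi (0 : ℝ),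
      ((∫ w in Ioc 0 v, e w : ℝ) : ℂ) * Complex.exp (-((x : ℂ) * v))‖ ≤ 2 * B := by
  have hB := Bdd_nonneg e B h
  obtain ⟨h1, h2⟩ := Bdd_I1 x hx
  have h3 : ‖∫ v in Ioi (0 : ℝ),
      ((∫ w in Ioc 0 v, e w : ℝ) : ℂ) * Complex.exp (-((x : ℂ) * v))‖ ≤
      ∫ v in Ioi (0 : ℝ), B * ((1 + v) * Real.exp (-(x * v))) := by
    apply norm_integral_le_of_norm_le (h1.const_mul B)
    refine (ae_restrict_iff' measurableSet_Ioi).2 (Eventually.of_forall fun v hv => ?_)
    have hv0 : 0 < v := hv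
    rw [norm_mul, Complex.norm_real, Complex.norm_exp]
    have h4 : (-((x : ℂ) * v)).re = -(x * v) := by
      rw [Complex.neg_re, ← Complex.ofReal_mul, Complex.ofReal_re]
    rw [h4, ← mul_assoc]
    exact mul_le_mul_of_nonneg_right (h v hv0) (Real.exp_pos _).le
  rw [integral_const_mul, h2] at h3
  rw [norm_mul, norm_pow, Complex.norm_real, Real.norm_of_nonneg hx.le]
  have h5 : x ^ 2 * (B * (1 / x + 1 / x ^ 2)) = B * (x + 1) := by
    field_simp
  calc x ^ 2 * ‖∫ v in Ioi (0 : ℝ),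
      ((∫ w in Ioc 0 v, e w : ℝ) : ℂ) * Complex.exp (-((x : ℂ) * v))‖ ≤
      x ^ 2 * (B * (1 / x + 1 / x ^ 2)) := mul_le_mul_of_nonneg_left h3 (by positivity)
    _ = B * (x + 1) := h5
    _ ≤ 2 * B := by nlinarith

/-- Bounded means imply the absence of zeros and order `r`: `bdd_rep`; for real `x` in `(0,1)`,
`|x² ∫ F e^{-xv} dv| ≤ B (x + 1) ≤ 2 B`, so `‖L x/x^r‖` stays between two positive constants; with
`exists_order` (`L s/s^n → ℓ ≠ 0`) this forces `n = r`. -/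
theorem bdd_main (H : Hyp c u a L) (κ : ℝ) (r : ℕ) (B : ℝ)
    (h : ∀ U : ℝ, 0 < U → |∫ v in Ioc 0 U, ee c u κ r v| ≤ B * (1 + U)) :
    (∀ s : ℂ, 0 < s.re → L s ≠ 0) ∧
      ∃ l : ℂ, l ≠ 0 ∧ Tendsto (fun s : ℂ => L s / s ^ r) (𝓝[≠] 0) (𝓝 l) := by
  have hz : ∀ s : ℂ, 0 < s.re → L s ≠ 0 := by
    intro s hs
    rw [bdd_rep H κ r B h s hs]
    refine mul_ne_zero (pow_ne_zero _ ?_) (Complex.exp_ne_zero _)
    rintro rfl
    simp at hs
  refine ⟨hz, ?_⟩
  obtain ⟨n, l, hl, ht⟩ := exists_order L H.Lent 1 (hz 1 (by simp))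
  set E0 : ℝ := r * Real.eulerMascheroniConstant - κ with hE0
  -- the size of `L x / x ^ r`
  have hsize : ∀ x : ℝ, 0 < x → x < 1 → Real.exp (E0 - 2 * B) ≤ ‖L x / (x : ℂ) ^ r‖ ∧
      ‖L x / (x : ℂ) ^ r‖ ≤ Real.exp (E0 + 2 * B) := by
    intro x hx hx1
    have h1 := bdd_rep H κ r B h (x : ℂ) (by rw [Complex.ofReal_re]; exact hx)
    have h2 := Bdd_norm (ee c u κ r) B h x hx hx1
    have hx0 : (x : ℂ) ≠ 0 := Complex.ofReal_ne_zero.2 hx.ne'
    rw [h1, mul_div_cancel_left₀ _ (pow_ne_zero _ hx0), Complex.norm_exp]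
    have h3 := (Complex.abs_re_le_norm _).trans h2
    rw [abs_le] at h3
    have h4 : ((r : ℂ) * Real.eulerMascheroniConstant - κ -
        (x : ℂ) ^ 2 * ∫ v in Ioi (0 : ℝ),
        ((∫ w in Ioc 0 v, ee c u κ r w : ℝ) : ℂ) * Complex.exp (-((x : ℂ) * v))).re =
        E0 - ((x : ℂ) ^ 2 * ∫ v in Ioi (0 : ℝ),
        ((∫ w in Ioc 0 v, ee c u κ r w : ℝ) : ℂ) * Complex.exp (-((x : ℂ) * v))).re := by
      rw [Complex.sub_re, Complex.sub_re, hE0, ← Complex.ofReal_natCast, ← Complex.ofReal_mul,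
        Complex.ofReal_re, Complex.ofReal_re]
    rw [h4]
    exact ⟨Real.exp_le_exp.2 (by linarith [h3.2]), Real.exp_le_exp.2 (by linarith [h3.1])⟩
  -- the limit along the positive reals
  have hreal : Tendsto (fun x : ℝ => (x : ℂ)) (𝓝[>] 0) (𝓝[≠] 0) := by
    refine tendsto_nhdsWithin_iff.2 ⟨?_, ?_⟩
    · have h1 : Tendsto (fun x : ℝ => (x : ℂ)) (𝓝 0) (𝓝 ((0 : ℝ) : ℂ)) :=
        Complex.continuous_ofReal.tendsto 0
      rw [Complex.ofReal_zero] at h1
      exact h1.mono_left nhdsWithin_le_nhds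
    · filter_upwards [self_mem_nhdsWithin] with x hx
      exact Complex.ofReal_ne_zero.2 (ne_of_gt hx)
  have htx : Tendsto (fun x : ℝ => ‖L x / (x : ℂ) ^ n‖) (𝓝[>] 0) (𝓝 ‖l‖) :=
    (ht.comp hreal).norm
  have hlpos : 0 < ‖l‖ := norm_pos_iff.2 hl
  have hev : ∀ᶠ x : ℝ in 𝓝[>] 0, 0 < x ∧ x < 1 :=
    Ioo_mem_nhdsGT (zero_lt_one' ℝ)
  have hpow : ∀ k : ℕ, k ≠ 0 → Tendsto (fun x : ℝ => x ^ k) (𝓝[>] 0) (𝓝 0) := by
    intro k hk
    have h1 : Tendsto (fun x : ℝ => x ^ k) (𝓝 0) (𝓝 ((0 : ℝ) ^ k)) := (continuous_pow k).tendsto 0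
    rw [zero_pow hk] at h1
    exact h1.mono_left nhdsWithin_le_nhds
  have hnr : n = r := by
    rcases lt_trichotomy n r with h1 | h1 | h1
    · exfalso
      have h2 : Tendsto (fun x : ℝ => ‖L x / (x : ℂ) ^ n‖) (𝓝[>] 0) (𝓝 0) := by
        have h3 : Tendsto (fun x : ℝ => Real.exp (E0 + 2 * B) * x ^ (r - n)) (𝓝[>] 0) (𝓝 0) := by
          have := (hpow (r - n) (by omega)).const_mul (Real.exp (E0 + 2 * B))
          rwa [mul_zero] at this
        refine squeeze_zero' (Eventually.of_forall fun x => norm_nonneg _) ?_ h3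
        filter_upwards [hev] with x hx
        have hx0 : (x : ℂ) ≠ 0 := Complex.ofReal_ne_zero.2 hx.1.ne'
        have h4 : L x / (x : ℂ) ^ n = L x / (x : ℂ) ^ r * (x : ℂ) ^ (r - n) := by
          have h5 : (x : ℂ) ^ r = (x : ℂ) ^ (r - n) * (x : ℂ) ^ n := by
            rw [← pow_add]
            congr 1
            omega
          rw [h5]
          field_simp
        rw [h4, norm_mul, norm_pow, Complex.norm_real, Real.norm_of_nonneg hx.1.le]
        exact mul_le_mul_of_nonneg_right (hsize x hx.1 hx.2).2 (pow_nonneg hx.1.le _)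
      exact hlpos.ne' (tendsto_nhds_unique htx h2)
    · exact h1
    · exfalso
      have h2 : Tendsto (fun x : ℝ => ‖L x / (x : ℂ) ^ r‖) (𝓝[>] 0) (𝓝 0) := by
        have h3 := htx.mul (hpow (n - r) (by omega))
        rw [mul_zero] at h3
        refine h3.congr' ?_
        filter_upwards [hev] with x hx
        have hx0 : (x : ℂ) ≠ 0 := Complex.ofReal_ne_zero.2 hx.1.ne'
        have h4 : L x / (x : ℂ) ^ r = L x / (x : ℂ) ^ n * (x : ℂ) ^ (n - r) := by
          have h5 : (x : ℂ) ^ n = (x : ℂ) ^ (n - r) * (x : ℂ) ^ r := by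
            rw [← pow_add]
            congr 1
            omega
          rw [h5]
          field_simp
        rw [h4, norm_mul, norm_pow, Complex.norm_real, Real.norm_of_nonneg hx.1.le]
      have h3 : Real.exp (E0 - 2 * B) ≤ 0 := by
        refine ge_of_tendsto h2 ?_
        filter_upwards [hev] with x hx
        exact (hsize x hx.1 hx.2).1
      exact absurd h3 (not_le.2 (Real.exp_pos _))
  subst hnr
  exact ⟨l, hl, ht⟩

/-- If `L` has no zeros in `Re s > 0` and order `r` at `0` with coefficient `l ≠ 0`, then `l` is a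
positive real number: `L x > 0` for real `x ≥ a` (`H.LD`, `Dser_ofReal`), `L` is real on the real
axis (`L_real` of module Near) and does not vanish on `(0,∞)`, so `L x > 0` there and
`l = lim L x / x^r ≥ 0`. -/
theorem lead_pos (H : Hyp c u a L) (hreal : ∀ x : ℝ, (L x).im = 0)
    (hz : ∀ s : ℂ, 0 < s.re → L s ≠ 0) (r : ℕ) (l : ℂ) (hl : l ≠ 0)
    (h : Tendsto (fun s : ℂ => L s / s ^ r) (𝓝[≠] 0) (𝓝 l)) : ∃ lam : ℝ, 0 < lam ∧ l = (lam : ℂ) := by
  have ha1 := H.apos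
  have hLr : ∀ x : ℝ, L x = (((L x).re : ℝ) : ℂ) := fun x =>
    Complex.ext (by simp) (by simp [hreal x])
  have hne : ∀ x : ℝ, 0 < x → (L x).re ≠ 0 := by
    intro x hx h0
    apply hz (x : ℂ) (by rw [Complex.ofReal_re]; exact hx)
    rw [hLr x, h0, Complex.ofReal_zero]
  have hcont : Continuous fun x : ℝ => (L x).re :=
    Complex.continuous_re.comp (H.Lent.continuous.comp Complex.continuous_ofReal)
  have hbig : 0 < (L (a : ℝ)).re := by
    rw [H.LD (a : ℂ) (by rw [Complex.ofReal_re]), Dser_ofReal H a le_rfl, ← Complex.ofReal_exp,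
      Complex.ofReal_re]
    exact Real.exp_pos _
  have hpos : ∀ x : ℝ, 0 < x → 0 < (L x).re := by
    intro x hx
    by_contra hc
    have hlt : (L x).re < 0 := lt_of_le_of_ne (not_lt.1 hc) (hne x hx)
    have hconn : IsPreconnected (Ioi (0 : ℝ)) := isPreconnected_Ioi
    have h1 := hconn.intermediate_value (show x ∈ Ioi (0 : ℝ) from hx)
      (show a ∈ Ioi (0 : ℝ) from (by linarith : (0 : ℝ) < a)) hcont.continuousOn
    obtain ⟨y, hy, hy0⟩ := h1 ⟨hlt.le, hbig.le⟩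
    exact hne y hy hy0
  have hrl : Tendsto (fun x : ℝ => (x : ℂ)) (𝓝[>] 0) (𝓝[≠] 0) := by
    refine tendsto_nhdsWithin_iff.2 ⟨?_, ?_⟩
    · have h1 : Tendsto (fun x : ℝ => (x : ℂ)) (𝓝 0) (𝓝 ((0 : ℝ) : ℂ)) :=
        Complex.continuous_ofReal.tendsto 0
      rw [Complex.ofReal_zero] at h1
      exact h1.mono_left nhdsWithin_le_nhds
    · filter_upwards [self_mem_nhdsWithin] with x hx
      exact Complex.ofReal_ne_zero.2 (ne_of_gt hx)
  have h1 := h.comp hrl
  have h2 : (fun s : ℂ => L s / s ^ r) ∘ (fun x : ℝ => (x : ℂ)) =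
      fun x : ℝ => (((L x).re / x ^ r : ℝ) : ℂ) := by
    funext x
    show L x / (x : ℂ) ^ r = _
    rw [hLr x]
    push_cast
    rw [Complex.ofReal_re]
  rw [h2] at h1
  have hre : Tendsto (fun x : ℝ => (L x).re / x ^ r) (𝓝[>] 0) (𝓝 l.re) := by
    have h3 := (Complex.continuous_re.tendsto l).comp h1
    refine h3.congr fun x => ?_
    show ((((L x).re / x ^ r : ℝ) : ℂ)).re = _
    rw [Complex.ofReal_re]
  have him : l.im = 0 := by
    have h3 := (Complex.continuous_im.tendsto l).comp h1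
    have h4 : Tendsto (fun _ : ℝ => (0 : ℝ)) (𝓝[>] (0 : ℝ)) (𝓝 l.im) := by
      refine h3.congr fun x => ?_
      show ((((L x).re / x ^ r : ℝ) : ℂ)).im = _
      rw [Complex.ofReal_im]
    exact tendsto_nhds_unique h4 tendsto_const_nhds
  have hge : 0 ≤ l.re := by
    refine ge_of_tendsto hre ?_
    filter_upwards [self_mem_nhdsWithin] with x hx
    have hx0 : 0 < x := hx
    exact (div_pos (hpos x hx0) (pow_pos hx0 r)).le
  have hl2 : l = ((l.re : ℝ) : ℂ) := Complex.ext (by simp) (by simp [him])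
  have hne0 : l.re ≠ 0 := by
    intro h0
    apply hl
    rw [hl2, h0, Complex.ofReal_zero]
  exact ⟨l.re, lt_of_le_of_ne hge (Ne.symm hne0), hl2⟩

end BSDC
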