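import Pool.Agent.W_92892c.Euler
import Pool.Agent.W_92892c.DserBasic

/-!
The original Birch and Swinnerton-Dyer product over prime powers, in the mean (MP_92892c_nt).

`ppProd W x = exp (- Σ_{p^m ≤ x} psum(a_p, e_p, m) / (m p^m))`.  `bsdErr W r lam x` is the logarithm
of `lam * ppProd W x / (e^γ log x)^r`.

Abstract part (hypotheses `Hyp c u a L` of the folder W_92892c): `Tc c u U = Σ_{u i ≤ U} c i`,
`ee c u κ r U = - Tc c u U - κ - r log U`, `kap lam r = r γ - log lam`, and polynomial growth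
`Gro L`.
-/

open MeasureTheory Set Filter Topology

namespace BSDC

open BSDS

/-- The product over prime powers `p^m ≤ x`: the exponential of
`- Σ_{p^m ≤ x} (α_p^m + β_p^m) / (m p^m)`. -/
noncomputable def ppProd (W : WeierstrassCurve ℤ) (x : ℝ) : ℝ :=
  Real.exp (-∑' i : Nat.Primes × ℕ, if (i.1 : ℝ) ^ (i.2 + 1) ≤ x then
    (psum (ap W i.1) (ep W i.1) (i.2 + 1) : ℝ) / (((i.2 : ℝ) + 1) * (i.1 : ℝ) ^ (i.2 + 1)) else 0)

/-- `log (lam * ppProd W x / (e^γ log x)^r)`. -/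
noncomputable def bsdErr (W : WeierstrassCurve ℤ) (r : ℕ) (lam x : ℝ) : ℝ :=
  Real.log (lam * ppProd W x / (Real.exp Real.eulerMascheroniConstant * Real.log x) ^ r)

/-! ### The abstract part -/

/-- `Σ_{u i ≤ U} c i`. -/
noncomputable def Tc {ι : Type} (c u : ι → ℝ) (U : ℝ) : ℝ := ∑' i, if u i ≤ U then c i else 0

/-- The error term in the variable `U = log x`. -/
noncomputable def ee {ι : Type} (c u : ι → ℝ) (κ : ℝ) (r : ℕ) (U : ℝ) : ℝ :=
  -Tc c u U - κ - r * Real.log U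

/-- `r γ - log lam`. -/
noncomputable def kap (lam : ℝ) (r : ℕ) : ℝ := r * Real.eulerMascheroniConstant - Real.log lam

/-- Polynomial growth on `Re s ≥ -1/5`. -/
def Gro (L : ℂ → ℂ) : Prop :=
  ∃ (K : ℝ) (n : ℕ), ∀ s : ℂ, -(1 / 5) ≤ s.re → ‖L s‖ ≤ K * (2 + ‖s‖) ^ n

end BSDC
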