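import Pool.Agent.W_92892c_h19.LocP
import Pool.Agent.W_92892c_h19.Defs

open MeasureTheory Set Filter Topology

namespace BSDC

open BSDS W3283g Complex

variable {ι : Type} {c u : ι → ℝ} {a : ℝ} {L : ℂ → ℂ}

/-- `loc_all` with `K = max ρ (a + 2)`, `h = L`, `ℓ = Gt` and `M = B log (2 + |τ|)`, `B` large: on
`closedBall (K + iτ) (K + 1/8)` we have `Re z ≥ -1/8` and `‖z‖ ≤ 2K + 1 + |τ|`, so
`‖L z‖ ≤ K' (2K + 3 + |τ|)^n ≤ exp (B log (2 + |τ|))` by `hgr`; at the centre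
`‖Gt‖ = ‖Dser‖ ≤ Mc c u a` (`Dser_bound`) and `‖L‖ = exp (-Re Gt) ≥ exp (-Mc)`.
`log (2 + |τ|) ≥ log 2 > 0`. -/
theorem Gt_bds (H : Hyp c u a L) (hgr : Gro L) (hz : ∀ s : ℂ, 0 < s.re → L s ≠ 0) (Gt : ℂ → ℂ)
    (hGt : DifferentiableOn ℂ Gt {s : ℂ | 0 < s.re})
    (hD : ∀ s : ℂ, a < s.re → Gt s = -Dser c u s)
    (he : ∀ s : ℂ, 0 < s.re → L s * Complex.exp (Gt s) = 1) (ρ : ℝ) :
    ∃ C : ℝ, 0 < C ∧
      (∀ τ σ : ℝ, 0 < σ → σ ≤ 1 / 32 →
        ∫⁻ t in Set.Icc (τ - 1 / 4) (τ + 1 / 4), ‖Gt ((σ : ℂ) + t * I)‖ₑ ^ 2 ≤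
          ENNReal.ofReal (C * (Real.log (2 + |τ|)) ^ 2)) ∧
      (∀ τ σ : ℝ, 0 < σ → σ ≤ 1 / 32 →
        ∫⁻ t in Set.Icc (τ - 1 / 4) (τ + 1 / 4), ‖deriv Gt ((σ : ℂ) + t * I)‖ₑ ^ 2 ≤
          ENNReal.ofReal (C * (Real.log (2 + |τ|)) ^ 2 / σ)) ∧
      (∀ s : ℂ, 0 < s.re → s.re ≤ ρ →
        ‖Gt s‖ ≤ C * Real.log (2 + |s.im|) * (1 + |Real.log s.re|)) ∧
      ∀ s : ℂ, 0 < s.re → s.re ≤ ρ → ‖deriv Gt s‖ ≤ C * Real.log (2 + |s.im|) / s.re := by
  obtain ⟨K', n, hg⟩ := hgr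
  have ha := H.apos
  obtain ⟨K, hKdef⟩ : ∃ K : ℝ, K = max ρ (a + 2) := ⟨_, rfl⟩
  have hKρ : ρ ≤ K := by rw [hKdef]; exact le_max_left _ _
  have hKa : a + 2 ≤ K := by rw [hKdef]; exact le_max_right _ _
  have hK2 : 2 ≤ K := by linarith
  obtain ⟨C0, hC0, hloc⟩ := loc_all K hK2
  obtain ⟨m, hm⟩ : ∃ m : ℝ, m = Mc c u a := ⟨_, rfl⟩
  have hm0 : 0 ≤ m := by rw [hm]; exact Mc_nonneg H
  obtain ⟨A, hA⟩ : ∃ A : ℝ, A = (|K'| + 1) * (2 * K + 3) ^ n := ⟨_, rfl⟩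
  have hA1 : 1 ≤ A := by
    rw [hA]
    have h1 : (1 : ℝ) ≤ (2 * K + 3) ^ n := one_le_pow₀ (by linarith)
    have h2 : (1 : ℝ) ≤ |K'| + 1 := by linarith [abs_nonneg K']
    nlinarith
  have hlA : 0 ≤ Real.log A := Real.log_nonneg hA1
  obtain ⟨b, hb⟩ : ∃ b : ℝ, b = 2 + 2 * Real.log A + n + 2 * m := ⟨_, rfl⟩
  have hn0 : (0 : ℝ) ≤ n := Nat.cast_nonneg n
  have hb2 : 2 ≤ b := by rw [hb]; linarith
  have hl : ∀ τ : ℝ, 1 / 2 ≤ Real.log (2 + |τ|) := by
    intro τ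
    have h1 : Real.log 2 ≤ Real.log (2 + |τ|) :=
      Real.log_le_log (by norm_num) (by linarith [abs_nonneg τ])
    have h2 := Real.log_two_gt_d9
    linarith
  have key := fun τ : ℝ => hloc τ (b * Real.log (2 + |τ|)) L Gt (by nlinarith [hl τ])
    (fun z _ => H.Lent.analyticAt z) ?_ ?_ hz hGt he ?_
  · have hC1 : C0 * b ≤ C0 * b ^ 2 := by
      refine mul_le_mul_of_nonneg_left ?_ hC0.le
      nlinarith
    refine ⟨C0 * b ^ 2, by positivity, ?_, ?_, ?_, ?_⟩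
    · intro τ σ hσ hσ1
      refine ((key τ).1 σ hσ hσ1).trans (ENNReal.ofReal_le_ofReal (le_of_eq ?_))
      ring
    · intro τ σ hσ hσ1
      refine ((key τ).2.1 σ hσ hσ1).trans (ENNReal.ofReal_le_ofReal (le_of_eq ?_))
      ring
    · intro s hs hs1
      have h1 := (key s.im).2.2.1 s.re hs (hs1.trans hKρ)
      rw [Complex.re_add_im] at h1
      refine h1.trans ?_
      rw [← mul_assoc]
      have h2 := hl s.im
      exact mul_le_mul_of_nonneg_right (mul_le_mul_of_nonneg_right hC1 (by linarith))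
        (by positivity)
    · intro s hs hs1
      have h1 := (key s.im).2.2.2 s.re hs (hs1.trans hKρ)
      rw [Complex.re_add_im] at h1
      refine h1.trans ?_
      rw [← mul_assoc]
      have h2 := hl s.im
      exact div_le_div_of_nonneg_right (mul_le_mul_of_nonneg_right hC1 (by linarith)) hs.le
  · intro z hz'
    rw [Metric.mem_closedBall, dist_eq_norm] at hz'
    have h1 := (Complex.abs_re_le_norm (z - ((K : ℂ) + τ * I))).trans hz'
    have h2 : (z - ((K : ℂ) + τ * I)).re = z.re - K := by simp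
    rw [h2, abs_le] at h1
    have h3 : ‖z‖ ≤ 2 * K + 1 + |τ| := by
      have h4 : ‖z‖ ≤ ‖z - ((K : ℂ) + τ * I)‖ + ‖(K : ℂ) + τ * I‖ := by
        have := norm_add_le (z - ((K : ℂ) + τ * I)) ((K : ℂ) + τ * I)
        rwa [sub_add_cancel] at this
      have h5 : ‖(K : ℂ) + τ * I‖ ≤ K + |τ| := by
        refine (norm_add_le _ _).trans ?_
        rw [norm_mul, Complex.norm_I, mul_one, Complex.norm_real, Complex.norm_real,
          Real.norm_eq_abs, Real.norm_eq_abs, abs_of_pos (by linarith : 0 < K)]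
      linarith
    have h6 : 2 + ‖z‖ ≤ (2 * K + 3) * (2 + |τ|) := by nlinarith [abs_nonneg τ]
    have hT : (0 : ℝ) < 2 + |τ| := by linarith [abs_nonneg τ]
    calc ‖L z‖ ≤ K' * (2 + ‖z‖) ^ n := hg z (by linarith [h1.1])
      _ ≤ (|K'| + 1) * ((2 * K + 3) * (2 + |τ|)) ^ n := by
          have h7 : K' ≤ |K'| + 1 := by linarith [le_abs_self K']
          have h8 : (2 + ‖z‖) ^ n ≤ ((2 * K + 3) * (2 + |τ|)) ^ n :=
            pow_le_pow_left₀ (by positivity) h6 n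
          exact mul_le_mul h7 h8 (by positivity) (by positivity)
      _ = A * (2 + |τ|) ^ n := by rw [hA, mul_pow, mul_assoc]
      _ = Real.exp (Real.log A + n * Real.log (2 + |τ|)) := by
          rw [Real.exp_add, Real.exp_log (by linarith), Real.exp_nat_mul, Real.exp_log hT]
      _ ≤ Real.exp (b * Real.log (2 + |τ|)) := by
          apply Real.exp_le_exp.2
          have h9 := hl τ
          rw [hb]
          nlinarith [mul_nonneg hlA (by linarith : 0 ≤ Real.log (2 + |τ|) - 1 / 2),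
            mul_nonneg hm0 (by linarith : 0 ≤ Real.log (2 + |τ|))]
  · have hre : ((K : ℂ) + τ * I).re = K := by simp
    have h1 := he ((K : ℂ) + τ * I) (by rw [hre]; linarith)
    have h2 : ‖L ((K : ℂ) + τ * I)‖ * Real.exp (Gt ((K : ℂ) + τ * I)).re = 1 := by
      rw [← Complex.norm_exp, ← norm_mul, h1, norm_one]
    have h3 : (Gt ((K : ℂ) + τ * I)).re ≤ m := by
      refine (Complex.re_le_norm _).trans ?_
      rw [hD _ (by rw [hre]; linarith), norm_neg, hm]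
      exact Dser_bound H _ (by rw [hre]; linarith)
    have h4 : ‖L ((K : ℂ) + τ * I)‖ = Real.exp (-(Gt ((K : ℂ) + τ * I)).re) := by
      rw [Real.exp_neg]
      exact eq_inv_of_mul_eq_one_left h2
    rw [h4]
    apply Real.exp_le_exp.2
    have h5 : m ≤ b * Real.log (2 + |τ|) := by
      have h9 := hl τ
      rw [hb]
      nlinarith [mul_nonneg hlA (by linarith : 0 ≤ Real.log (2 + |τ|)),
        mul_nonneg hm0 (by linarith : 0 ≤ Real.log (2 + |τ|) - 1 / 2),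
        mul_nonneg hn0 (by linarith : 0 ≤ Real.log (2 + |τ|))]
    linarith
  · have hre : ((K : ℂ) + τ * I).re = K := by simp
    rw [hD _ (by rw [hre]; linarith), norm_neg]
    refine (Dser_bound H _ (by rw [hre]; linarith)).trans ?_
    rw [← hm, hb]
    have h9 := hl τ
    nlinarith [mul_nonneg hlA (by linarith : 0 ≤ Real.log (2 + |τ|)),
      mul_nonneg hm0 (by linarith : 0 ≤ Real.log (2 + |τ|) - 1 / 2),
      mul_nonneg hn0 (by linarith : 0 ≤ Real.log (2 + |τ|))]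

end BSDC
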