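import Pool.Agent.W_92892c_h19.Fam2

open MeasureTheory Set Filter Topology

namespace BSDC

open BSDS W3283e1 W3283f W3283g

/-- The conductor of `y² = x³ + c k² x` (`c = ±1`, `k` squarefree). -/
def condN (c : ℤ) (k : ℕ) : ℕ :=
  (if c = -1 then (if Odd k then 32 else 16) else (if Odd k then 64 else 8)) * k ^ 2

/-- The proof of `Lk_grow` (module Fam1) with the function written out. -/
theorem Fam3_core (k : ℕ) (hk : 0 < k) (c : ℤ) (n f i j : ℕ) (hn : Odd n)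
    (hs : Squarefree n) (hkf : k = 2 ^ i * n * f ^ 2)
    (hj : (c = -1 ∧ i = 0 ∧ j = 0) ∨ (c = -1 ∧ i = 1 ∧ j = 1) ∨
      (c = 1 ∧ i = 0 ∧ j = 1) ∨ (c = 1 ∧ i = 1 ∧ j = 0)) (hj' : j = 0 ∨ j = 1) :
    ∃ L : ℂ → ℂ, Differentiable ℂ L ∧
      (∀ s : ℂ, 3 / 2 < s.re → HasProd (fun p : {p : ℕ // p.Prime ∧ ¬ p ∣ 2 * k} =>
        (1 - ((p : ℂ) + 1 - (npts (c * k ^ 2) 0 p : ℂ)) * (p : ℂ) ^ (-s)
          + (p : ℂ) ^ (1 - 2 * s))⁻¹) (L s)) ∧
      (∃ (K : ℝ) (n : ℕ), ∀ s : ℂ, 4 / 5 ≤ s.re → ‖L s‖ ≤ K * (2 + ‖s‖) ^ n) ∧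
      ∀ s : ℂ, L s = LG (aFam n j) (kF n j) s *
        ∏ p ∈ (k.primeFactors.erase 2) \ n.primeFactors, fL (alF n j p) p s := by
  classical
  have hcount : ∀ p : ℕ, p.Prime → p ≠ 2 → ¬ p ∣ k →
      (npts (c * k ^ 2) 0 p : ℝ) = p + 1 - 2 * (alF n j p).re :=
    fun p hp h2 hpk => npts_fam n f i k c j hn hkf hk hj p hp h2 hpk
  have hnk : n ∣ k := by
    rw [hkf]
    exact Dvd.dvd.mul_right (Dvd.intro_left _ rfl) _
  have hT := thData_fam n j hj' hn hs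
  set D : Finset ℕ := k.primeFactors.erase 2 with hD
  have hmemD : ∀ p, p ∈ D ↔ p.Prime ∧ p ≠ 2 ∧ p ∣ k := by
    intro p
    rw [hD, Finset.mem_erase, Nat.mem_primeFactors]
    constructor
    · rintro ⟨h1, h2, h3, -⟩
      exact ⟨h2, h1, h3⟩
    · rintro ⟨h1, h2, h3⟩
      exact ⟨h2, h1, h3, hk.ne'⟩
  have hnD : n.primeFactors ⊆ D := by
    intro p hp
    have hpp := Nat.prime_of_mem_primeFactors hp
    have hdvd := Nat.dvd_of_mem_primeFactors hp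
    rw [hmemD]
    refine ⟨hpp, ?_, hdvd.trans hnk⟩
    rintro rfl
    exact (Nat.not_even_iff_odd.2 hn) (even_iff_two_dvd.2 hdvd)
  have hfne : ∀ p ∈ D, ∀ s : ℂ, 3 / 4 < s.re → fL (alF n j p) p s ≠ 0 := by
    intro p hp s h3
    obtain ⟨h1, h2, -⟩ := (hmemD p).1 hp
    exact fL_ne _ p h1 (norm_alF n j p h1 h2) s h3
  set v : ℂ → ℂ := fun s => ∏ p ∈ D, fL (alF n j p) p s with hv
  set w : ℂ → ℂ := fun s => ∏ p ∈ D \ n.primeFactors, fL (alF n j p) p s with hw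
  have hfan : ∀ p ∈ D, ∀ s : ℂ, AnalyticAt ℂ (fL (alF n j p) p) s :=
    fun p hp s => fL_an _ p ((hmemD p).1 hp).1 s
  have hwan : ∀ s : ℂ, AnalyticAt ℂ w s := by
    intro s
    exact Finset.analyticAt_fun_prod _ fun p hp => hfan p (Finset.sdiff_subset hp) s
  have huv : ∀ s : ℂ, 3 / 4 < s.re → uF n j s * v s = w s := by
    intro s h3
    have h1 : w s * ∏ p ∈ n.primeFactors, fL (alF n j p) p s = v s :=
      Finset.prod_sdiff hnD
    rw [← h1]
    unfold uF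
    rw [Finset.prod_inv_distrib]
    have h2 : ∏ p ∈ n.primeFactors, fL (alF n j p) p s ≠ 0 := by
      rw [Finset.prod_ne_zero_iff]
      intro p hp
      exact hfne p (hnD hp) s h3
    field_simp
  have hLv : ∀ s : ℂ, 3 / 4 < s.re →
      LG (aFam n j) (kF n j) s * w s = LLF n j s * v s := by
    intro s h3
    unfold LLF
    rw [mul_assoc, huv s h3]
  obtain ⟨C, hC, hgr⟩ := LG_grow _ _ _ hT
  refine ⟨fun s => LG (aFam n j) (kF n j) s * w s, ?_, ?_,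
    ⟨C * 4 ^ (D \ n.primeFactors).card, 3, ?_⟩, fun s => rfl⟩
  · intro s
    exact (LG_diff _ _ _ hT s).mul (hwan s).differentiableAt
  · intro s h3
    have h34 : 3 / 4 < s.re := by linarith
    show HasProd _ (LG (aFam n j) (kF n j) s * w s)
    rw [hLv s h34]
    have h5 : HasProd (fun p : OP => (fL (alF n j p) p s)⁻¹) (LLF n j s) := by
      have h4 := euler_full n j hn s h3
      rw [← (LG_eq _ _ _ hT s h3).2] at h4
      exact h4
    -- the finite correction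
    let T : Finset OP := D.attach.image (fun p => ⟨p.1, ((hmemD p.1).1 p.2).1,
      ((hmemD p.1).1 p.2).2.1⟩)
    have hT' : ∀ p : OP, p ∈ T ↔ (p : ℕ) ∣ k := by
      intro p
      constructor
      · intro h
        obtain ⟨q, _, hq⟩ := Finset.mem_image.1 h
        rw [← hq]
        exact ((hmemD q.1).1 q.2).2.2
      · intro h
        exact Finset.mem_image.2 ⟨⟨p.1, (hmemD p.1).2 ⟨p.2.1, p.2.2, h⟩⟩,
          Finset.mem_attach _ _, rfl⟩
    have h6 : HasProd (fun p : OP => (if (p : ℕ) ∣ k then fL (alF n j p) p s else 1)) (v s) := by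
      have h7 : HasProd (fun p : OP => (if (p : ℕ) ∣ k then fL (alF n j p) p s else 1))
          (∏ p ∈ T, (if (p : ℕ) ∣ k then fL (alF n j p) p s else 1)) := by
        refine hasProd_prod_of_ne_finset_one ?_
        intro p hp
        rw [if_neg]
        intro h
        exact hp ((hT' p).2 h)
      have h8 : (∏ p ∈ T, (if (p : ℕ) ∣ k then fL (alF n j p) p s else 1)) = v s := by
        rw [hv]
        show _ = ∏ p ∈ D, fL (alF n j p) p s
        rw [← Finset.prod_attach D]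
        rw [Finset.prod_image]
        · refine Finset.prod_congr rfl ?_
          intro q _
          rw [if_pos]
          exact ((hmemD q.1).1 q.2).2.2
        · intro a _ b _ hab
          apply Subtype.ext
          exact congrArg (fun q : OP => (q : ℕ)) hab
      rw [← h8]
      exact h7
    have h9 := h5.mul h6
    let g : {p : ℕ // p.Prime ∧ ¬ p ∣ 2 * k} → OP := fun p =>
      ⟨p.1, p.2.1, fun h => p.2.2 (by rw [h]; exact Dvd.intro _ rfl)⟩
    have hg : Function.Injective g := by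
      intro a b hab
      apply Subtype.ext
      exact congrArg (fun q : OP => (q : ℕ)) hab
    rw [← hg.hasProd_iff] at h9
    · refine h9.congr_fun ?_
      intro p
      have hp2 : (p : ℕ) ≠ 2 := fun h => p.2.2 (by rw [h]; exact Dvd.intro _ rfl)
      have hpk : ¬ (p : ℕ) ∣ k := fun h => p.2.2 (Dvd.dvd.mul_left h 2)
      show _ = (fL (alF n j (p : ℕ)) (p : ℕ) s)⁻¹ * (if (p : ℕ) ∣ k then _ else 1)
      rw [if_neg hpk, mul_one,
        finH_factor (alF n j (p : ℕ)) (p : ℕ) p.2.1 (norm_alF n j _ p.2.1 hp2) _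
          (hcount p p.2.1 hp2 hpk) s]
    · intro p hp
      have hpk : (p : ℕ) ∣ k := by
        by_contra h
        apply hp
        refine ⟨⟨p.1, p.2.1, ?_⟩, rfl⟩
        rw [p.2.1.dvd_mul]
        rintro (h' | h')
        · exact p.2.2 ((Nat.prime_dvd_prime_iff_eq p.2.1 Nat.prime_two).1 h')
        · exact h h'
      have hf := hfne p ((hmemD _).2 ⟨p.2.1, p.2.2, hpk⟩) s h34
      rw [if_pos hpk]
      exact inv_mul_cancel₀ hf
  · intro s h45
    show ‖LG (aFam n j) (kF n j) s * w s‖ ≤ _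
    rw [norm_mul]
    have h1 := hgr s (by linarith)
    have h2 : ‖w s‖ ≤ 4 ^ (D \ n.primeFactors).card := by
      rw [hw]
      show ‖∏ p ∈ D \ n.primeFactors, fL (alF n j p) p s‖ ≤ _
      rw [norm_prod, ← Finset.prod_const]
      refine Finset.prod_le_prod (fun p _ => norm_nonneg _) fun p hp => ?_
      obtain ⟨h1, h2, -⟩ := (hmemD p).1 (Finset.sdiff_subset hp)
      exact (Low_fL h1 (norm_alF n j p h1 h2) h45).2
    calc ‖LG (aFam n j) (kF n j) s‖ * ‖w s‖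
        ≤ (C * (2 + ‖s‖) ^ 3) * 4 ^ (D \ n.primeFactors).card :=
          mul_le_mul h1 h2 (norm_nonneg _) (by positivity)
      _ = C * 4 ^ (D \ n.primeFactors).card * (2 + ‖s‖) ^ 3 := by ring

theorem Fam3_condN0 (c : ℤ) (k n i j : ℕ) (hn : Odd n) (hk : k = 2 ^ i * n)
    (hj : (c = -1 ∧ i = 0 ∧ j = 0) ∨ (c = -1 ∧ i = 1 ∧ j = 1) ∨
      (c = 1 ∧ i = 0 ∧ j = 1) ∨ (c = 1 ∧ i = 1 ∧ j = 0)) :
    condN c k = (if j = 0 then 32 else 64) * n ^ 2 := by
  have h2 : ¬ Odd (2 * n) := by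
    rw [Nat.not_odd_iff_even]
    exact even_two_mul n
  unfold condN
  rcases hj with ⟨rfl, rfl, rfl⟩ | ⟨rfl, rfl, rfl⟩ | ⟨rfl, rfl, rfl⟩ | ⟨rfl, rfl, rfl⟩
  · rw [hk, pow_zero, one_mul, if_pos rfl, if_pos hn, if_pos rfl]
  · rw [hk, pow_one, if_pos rfl, if_neg h2, if_neg one_ne_zero]
    ring
  · rw [hk, pow_zero, one_mul, if_neg (by norm_num), if_pos hn, if_neg one_ne_zero]
  · rw [hk, pow_one, if_neg (by norm_num), if_neg h2, if_pos rfl]
    ring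

theorem Fam3_inv (x : ℝ) (hx : 0 < x) (s : ℂ) :
    (((x⁻¹ : ℝ) : ℂ)) ^ s * ((x : ℝ) : ℂ) ^ s = 1 := by
  have h1 : Complex.arg ((x : ℝ) : ℂ) ≠ Real.pi := by
    rw [Complex.arg_ofReal_of_nonneg hx.le]
    exact Real.pi_pos.ne
  have h2 : ((x : ℝ) : ℂ) ^ s ≠ 0 := by
    rw [Ne, Complex.cpow_eq_zero_iff]
    rintro ⟨h3, -⟩
    exact hx.ne' (by exact_mod_cast h3)
  rw [Complex.ofReal_inv, Complex.inv_cpow _ _ h1, inv_mul_cancel₀ h2]

/-- `1/(π kF n j) = √(condN c k)/(2π)`: the four cases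
`c = -1, k = n, j = 0` (`kF = √2/(4n)`, `condN = 32 n²`), `c = -1, k = 2n, j = 1` (`kF = 1/(4n)`,
`condN = 64 n²`), `c = 1, k = n, j = 1`, `c = 1, k = 2n, j = 0`. -/
theorem kF_cond (k n i j : ℕ) (c : ℤ) (hn : Odd n) (hk : k = 2 ^ i * n)
    (hj : (c = -1 ∧ i = 0 ∧ j = 0) ∨ (c = -1 ∧ i = 1 ∧ j = 1) ∨
      (c = 1 ∧ i = 0 ∧ j = 1) ∨ (c = 1 ∧ i = 1 ∧ j = 0)) :
    (Real.pi * kF n j)⁻¹ = Real.sqrt (condN c k) / (2 * Real.pi) := by
  have hn1 : 0 < (n : ℝ) := by exact_mod_cast hn.pos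
  have hpi := Real.pi_pos
  have h2 : 0 < Real.sqrt 2 := Real.sqrt_pos.2 two_pos
  have h22 : Real.sqrt 2 * Real.sqrt 2 = 2 := Real.mul_self_sqrt two_pos.le
  rw [Fam3_condN0 c k n i j hn hk hj]
  have hj01 : j = 0 ∨ j = 1 := by omega
  rcases hj01 with rfl | rfl
  · have h3 : Real.sqrt (((if 0 = 0 then 32 else 64) * n ^ 2 : ℕ) : ℝ) =
        4 * Real.sqrt 2 * n := by
      rw [if_pos rfl, show (((32 * n ^ 2 : ℕ)) : ℝ) = (4 * Real.sqrt 2 * n) ^ 2 by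
        push_cast
        rw [mul_pow, mul_pow, Real.sq_sqrt two_pos.le]
        ring]
      exact Real.sqrt_sq (by positivity)
    rw [h3]
    unfold kF
    rw [if_pos rfl, inv_eq_one_div, div_eq_div_iff (by positivity) (by positivity)]
    field_simp
    linear_combination -h22
  · have h3 : Real.sqrt (((if 1 = 0 then 32 else 64) * n ^ 2 : ℕ) : ℝ) = 8 * n := by
      rw [if_neg one_ne_zero, show (((64 * n ^ 2 : ℕ)) : ℝ) = (8 * n) ^ 2 by
        push_cast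
        ring]
      exact Real.sqrt_sq (by positivity)
    rw [h3]
    unfold kF
    rw [if_neg one_ne_zero]
    field_simp
    norm_num

/-- `Lk_grow` (module Fam1) for squarefree `k`, with the functional equation.  Here `f = 1` in
`k_form`, so `D = n.primeFactors` and `L = LG (aFam n j) (kF n j)`; copy the proof of `Lk_grow`.
Functional equation: with `A = (π κ)⁻¹`, `κ = kF n j` (`kF_cond`), `LamG_fac_eq` says
`LG a κ (1 + w) = (π κ)^(1+w) Γ(1+w)⁻¹ LamG a κ w`, so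
`A^(1+w) Γ(1+w) LG a κ (1+w) = LamG a κ w` for `|Re w| < 1` (`Γ(1+w) ≠ 0`), and
`LamG a κ (-w) = ε LamG a κ w` (`LamG_basic`). -/
theorem Lk_fe (k : ℕ) (hk : Squarefree k) (c : ℤ) (hc : c = 1 ∨ c = -1) :
    ∃ L : ℂ → ℂ, Differentiable ℂ L ∧
      (∀ s : ℂ, 3 / 2 < s.re → HasProd (fun p : {p : ℕ // p.Prime ∧ ¬ p ∣ 2 * k} =>
        (1 - ((p : ℂ) + 1 - (npts (c * k ^ 2) 0 p : ℂ)) * (p : ℂ) ^ (-s)
          + (p : ℂ) ^ (1 - 2 * s))⁻¹) (L s)) ∧
      (∃ (K : ℝ) (n : ℕ), ∀ s : ℂ, 4 / 5 ≤ s.re → ‖L s‖ ≤ K * (2 + ‖s‖) ^ n) ∧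
      ∃ ε : ℂ, ∀ w : ℂ, |w.re| < 1 →
        ((Real.sqrt (condN c k) / (2 * Real.pi) : ℝ) : ℂ) ^ (1 - w) * Complex.Gamma (1 - w) *
            L (1 - w) =
          ε * (((Real.sqrt (condN c k) / (2 * Real.pi) : ℝ) : ℂ) ^ (1 + w) *
            Complex.Gamma (1 + w) * L (1 + w)) := by
  classical
  have hk0 : 0 < k := Nat.pos_of_ne_zero hk.ne_zero
  obtain ⟨n, f, i, hn, hs, hi, hkf⟩ := k_form k hk0
  have hf1 : f = 1 := by
    have h1 : f * f ∣ k := by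
      rw [hkf, sq]
      exact Dvd.intro_left _ rfl
    exact Nat.isUnit_iff.1 (hk f h1)
  obtain ⟨j, hj, hj'⟩ : ∃ j : ℕ, ((c = -1 ∧ i = 0 ∧ j = 0) ∨ (c = -1 ∧ i = 1 ∧ j = 1) ∨
      (c = 1 ∧ i = 0 ∧ j = 1) ∨ (c = 1 ∧ i = 1 ∧ j = 0)) ∧ (j = 0 ∨ j = 1) := by
    rcases hc with rfl | rfl <;> rcases hi with rfl | rfl
    · exact ⟨1, by omega, by omega⟩
    · exact ⟨0, by omega, by omega⟩
    · exact ⟨0, by omega, by omega⟩
    · exact ⟨1, by omega, by omega⟩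
  obtain ⟨L, hL, hprod, hgro, hLeq⟩ := Fam3_core k hk0 c n f i j hn hs hkf hj hj'
  have hk2 : k = 2 ^ i * n := by
    rw [hkf, hf1, one_pow, mul_one]
  have hempty : (k.primeFactors.erase 2) \ n.primeFactors = ∅ := by
    rw [Finset.sdiff_eq_empty_iff_subset]
    intro p hp
    rw [Finset.mem_erase, Nat.mem_primeFactors] at hp
    obtain ⟨hp2, hpp, hpk, -⟩ := hp
    rw [Nat.mem_primeFactors]
    refine ⟨hpp, ?_, hn.pos.ne'⟩
    rw [hk2] at hpk
    rcases hpp.dvd_mul.1 hpk with h | h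
    · exact absurd ((Nat.prime_dvd_prime_iff_eq hpp Nat.prime_two).1 (hpp.dvd_of_dvd_pow h)) hp2
    · exact h
  have hLeq' : ∀ s : ℂ, L s = LG (aFam n j) (kF n j) s := by
    intro s
    rw [hLeq s, hempty, Finset.prod_empty, mul_one]
  have hT := thData_fam n j hj' hn hs
  have hκ : 0 < kF n j := hT.κpos
  have hA := kF_cond k n i j c hn hk2 hj
  refine ⟨L, hL, hprod, hgro, ?_⟩
  have key : ∀ w : ℂ, |w.re| < 1 →
      ((Real.sqrt (condN c k) / (2 * Real.pi) : ℝ) : ℂ) ^ (1 + w) * Complex.Gamma (1 + w) *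
        L (1 + w) = LamG (aFam n j) (kF n j) w := by
    intro w hw
    have hw1 := (abs_lt.1 hw).1
    have hG : Complex.Gamma (1 + w) ≠ 0 := by
      apply Complex.Gamma_ne_zero_of_re_pos
      rw [Complex.add_re, Complex.one_re]
      linarith
    have h1 := Fam3_inv (Real.pi * kF n j) (LG_pk_pos _ hκ) (1 + w)
    rw [hLeq', LamG_fac_eq, LamG_fac, ← hA]
    calc (((Real.pi * kF n j)⁻¹ : ℝ) : ℂ) ^ (1 + w) * Complex.Gamma (1 + w) *
          (((Real.pi * kF n j : ℝ) : ℂ) ^ (1 + w) * (Complex.Gamma (1 + w))⁻¹ *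
            LamG (aFam n j) (kF n j) w)
        = ((((Real.pi * kF n j)⁻¹ : ℝ) : ℂ) ^ (1 + w) * ((Real.pi * kF n j : ℝ) : ℂ) ^ (1 + w)) *
          (Complex.Gamma (1 + w) * (Complex.Gamma (1 + w))⁻¹) * LamG (aFam n j) (kF n j) w := by
          ring
      _ = LamG (aFam n j) (kF n j) w := by
          rw [h1, mul_inv_cancel₀ hG, one_mul, one_mul]
  refine ⟨((eF n j : ℝ) : ℂ), fun w hw => ?_⟩
  rw [key w hw, sub_eq_add_neg, key (-w) (by rwa [Complex.neg_re, abs_neg])]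
  exact (LamG_basic _ _ _ hT).2.1 w

/-- As `fam` (module Fam2), from `Lk_fe`. -/
theorem fam_fe (k : ℕ) (hk : Squarefree k) (c : ℤ) (hc : c = 1 ∨ c = -1) :
    ∃ L : ℂ → ℂ, Differentiable ℂ L ∧
      (∀ s : ℂ, 3 / 2 < s.re → Tendsto (fun N : ℕ =>
        ∏ p ∈ (Finset.range N).filter Nat.Prime, (locFactor (cgn c k) p s)⁻¹) atTop (𝓝 (L s))) ∧
      (∃ (K : ℝ) (n : ℕ), ∀ s : ℂ, 4 / 5 ≤ s.re → ‖L s‖ ≤ K * (2 + ‖s‖) ^ n) ∧
      ∃ ε : ℂ, ∀ w : ℂ, |w.re| < 1 →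
        ((Real.sqrt (condN c k) / (2 * Real.pi) : ℝ) : ℂ) ^ (1 - w) * Complex.Gamma (1 - w) *
            L (1 - w) =
          ε * (((Real.sqrt (condN c k) / (2 * Real.pi) : ℝ) : ℂ) ^ (1 + w) *
            Complex.Gamma (1 + w) * L (1 + w)) := by
  classical
  obtain ⟨L, hL, hprod, hgro, hfe⟩ := Lk_fe k hk c hc
  refine ⟨L, hL, fun s hs => ?_, hgro, hfe⟩
  have h1 := hprod s hs
  set S : Set ℕ := {p : ℕ | p.Prime ∧ ¬ p ∣ 2 * k} with hS
  set f : ℕ → ℂ := fun p => (1 - ((p : ℂ) + 1 - (W3283e1.npts (c * k ^ 2) 0 p : ℂ)) *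
    (p : ℂ) ^ (-s) + (p : ℂ) ^ (1 - 2 * s))⁻¹ with hf
  have h2 : HasProd (S.mulIndicator f) (L s) := by
    rw [← hasProd_subtype_iff_mulIndicator]
    exact h1
  refine h2.tendsto_prod_nat.congr fun N => ?_
  rw [Finset.prod_filter]
  refine Finset.prod_congr rfl fun p _ => ?_
  by_cases hp : p.Prime
  · rw [if_pos hp]
    by_cases hd : p ∣ 2 * k
    · rw [loc_bad c hc k p hp hd s, inv_one]
      exact Set.mulIndicator_of_notMem (fun h' => h'.2 hd) f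
    · rw [loc_good c hc k p hp hd s]
      exact Set.mulIndicator_of_mem (show p ∈ S from ⟨hp, hd⟩) f
  · rw [if_neg hp]
    exact Set.mulIndicator_of_notMem (fun h' => hp h'.1) f

end BSDC
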