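import Pool.Agent.W_92892c_h19.Scale

open MeasureTheory Set Filter Topology

namespace BSDC

open W3283g Complex

/-- The `L²` criterion `W3283g.l2_crit` with the line `Re s = ρ` instead of `Re s = 1`: for each
`σ ≤ min σ1 ρ` use `l2_sig'`; then `σ → 0` along `σ = min σ1 ρ/(n+1)` by Fatou's lemma
(`lintegral_liminf_le`), as in the second half of the proof of `W3283g.l2_crit` (module L2lem). -/
theorem l2_crit' (e : ℝ → ℝ) (he : Measurable e)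
    (hcont : ∀ᵐ u ∂(volume.restrict (Set.Ioi (0 : ℝ))), ContinuousAt e u) (ρ : ℝ) (hρ : 0 < ρ)
    (hint : IntegrableOn (fun v : ℝ => e v * Real.exp (-(ρ * v))) (Set.Ioi 0)) (E : ℂ → ℂ)
    (hE : DifferentiableOn ℂ E {s : ℂ | 0 < s.re})
    (hEe : ∀ t : ℝ, E ((ρ : ℂ) + t * I) =
      ∫ v in Set.Ioi (0 : ℝ), (e v : ℂ) * Complex.exp (-(((ρ : ℂ) + t * I) * v)))
    (hC : ∀ σ : ℝ, 0 < σ → ∃ C : ℝ, ∀ s : ℂ, σ ≤ s.re → s.re ≤ ρ → ‖E s‖ ≤ C * (1 + |s.im|))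
    (B σ1 : ℝ) (hσ1 : 0 < σ1)
    (hB : ∀ σ : ℝ, 0 < σ → σ ≤ σ1 → ∫⁻ t : ℝ, ‖E ((σ : ℂ) + t * I)‖ₑ ^ 2 ≤ ENNReal.ofReal B) :
    IntegrableOn (fun u : ℝ => (e u) ^ 2) (Set.Ioi 0) := by
  obtain ⟨τ, hτ, hτρ, hτσ⟩ : ∃ τ : ℝ, 0 < τ ∧ τ ≤ ρ ∧ τ ≤ σ1 :=
    ⟨min ρ σ1, lt_min hρ hσ1, min_le_left _ _, min_le_right _ _⟩
  have hn0 : ∀ n : ℕ, 0 < 1 / ((n : ℝ) + 1) := fun n => by positivity
  have hn1 : ∀ n : ℕ, 1 / ((n : ℝ) + 1) ≤ 1 := fun n => by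
    rw [div_le_one (by positivity)]
    have : (0 : ℝ) ≤ n := Nat.cast_nonneg n
    linarith
  have hnt : Tendsto (fun n : ℕ => 1 / ((n : ℝ) + 1)) atTop (𝓝 0) :=
    tendsto_one_div_add_atTop_nhds_zero_nat
  have hstep : ∀ σ : ℝ, 0 < σ → σ ≤ τ → ∫⁻ u in Set.Ioi (0 : ℝ),
      ENNReal.ofReal ((e u) ^ 2 * Real.exp (-(2 * σ * u))) ≤ ENNReal.ofReal B := by
    intro σ hσ hστ
    obtain ⟨C, hC'⟩ := hC σ hσ
    exact l2_sig' e he hcont ρ hρ hint E hE hEe σ hσ (hστ.trans hτρ) C hC' B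
      (hB σ hσ (hστ.trans hτσ))
  have hfin : ∫⁻ u in Set.Ioi (0 : ℝ), ENNReal.ofReal ((e u) ^ 2) ≤ ENNReal.ofReal B := by
    set g : ℕ → ℝ → ENNReal := fun n u =>
      ENNReal.ofReal ((e u) ^ 2 * Real.exp (-(2 * (τ * (1 / ((n : ℝ) + 1))) * u))) with hg
    have hlim : ∀ u : ℝ, Tendsto (fun n => g n u) atTop (𝓝 (ENNReal.ofReal ((e u) ^ 2))) := by
      intro u
      have h1 : Tendsto (fun n : ℕ => -(2 * (τ * (1 / ((n : ℝ) + 1))) * u)) atTop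
          (𝓝 (-(2 * (τ * 0) * u))) := (((hnt.const_mul τ).const_mul 2).mul_const u).neg
      have h2 : Tendsto (fun n : ℕ => (e u) ^ 2 *
          Real.exp (-(2 * (τ * (1 / ((n : ℝ) + 1))) * u))) atTop
          (𝓝 ((e u) ^ 2 * Real.exp (-(2 * (τ * 0) * u)))) :=
        ((Real.continuous_exp.tendsto _).comp h1).const_mul _
      have h3 : (e u) ^ 2 * Real.exp (-(2 * (τ * 0) * u)) = (e u) ^ 2 := by simp
      rw [h3] at h2
      exact (ENNReal.continuous_ofReal.tendsto _).comp h2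
    calc ∫⁻ u in Set.Ioi (0 : ℝ), ENNReal.ofReal ((e u) ^ 2)
        = ∫⁻ u in Set.Ioi (0 : ℝ), liminf (fun n => g n u) atTop :=
          lintegral_congr fun u => (hlim u).liminf_eq.symm
      _ ≤ liminf (fun n => ∫⁻ u in Set.Ioi (0 : ℝ), g n u) atTop := by
          refine lintegral_liminf_le fun n => ?_
          exact ENNReal.measurable_ofReal.comp ((he.pow_const 2).mul (by fun_prop))
      _ ≤ liminf (fun _ : ℕ => ENNReal.ofReal B) atTop := by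
          refine liminf_le_liminf (Eventually.of_forall fun n => ?_)
          refine hstep _ (mul_pos hτ (hn0 n)) ?_
          calc τ * (1 / ((n : ℝ) + 1)) ≤ τ * 1 := mul_le_mul_of_nonneg_left (hn1 n) hτ.le
            _ = τ := mul_one τ
      _ = ENNReal.ofReal B := liminf_const _
  refine ⟨(he.pow_const 2).aestronglyMeasurable, ?_⟩
  rw [hasFiniteIntegral_iff_ofReal (Eventually.of_forall fun u => sq_nonneg _)]
  exact lt_of_le_of_lt hfin ENNReal.ofReal_lt_top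

end BSDC
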