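import Mathlib

open MeasureTheory Set Filter Topology

namespace BSDC

/-- Cauchy-Schwarz against the constant function. -/
theorem Slow_cs1 (f : ℝ → ℝ) (U V : ℝ) (hUV : U ≤ V) (hf : IntegrableOn f (Ioc U V))
    (hf2 : IntegrableOn (fun v => f v ^ 2) (Ioc U V)) :
    (∫ v in Ioc U V, f v) ^ 2 ≤ (V - U) * ∫ v in Ioc U V, f v ^ 2 := by
  rcases eq_or_lt_of_le hUV with h | h
  · subst h
    simp
  · have hVU : 0 < V - U := by linarith
    set I := ∫ v in Ioc U V, f v with hI
    set m := I / (V - U) with hm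
    have h1 : 0 ≤ ∫ v in Ioc U V, (f v - m) ^ 2 :=
      integral_nonneg fun v => sq_nonneg _
    have h2 : ∫ v in Ioc U V, (f v - m) ^ 2 =
        (∫ v in Ioc U V, f v ^ 2) - 2 * m * I + m ^ 2 * (V - U) := by
      have e1 : ∀ v, (f v - m) ^ 2 = f v ^ 2 - 2 * m * f v + m ^ 2 := fun v => by ring
      rw [integral_congr_ae (Eventually.of_forall e1)]
      have i1 : IntegrableOn (fun v => 2 * m * f v) (Ioc U V) := hf.const_mul _
      have i2 : IntegrableOn (fun _ : ℝ => m ^ 2) (Ioc U V) := by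
        simp
      have i3 : IntegrableOn (fun v => f v ^ 2 - 2 * m * f v) (Ioc U V) := hf2.sub i1
      rw [integral_add i3 i2, integral_sub hf2 i1, integral_const_mul,
        setIntegral_const, Real.volume_real_Ioc_of_le hUV, smul_eq_mul]
      ring
    rw [h2] at h1
    have h3 : m * (V - U) = I := by
      rw [hm]
      field_simp
    have h4 : 0 ≤ (V - U) * (∫ v in Ioc U V, f v ^ 2) - 2 * (m * (V - U)) * I +
        (m * (V - U)) ^ 2 := by
      have := mul_nonneg hVU.le h1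
      nlinarith
    rw [h3] at h4
    nlinarith

/-- Cauchy-Schwarz: for `1 ≤ U ≤ V ≤ 2U`,
`|∫_U^V e|² ≤ ∫_U^V (v e v)² · ∫_U^V v⁻² ≤ 2 B U · (V - U)/U² = 2 B (V - U)/U`
(or `|e v| ≤ (δ (v e v)² + v⁻²/δ)/2` and the best `δ`). -/
theorem slow_cs (e : ℝ → ℝ) (hloc : ∀ U : ℝ, IntegrableOn e (Ioc 0 U))
    (hloc2 : ∀ U : ℝ, IntegrableOn (fun v : ℝ => (v * e v) ^ 2) (Ioc 0 U)) (B : ℝ) (hB : 0 ≤ B)
    (h : ∀ U : ℝ, 1 ≤ U → ∫ v in Ioc 0 U, (v * e v) ^ 2 ≤ B * U) (U V : ℝ) (hU : 1 ≤ U)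
    (hUV : U ≤ V) (hV : V ≤ 2 * U) :
    |(∫ v in Ioc 0 V, e v) - ∫ v in Ioc 0 U, e v| ≤ Real.sqrt (2 * B * (V - U) / U) := by
  have hU0 : 0 < U := by linarith
  have hsub : Ioc U V ⊆ Ioc 0 V := Ioc_subset_Ioc_left hU0.le
  have hei : IntegrableOn e (Ioc U V) := (hloc V).mono_set hsub
  have hdiff : (∫ v in Ioc 0 V, e v) - ∫ v in Ioc 0 U, e v = ∫ v in Ioc U V, e v := by
    rw [← Ioc_union_Ioc_eq_Ioc hU0.le hUV, setIntegral_union (Ioc_disjoint_Ioc_of_le le_rfl)
      measurableSet_Ioc (hloc U) hei]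
    ring
  have hfi : IntegrableOn (fun v => v * |e v|) (Ioc U V) := by
    have h1 : IntegrableOn (fun v => V * |e v|) (Ioc U V) := hei.abs.const_mul _
    refine Integrable.mono' h1 ?_ ?_
    · exact (measurable_id.aestronglyMeasurable).mul hei.abs.aestronglyMeasurable
    · refine (ae_restrict_iff' measurableSet_Ioc).2 (Eventually.of_forall fun v hv => ?_)
      have h0 : 0 ≤ v := hU0.le.trans hv.1.le
      rw [Real.norm_eq_abs, abs_mul, abs_abs, abs_of_nonneg h0]
      exact mul_le_mul_of_nonneg_right hv.2 (abs_nonneg _)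
  have hsq : ∀ v, (v * |e v|) ^ 2 = (v * e v) ^ 2 := fun v => by
    rw [mul_pow, mul_pow, sq_abs]
  have hfi2 : IntegrableOn (fun v => (v * |e v|) ^ 2) (Ioc U V) := by
    simp only [hsq]
    exact (hloc2 V).mono_set hsub
  have h1 : ∫ v in Ioc U V, (v * |e v|) ^ 2 ≤ 2 * B * U := by
    simp only [hsq]
    calc ∫ v in Ioc U V, (v * e v) ^ 2 ≤ ∫ v in Ioc 0 V, (v * e v) ^ 2 :=
          setIntegral_mono_set (hloc2 V) (Eventually.of_forall fun v => sq_nonneg _)
            (Eventually.of_forall hsub)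
      _ ≤ B * V := h V (hU.trans hUV)
      _ ≤ B * (2 * U) := mul_le_mul_of_nonneg_left hV hB
      _ = 2 * B * U := by ring
  have h2 := Slow_cs1 (fun v => v * |e v|) U V hUV hfi hfi2
  have h3 : |∫ v in Ioc U V, e v| ≤ (∫ v in Ioc U V, v * |e v|) / U := by
    rw [le_div_iff₀ hU0]
    calc |∫ v in Ioc U V, e v| * U ≤ (∫ v in Ioc U V, |e v|) * U :=
          mul_le_mul_of_nonneg_right (abs_integral_le_integral_abs) hU0.le
      _ = ∫ v in Ioc U V, |e v| * U := (integral_mul_const _ _).symm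
      _ ≤ ∫ v in Ioc U V, v * |e v| := by
          refine setIntegral_mono_on (hei.abs.mul_const _) hfi measurableSet_Ioc fun v hv => ?_
          rw [mul_comm]
          exact mul_le_mul_of_nonneg_right hv.1.le (abs_nonneg _)
  rw [hdiff]
  refine h3.trans (Real.le_sqrt_of_sq_le ?_)
  rw [div_pow, div_le_div_iff₀ (by positivity) hU0]
  have h4 : (∫ v in Ioc U V, v * |e v|) ^ 2 ≤ (V - U) * (2 * B * U) :=
    h2.trans (mul_le_mul_of_nonneg_left h1 (by linarith))
  calc (∫ v in Ioc U V, v * |e v|) ^ 2 * U ≤ (V - U) * (2 * B * U) * U :=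
        mul_le_mul_of_nonneg_right h4 hU0.le
    _ = 2 * B * (V - U) * U ^ 2 := by ring

/-- `g U = ∫_0^U e - E0` is square integrable and `|g V - g U| ≤ √(2B/U)` for `U ≤ V ≤ U + 1`
(`slow_cs`), so `|g U|² ≤ 2 |g V|² + 4 B/U`; integrate over `V ∈ [U, U+1]`:
`|g U|² ≤ 2 ∫_U^{U+1} g² + 4 B/U → 0` (the tail of a convergent integral tends to `0`). -/
theorem slow_lim (e : ℝ → ℝ) (hloc : ∀ U : ℝ, IntegrableOn e (Ioc 0 U))
    (hloc2 : ∀ U : ℝ, IntegrableOn (fun v : ℝ => (v * e v) ^ 2) (Ioc 0 U)) (B : ℝ) (hB : 0 ≤ B)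
    (h : ∀ U : ℝ, 1 ≤ U → ∫ v in Ioc 0 U, (v * e v) ^ 2 ≤ B * U) (E0 : ℝ)
    (hL2 : IntegrableOn (fun U : ℝ => ((∫ v in Ioc 0 U, e v) - E0) ^ 2) (Ioi 0)) :
    Tendsto (fun U : ℝ => ∫ v in Ioc 0 U, e v) atTop (𝓝 E0) := by
  set g : ℝ → ℝ := fun U => (∫ v in Ioc 0 U, e v) - E0 with hg
  have hpt : ∀ U : ℝ, 1 ≤ U → g U ^ 2 ≤ 2 * (∫ V in U..(U + 1), g V ^ 2) + 4 * B / U := by
    intro U hU
    have hU0 : 0 < U := by linarith
    have h1 : ∀ V ∈ Ioc U (U + 1), g U ^ 2 ≤ 2 * g V ^ 2 + 4 * B / U := by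
      intro V hV
      have h2 := slow_cs e hloc hloc2 B hB h U V hU hV.1.le (by linarith [hV.2])
      have h3 : (g V - g U) ^ 2 ≤ 2 * B / U := by
        have e1 : g V - g U = (∫ v in Ioc 0 V, e v) - ∫ v in Ioc 0 U, e v := by
          simp only [hg]
          ring
        rw [e1, ← sq_abs]
        calc |(∫ v in Ioc 0 V, e v) - ∫ v in Ioc 0 U, e v| ^ 2
            ≤ Real.sqrt (2 * B * (V - U) / U) ^ 2 := pow_le_pow_left₀ (abs_nonneg _) h2 2
          _ = 2 * B * (V - U) / U := Real.sq_sqrt (by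
              have : 0 ≤ V - U := by linarith [hV.1]
              positivity)
          _ ≤ 2 * B / U := by
              refine div_le_div_of_nonneg_right ?_ hU0.le
              have : V - U ≤ 1 := by linarith [hV.2]
              nlinarith
      have h4 : 4 * B / U = 2 * (2 * B / U) := by ring
      rw [h4]
      nlinarith [sq_nonneg (g V + (g V - g U)), sq_nonneg (2 * g V - g U)]
    have hi : IntegrableOn (fun V => g V ^ 2) (Ioc U (U + 1)) :=
      hL2.mono_set fun V hV => hU0.trans hV.1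
    have h5 : ∫ _ in Ioc U (U + 1), g U ^ 2 ≤ ∫ V in Ioc U (U + 1), (2 * g V ^ 2 + 4 * B / U) := by
      refine setIntegral_mono_on (by simp) ?_ measurableSet_Ioc h1
      exact (hi.const_mul _).add (by simp)
    rw [integral_add (hi.const_mul _) (by simp), integral_const_mul, setIntegral_const,
      setIntegral_const, Real.volume_real_Ioc_of_le (by linarith), smul_eq_mul, smul_eq_mul] at h5
    rw [intervalIntegral.integral_of_le (by linarith)]
    have e2 : U + 1 - U = 1 := by ring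
    rw [e2, one_mul, one_mul] at h5
    exact h5
  have ht : Tendsto (fun U : ℝ => 2 * (∫ V in U..(U + 1), g V ^ 2) + 4 * B / U) atTop (𝓝 0) := by
    have t1 := intervalIntegral_tendsto_integral_Ioi 0 hL2 (tendsto_id (x := atTop))
    have t2 := intervalIntegral_tendsto_integral_Ioi 0 hL2
      (tendsto_atTop_add_const_right atTop (1 : ℝ) tendsto_id)
    have t3 := t2.sub t1
    rw [sub_self] at t3
    have t4 : Tendsto (fun U : ℝ => ∫ V in U..(U + 1), g V ^ 2) atTop (𝓝 0) := by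
      refine t3.congr' ?_
      filter_upwards [eventually_ge_atTop 1] with U hU
      have j1 : IntervalIntegrable (fun V => g V ^ 2) volume 0 (U + 1) :=
        (intervalIntegrable_iff_integrableOn_Ioc_of_le (by linarith)).2
          (hL2.mono_set fun V hV => hV.1)
      have j2 : IntervalIntegrable (fun V => g V ^ 2) volume 0 U :=
        (intervalIntegrable_iff_integrableOn_Ioc_of_le (by linarith)).2
          (hL2.mono_set fun V hV => hV.1)
      exact intervalIntegral.integral_interval_sub_left j1 j2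
    have t5 : Tendsto (fun U : ℝ => 4 * B / U) atTop (𝓝 0) := tendsto_const_nhds.div_atTop tendsto_id
    simpa using (t4.const_mul 2).add t5
  have hsq : Tendsto (fun U : ℝ => g U ^ 2) atTop (𝓝 0) := by
    refine tendsto_of_tendsto_of_tendsto_of_le_of_le' tendsto_const_nhds ht
      (Eventually.of_forall fun U => sq_nonneg _) ?_
    filter_upwards [eventually_ge_atTop 1] with U hU
    exact hpt U hU
  have habs : Tendsto (fun U : ℝ => |g U|) atTop (𝓝 0) := by
    have h1 := (Real.continuous_sqrt.tendsto 0).comp hsq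
    rw [Real.sqrt_zero] at h1
    refine h1.congr fun U => ?_
    exact Real.sqrt_sq_eq_abs _
  have h0 : Tendsto g atTop (𝓝 0) := (tendsto_zero_iff_abs_tendsto_zero g).2 habs
  have h1 := h0.add_const E0
  rw [zero_add] at h1
  refine h1.congr fun U => ?_
  simp [hg]

end BSDC
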