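import Pool.Agent.W_92892c_h19.Val
import Pool.Agent.W_92892c_h19.L2C
import Pool.Agent.W_92892c_h19.Slow
import Pool.Agent.W_3283e1_h53.Ces

open MeasureTheory Set Filter Topology

namespace BSDC

open BSDS W3283g Complex

variable {ι : Type} {c u : ι → ℝ} {a : ℝ} {L : ℂ → ℂ}

theorem Conv_contF (e : ℝ → ℝ) (hloc : ∀ U : ℝ, IntegrableOn e (Ioc 0 U)) (U : ℝ) (hU : 0 < U) :
    ContinuousAt (fun U : ℝ => ∫ v in Ioc 0 U, e v) U := by
  have h1 : IntegrableOn e (Icc 0 (U + 1)) :=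
    (integrableOn_Icc_iff_integrableOn_Ioc (by simp)).2 (hloc (U + 1))
  exact (intervalIntegral.continuousOn_primitive h1).continuousAt
    (Icc_mem_nhds hU (lt_add_one U))

theorem Conv_bound (e : ℝ → ℝ) (b : ℝ) (hb : 0 ≤ b)
    (hint : IntegrableOn (fun v : ℝ => e v * Real.exp (-(b * v))) (Ioi 0)) (U : ℝ) :
    |∫ v in Ioc 0 U, e v| ≤
      (∫ v in Ioi (0 : ℝ), |e v * Real.exp (-(b * v))|) * Real.exp (b * U) := by
  have h1 : IntegrableOn (fun v : ℝ => |e v * Real.exp (-(b * v))|) (Ioi 0) := hint.abs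
  have h2 : IntegrableOn (fun v : ℝ => |e v * Real.exp (-(b * v))| * Real.exp (b * U))
      (Ioc 0 U) := (h1.mono_set Ioc_subset_Ioi_self).mul_const _
  calc |∫ v in Ioc 0 U, e v| ≤ ∫ v in Ioc 0 U, |e v * Real.exp (-(b * v))| * Real.exp (b * U) := by
        rw [← Real.norm_eq_abs]
        refine norm_integral_le_of_norm_le h2 ?_
        refine (ae_restrict_iff' measurableSet_Ioc).2 (Eventually.of_forall fun v hv => ?_)
        rw [Real.norm_eq_abs, abs_mul, Real.abs_exp, mul_assoc, ← Real.exp_add]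
        have h3 : 1 ≤ Real.exp (-(b * v) + b * U) := by
          apply Real.one_le_exp
          nlinarith [hv.2]
        calc |e v| = |e v| * 1 := (mul_one _).symm
          _ ≤ _ := mul_le_mul_of_nonneg_left h3 (abs_nonneg _)
    _ = (∫ v in Ioc 0 U, |e v * Real.exp (-(b * v))|) * Real.exp (b * U) :=
        integral_mul_const _ _
    _ ≤ _ := by
        refine mul_le_mul_of_nonneg_right ?_ (Real.exp_pos _).le
        exact setIntegral_mono_set h1 (Eventually.of_forall fun v => abs_nonneg _)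
          (LE.le.eventuallyLE Ioc_subset_Ioi_self)

theorem Conv_exp (b : ℝ) (hb : 0 < b) :
    IntegrableOn (fun v : ℝ => Real.exp (-(b * v))) (Ioi 0) := by
  have := integrableOn_exp_mul_Ioi (a := -b) (by linarith) 0
  refine this.congr_fun (fun v _ => ?_) measurableSet_Ioi
  show Real.exp (-b * v) = _
  rw [neg_mul]

theorem Conv_Fint (e : ℝ → ℝ) (he : Measurable e) (b : ℝ) (hb : 0 < b)
    (hint : IntegrableOn (fun v : ℝ => e v * Real.exp (-(b * v))) (Ioi 0)) (σ : ℝ)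
    (hσ : b < σ) :
    IntegrableOn (fun U : ℝ => (∫ v in Ioc 0 U, e v) * Real.exp (-(σ * U))) (Ioi 0) := by
  refine Integrable.mono' ((Conv_exp (σ - b) (by linarith)).const_mul
    (∫ v in Ioi (0 : ℝ), |e v * Real.exp (-(b * v))|)) ?_ ?_
  · have h1 : Continuous (fun v : ℝ => Real.exp (-(σ * v))) := by fun_prop
    exact ((Ces_Fmeas e he).mul h1.measurable).aestronglyMeasurable
  · refine (ae_restrict_iff' measurableSet_Ioi).2 (Eventually.of_forall fun U hU => ?_)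
    have h2 := Conv_bound e b hb.le hint U
    rw [norm_mul, Real.norm_eq_abs, Real.norm_eq_abs, Real.abs_exp]
    have h3 : Real.exp (-((σ - b) * U)) = Real.exp (b * U) * Real.exp (-(σ * U)) := by
      rw [← Real.exp_add]
      congr 1
      ring
    rw [h3, ← mul_assoc]
    exact mul_le_mul_of_nonneg_right h2 (Real.exp_pos _).le

theorem Conv_complex (F : ℝ → ℝ) (hF : Measurable F) (s : ℂ)
    (h : IntegrableOn (fun U : ℝ => F U * Real.exp (-(s.re * U))) (Ioi 0)) :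
    IntegrableOn (fun U : ℝ => (F U : ℂ) * Complex.exp (-(s * U))) (Ioi 0) := by
  refine Integrable.mono' h.norm ?_ ?_
  · have h2 : Measurable fun v : ℝ => (F v : ℂ) := Complex.measurable_ofReal.comp hF
    have h3 : Measurable fun v : ℝ => Complex.exp (-(s * v)) := by
      have : Continuous fun v : ℝ => Complex.exp (-(s * v)) := by fun_prop
      exact this.measurable
    exact (h2.mul h3).aestronglyMeasurable
  · refine Eventually.of_forall fun v => le_of_eq ?_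
    rw [norm_mul, Ee_norm_exp, Complex.norm_real, norm_mul, Real.norm_eq_abs (Real.exp _),
      Real.abs_exp]

/-- The function `g U = ∫_0^U ee - E0` (on `U > 0`; put `g U = 0`... no change is needed, the lemmas
only use `Ioi 0`): it is measurable (`Ces_Fmeas`) and continuous at every `U > 0`
(`ee_loc`; continuity of the primitive), `|g v| ≤ ∫_0^v |ee| + |E0| = O(e^{(a + 1/2) v})`, so it is
integrable against `e^{-(a+1)v}`, and for `Re s > a + 1/2`,
`∫ g e^{-sv} dv = s⁻¹ ∫ ee e^{-sv} dv - E0/s` (`Ces_fub` with `ee_int`). -/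
theorem prim_facts (H : Hyp c u a L) (κ : ℝ) (r : ℕ) (E0 : ℝ) :
    Measurable (fun U : ℝ => (∫ v in Ioc 0 U, ee c u κ r v) - E0) ∧
    (∀ᵐ U ∂(volume.restrict (Set.Ioi (0 : ℝ))),
      ContinuousAt (fun U : ℝ => (∫ v in Ioc 0 U, ee c u κ r v) - E0) U) ∧
    IntegrableOn (fun U : ℝ => ((∫ v in Ioc 0 U, ee c u κ r v) - E0) *
      Real.exp (-((a + 1) * U))) (Set.Ioi 0) ∧
    ∀ s : ℂ, s.re = a + 1 →
      ∫ U in Set.Ioi (0 : ℝ), (((∫ v in Ioc 0 U, ee c u κ r v) - E0 : ℝ) : ℂ) *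
        Complex.exp (-(s * U)) =
      ((∫ v in Set.Ioi (0 : ℝ), (ee c u κ r v : ℂ) * Complex.exp (-(s * v))) - E0) / s := by
  have ha := H.apos
  have hem := ee_meas H κ r
  have hloc := ee_loc H κ r
  have hFm := Ces_Fmeas (ee c u κ r) hem
  have hFi := Conv_Fint (ee c u κ r) hem (a + 1 / 2) (by linarith)
    (ee_int H κ r (a + 1 / 2) (by linarith)) (a + 1) (by linarith)
  refine ⟨hFm.sub_const E0, ?_, ?_, ?_⟩
  · refine (ae_restrict_iff' measurableSet_Ioi).2 (Eventually.of_forall fun U hU => ?_)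
    exact (Conv_contF _ hloc U hU).sub continuousAt_const
  · have h1 := hFi.sub ((Conv_exp (a + 1) (by linarith)).const_mul E0)
    refine h1.congr (Eventually.of_forall fun U => ?_)
    show (∫ v in Ioc 0 U, ee c u κ r v) * Real.exp (-((a + 1) * U)) -
      E0 * Real.exp (-((a + 1) * U)) = _
    ring
  · intro s hs
    have hs0 : 0 < s.re := by linarith
    have hsne : s ≠ 0 := by
      rintro rfl
      simp at hs0
    have h1 : IntegrableOn (fun U : ℝ => ((∫ v in Ioc 0 U, ee c u κ r v : ℝ) : ℂ) *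
        Complex.exp (-(s * U))) (Ioi 0) := by
      refine Conv_complex _ hFm s ?_
      rw [hs]
      exact hFi
    have h2 := (Er_exp s hs0)
    have h3 := Ces_fub (ee c u κ r) hem s hs0 (ee_int H κ r s.re (by linarith))
    have h4 : (fun U : ℝ => (((∫ v in Ioc 0 U, ee c u κ r v) - E0 : ℝ) : ℂ) *
        Complex.exp (-(s * U))) = fun U : ℝ => ((∫ v in Ioc 0 U, ee c u κ r v : ℝ) : ℂ) *
        Complex.exp (-(s * U)) - (E0 : ℂ) * Complex.exp (-(s * U)) := by
      funext U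
      push_cast
      ring
    rw [h4, integral_sub h1 (h2.1.const_mul _), integral_const_mul, h2.2, ← h3]
    field_simp

/-- Convergence of the integral, with its value.  `Gt` from `Gt_ex`, bounds `Gt_bds` with
`ρ = a + 1`, `near0'`, `Hs_near`, `Hs_L2`, `Hs_pt`, `Hs_diff`; `l2_crit'` for
`g = ∫_0^U ee + l1/lam` with `E = Hs` (`prim_facts`, `ee_transform`, `hD`) gives `g ∈ L²`; `msq` and
`slow_lim` (`ee_loc`, `ee_loc2`) give the limit. -/
theorem conv_main (H : Hyp c u a L) (hgr : Gro L) (hz : ∀ s : ℂ, 0 < s.re → L s ≠ 0) (r : ℕ)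
    (lam : ℝ) (hlam : 0 < lam)
    (hlim : Tendsto (fun s : ℂ => L s / s ^ r) (𝓝[≠] 0) (𝓝 (lam : ℂ))) (l1 : ℝ)
    (hl1 : Tendsto (fun s : ℂ => (L s / s ^ r - lam) / s) (𝓝[≠] 0) (𝓝 (l1 : ℂ))) :
    Tendsto (fun U : ℝ => ∫ v in Ioc 0 U, ee c u (kap lam r) r v) atTop (𝓝 (-l1 / lam)) := by
  have ha := H.apos
  have hρ : 0 < a + 1 := by linarith
  obtain ⟨Gt, hGt, hD, he⟩ := Gt_ex H hz
  obtain ⟨C, hC, h2, -, h1, -⟩ := Gt_bds H hgr hz Gt hGt hD he (a + 1)
  obtain ⟨δ, Λ, hδ, hΛ, hΛ0, hΛe⟩ := near0' H Gt hGt hD he r lam hlam hlim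
  obtain ⟨B, hB⟩ := Hs_near r lam hlam l1 hl1 Gt he δ hδ Λ hΛ hΛ0 hΛe
  obtain ⟨M, hM0, hM⟩ := msq H hgr hz r lam hlam hlim
  obtain ⟨κ, hκ⟩ : ∃ κ : ℝ, κ = kap lam r := ⟨_, rfl⟩
  obtain ⟨E0, hE0⟩ : ∃ E0 : ℝ, E0 = -l1 / lam := ⟨_, rfl⟩
  rw [← hκ, ← hE0] at hB
  rw [← hκ] at hM
  rw [← hκ, ← hE0]
  obtain ⟨σ1, B', hσ1, hB'⟩ := Hs_L2 Gt κ r (E0 : ℂ) hGt C hC h2 (δ / 2) B (by linarith) hB
  obtain ⟨hp1, hp2, hp3, hp4⟩ := prim_facts H κ r E0
  have htr : ∀ s : ℂ, a < s.re → Et Gt κ r s =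
      ∫ v in Set.Ioi (0 : ℝ), (ee c u κ r v : ℂ) * Complex.exp (-(s * v)) := by
    intro s hs
    have hs0 : s ≠ 0 := by
      rintro rfl
      rw [Complex.zero_re] at hs
      linarith
    have h5 := ee_transform H κ r s hs
    unfold Et
    rw [hD s hs, ← h5, mul_div_cancel_left₀ _ hs0]
  have hL2 : IntegrableOn (fun U : ℝ => ((∫ v in Ioc 0 U, ee c u κ r v) - E0) ^ 2) (Ioi 0) := by
    refine l2_crit' (fun U : ℝ => (∫ v in Ioc 0 U, ee c u κ r v) - E0) hp1 hp2 (a + 1) hρ hp3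
      (Hs Gt κ r (E0 : ℂ)) (Hs_diff Gt κ r (E0 : ℂ) hGt) ?_ ?_ B' σ1 hσ1 hB'
    · intro t
      have hre : (((a + 1 : ℝ) : ℂ) + t * I).re = a + 1 := by simp
      rw [hp4 _ hre]
      unfold Hs
      rw [htr _ (by rw [hre]; linarith)]
    · intro σ hσ
      exact Hs_pt Gt κ r (E0 : ℂ) C hC (a + 1) hρ h1 σ hσ
  exact slow_lim (ee c u κ r) (ee_loc H κ r) (ee_loc2 H κ r) M hM0 (fun U hU => (hM U hU).2) E0 hL2

end BSDC
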