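import Pool.Agent.W_92892c_h19.Defs
import Pool.Agent.W_92892c.NearZero

open MeasureTheory Set Filter Topology

namespace BSDC

open BSDS Complex

/-- The functional equation determines the second coefficient.  `L` is entire,
`M w = A^(1+w) Γ(1+w) L(1+w)` satisfies `M (-w) = ε M w` for `|Re w| < 1`.  Near `0`,
`L (1+w) = w^r g w` with `g` analytic, `g 0 = lam`, `g' 0 = l1` (`NearZero_factor` for
`w ↦ L (1+w)`; limits), so `M w = w^r m w`, `m w = A^(1+w) Γ(1+w) g w` analytic, `m 0 = A lam ≠ 0`,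
and `(-1)^r m (-w) = ε m w` near `0` (divide by `w^r`); at `w = 0` this gives `ε = (-1)^r`, so `m` is
even and `0 = m' 0 = A (log A · lam + Γ'(1) lam + l1)`, with `Γ'(1) = -γ`
(`Complex.hasDerivAt_Gamma_one`): `l1 = lam (γ - log A)`. -/
theorem fe_coeff (L : ℂ → ℂ) (hL : Differentiable ℂ L) (A : ℝ) (hA : 0 < A) (ε : ℂ)
    (hFE : ∀ w : ℂ, |w.re| < 1 →
      (A : ℂ) ^ (1 - w) * Complex.Gamma (1 - w) * L (1 - w) =
        ε * ((A : ℂ) ^ (1 + w) * Complex.Gamma (1 + w) * L (1 + w)))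
    (r : ℕ) (lam : ℝ) (hlam : 0 < lam)
    (hlim : Tendsto (fun s : ℂ => L (1 + s) / s ^ r) (𝓝[≠] 0) (𝓝 (lam : ℂ))) (l1 : ℝ)
    (hl1 : Tendsto (fun s : ℂ => (L (1 + s) / s ^ r - lam) / s) (𝓝[≠] 0) (𝓝 (l1 : ℂ))) :
    -l1 / lam = Real.log A - Real.eulerMascheroniConstant := by
  classical
  have hlamC : (lam : ℂ) ≠ 0 := by exact_mod_cast hlam.ne'
  have hAC : (A : ℂ) ≠ 0 := by exact_mod_cast hA.ne'
  have hfd : Differentiable ℂ fun w : ℂ => L (1 + w) :=
    hL.comp ((differentiable_const (1 : ℂ)).add differentiable_id)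
  let g : ℂ → ℂ := Function.update (fun s : ℂ => L (1 + s) / s ^ r) 0 (lam : ℂ)
  have hg0 : g 0 = lam := Function.update_self _ _ _
  have hgne : ∀ z : ℂ, z ≠ 0 → g z = L (1 + z) / z ^ r := fun z hz =>
    Function.update_of_ne hz _ _
  have hgf : ∀ z : ℂ, z ≠ 0 → L (1 + z) = z ^ r * g z := by
    intro z hz
    rw [hgne z hz, mul_div_cancel₀ _ (pow_ne_zero r hz)]
  have hgder : HasDerivAt g (l1 : ℂ) 0 := by
    rw [hasDerivAt_iff_tendsto_slope]
    refine hl1.congr' ?_
    filter_upwards [self_mem_nhdsWithin] with z hz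
    have hz' : z ≠ 0 := hz
    rw [slope_def_field, hg0, hgne z hz', sub_zero]
  have hgc : ContinuousAt g 0 := hgder.continuousAt
  -- the completed function divided by `w ^ r`
  let m : ℂ → ℂ := fun w => (A : ℂ) ^ (1 + w) * Complex.Gamma (1 + w) * g w
  have hd1 : HasDerivAt (fun w : ℂ => (A : ℂ) ^ (1 + w)) (A * Complex.log A) 0 := by
    have h1 : HasDerivAt (fun w : ℂ => 1 + w) 1 0 := (hasDerivAt_id (0 : ℂ)).const_add 1
    have h2 := h1.const_cpow (c := (A : ℂ)) (Or.inl hAC)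
    rw [add_zero, Complex.cpow_one, mul_one] at h2
    exact h2
  have hd2 : HasDerivAt (fun w : ℂ => Complex.Gamma (1 + w))
      (-(Real.eulerMascheroniConstant : ℂ)) 0 := by
    apply HasDerivAt.comp_const_add
    rw [add_zero]
    exact Complex.hasDerivAt_Gamma_one
  have hd3 : HasDerivAt m (((A * Complex.log A) * 1 + A * -(Real.eulerMascheroniConstant : ℂ)) * lam
      + A * 1 * l1) 0 := by
    have h1 := (hd1.mul hd2).mul hgder
    simp only [add_zero, Complex.cpow_one, Complex.Gamma_one, hg0, Pi.mul_apply] at h1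
    exact h1
  have hm0 : m 0 = A * lam := by
    change (A : ℂ) ^ (1 + (0 : ℂ)) * Complex.Gamma (1 + 0) * g 0 = A * lam
    rw [add_zero, Complex.cpow_one, Complex.Gamma_one, hg0, mul_one]
  have hm0' : m 0 ≠ 0 := by
    rw [hm0]
    exact mul_ne_zero hAC hlamC
  have hmc : ContinuousAt m 0 := hd3.continuousAt
  have hrel : ∀ᶠ w in 𝓝[≠] (0 : ℂ), (-1) ^ r * m (-w) = ε * m w := by
    have h1 : ∀ᶠ w in 𝓝[≠] (0 : ℂ), |w.re| < 1 := by
      have h2 : IsOpen {w : ℂ | |w.re| < 1} := isOpen_lt (by fun_prop) (by fun_prop)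
      exact mem_nhdsWithin_of_mem_nhds (h2.mem_nhds (by simp))
    filter_upwards [h1, self_mem_nhdsWithin] with w hw hw0
    have hw0' : w ≠ 0 := hw0
    have h2 := hFE w hw
    have h3 : L (1 - w) = (-w) ^ r * g (-w) := by
      rw [sub_eq_add_neg]
      exact hgf (-w) (neg_ne_zero.2 hw0')
    rw [h3, hgf w hw0', neg_pow] at h2
    change (-1) ^ r * ((A : ℂ) ^ (1 + -w) * Complex.Gamma (1 + -w) * g (-w)) =
      ε * ((A : ℂ) ^ (1 + w) * Complex.Gamma (1 + w) * g w)
    rw [← sub_eq_add_neg]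
    apply mul_left_cancel₀ (pow_ne_zero r hw0')
    linear_combination h2
  have hneg : Tendsto (fun w : ℂ => -w) (𝓝[≠] 0) (𝓝 0) := by
    have h1 : Tendsto (fun w : ℂ => -w) (𝓝 0) (𝓝 (-0)) := continuous_neg.tendsto 0
    rw [neg_zero] at h1
    exact h1.mono_left nhdsWithin_le_nhds
  have hε : ε = (-1) ^ r := by
    have h1 : Tendsto (fun w => (-1) ^ r * m (-w)) (𝓝[≠] 0) (𝓝 ((-1) ^ r * m 0)) :=
      (hmc.tendsto.comp hneg).const_mul _
    have h2 : Tendsto (fun w => ε * m w) (𝓝[≠] 0) (𝓝 (ε * m 0)) :=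
      (hmc.tendsto.mono_left nhdsWithin_le_nhds).const_mul _
    have h3 := tendsto_nhds_unique (h1.congr' hrel) h2
    exact (mul_right_cancel₀ hm0' h3).symm
  have hsgn : ((-1 : ℂ)) ^ r ≠ 0 := pow_ne_zero _ (by norm_num)
  have heven : ∀ᶠ w in 𝓝 (0 : ℂ), m (-w) = m w := by
    have h1 : ∀ᶠ w in 𝓝[≠] (0 : ℂ), m (-w) = m w := by
      filter_upwards [hrel] with w hw
      rw [hε] at hw
      exact mul_left_cancel₀ hsgn hw
    rw [eventually_nhdsWithin_iff] at h1
    filter_upwards [h1] with w hw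
    by_cases h0 : w = 0
    · rw [h0, neg_zero]
    · exact hw h0
  have hzero : ((A * Complex.log A) * 1 + A * -(Real.eulerMascheroniConstant : ℂ)) * lam
      + A * 1 * l1 = 0 := by
    have h1 : HasDerivAt (fun w => m (-w))
        (-(((A * Complex.log A) * 1 + A * -(Real.eulerMascheroniConstant : ℂ)) * lam
      + A * 1 * l1)) 0 := by
      have h2 : HasDerivAt m (((A * Complex.log A) * 1 +
          A * -(Real.eulerMascheroniConstant : ℂ)) * lam + A * 1 * l1) (-0) := by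
        rw [neg_zero]
        exact hd3
      have h3 := h2.comp (0 : ℂ) (hasDerivAt_neg (0 : ℂ))
      rw [mul_neg_one] at h3
      exact h3
    have h4 := h1.unique (hd3.congr_of_eventuallyEq heven)
    linear_combination (-1 / 2 : ℂ) * h4
  have hlog : Complex.log A = (Real.log A : ℂ) := (Complex.ofReal_log hA.le).symm
  rw [hlog] at hzero
  have hzero' : A * (Real.log A * lam - Real.eulerMascheroniConstant * lam + l1) = 0 := by
    have h1 : ((A * (Real.log A * lam - Real.eulerMascheroniConstant * lam + l1) : ℝ) : ℂ) = 0 := by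
      push_cast
      linear_combination hzero
    exact_mod_cast h1
  have h5 := (mul_eq_zero.1 hzero').resolve_left hA.ne'
  rw [div_eq_iff hlam.ne']
  linarith

end BSDC
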