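import Pool.Agent.W_92892c_h19.MainB
import Pool.Agent.W_92892c_h19.Conv
import Pool.Agent.W_92892c_h19.FE

open MeasureTheory Set Filter Topology

namespace BSDC

open BSDS W3283g

/-- `∫_1^X bsdErr dx/x = ∫_0^{log X} ee dv` for `X ≥ 1` (`bsdErr_eq` on `(1, X]`, `cv_log2` with
`a = 0`; `intervalIntegral.integral_of_le`, `setIntegral_congr_fun`). -/
theorem int_one (W : WeierstrassCurve ℤ) (r : ℕ) (lam : ℝ) (hlam : 0 < lam) (X : ℝ) (hX : 1 ≤ X) :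
    ∫ x in (1 : ℝ)..X, bsdErr W r lam x / x =
      ∫ v in Ioc 0 (Real.log X), ee (cW W) uW (kap lam r) r v := by
  have hX0 : 0 < X := by linarith
  rw [intervalIntegral.integral_of_le hX]
  have h3 := cv_log2 (ee (cW W) uW (kap lam r) r) 0 (Real.log X)
  rw [Real.exp_zero, Real.exp_log hX0] at h3
  rw [← h3]
  refine setIntegral_congr_fun measurableSet_Ioc fun x hx => ?_
  simp only [bsdErr_eq W r lam hlam x hx.1]

/-- The limit statement in the variables `X` and `U = log X` (`int_one`, `Real.tendsto_log_atTop`,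
`Real.tendsto_exp_atTop`). -/
theorem lim_one (W : WeierstrassCurve ℤ) (r : ℕ) (lam : ℝ) (hlam : 0 < lam) (ℓ : ℝ) :
    Tendsto (fun X : ℝ => ∫ x in (1 : ℝ)..X, bsdErr W r lam x / x) atTop (𝓝 ℓ) ↔
      Tendsto (fun U : ℝ => ∫ v in Ioc 0 U, ee (cW W) uW (kap lam r) r v) atTop (𝓝 ℓ) := by
  constructor
  · intro h
    refine (h.comp Real.tendsto_exp_atTop).congr' ?_
    filter_upwards [eventually_ge_atTop (0 : ℝ)] with U hU
    show ∫ x in (1 : ℝ)..(Real.exp U), bsdErr W r lam x / x = _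
    rw [int_one W r lam hlam _ (Real.one_le_exp hU), Real.log_exp]
  · intro h
    refine (h.comp Real.tendsto_log_atTop).congr' ?_
    filter_upwards [eventually_ge_atTop (1 : ℝ)] with X hX
    show ∫ v in Ioc 0 (Real.log X), ee (cW W) uW (kap lam r) r v = _
    rw [int_one W r lam hlam X hX]

theorem main_conv (W : WeierstrassCurve ℤ) (L : ℂ → ℂ) (hL : Differentiable ℂ L)
    (hprod : ∀ s : ℂ, 3 / 2 < s.re → Tendsto (fun N : ℕ =>
      ∏ p ∈ (Finset.range N).filter Nat.Prime, (locFactor W p s)⁻¹) atTop (𝓝 (L s)))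
    (hgr : ∃ (K : ℝ) (n : ℕ), ∀ s : ℂ, 4 / 5 ≤ s.re → ‖L s‖ ≤ K * (2 + ‖s‖) ^ n)
    (r : ℕ) (lam : ℝ) (hlam : 0 < lam) :
    (((∀ s : ℂ, 1 < s.re → L s ≠ 0) ∧
      Tendsto (fun s : ℂ => L s / (s - 1) ^ r) (𝓝[≠] 1) (𝓝 (lam : ℂ))) ↔
      ∃ ℓ : ℝ, Tendsto (fun X : ℝ => ∫ x in (1 : ℝ)..X, bsdErr W r lam x / x) atTop (𝓝 ℓ)) ∧
    ∀ (A : ℝ) (ε : ℂ), 0 < A → (∀ w : ℂ, |w.re| < 1 →
      (A : ℂ) ^ (1 - w) * Complex.Gamma (1 - w) * L (1 - w) =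
        ε * ((A : ℂ) ^ (1 + w) * Complex.Gamma (1 + w) * L (1 + w))) →
      (((∀ s : ℂ, 1 < s.re → L s ≠ 0) ∧
        Tendsto (fun s : ℂ => L s / (s - 1) ^ r) (𝓝[≠] 1) (𝓝 (lam : ℂ))) ↔
        Tendsto (fun X : ℝ => ∫ x in (1 : ℝ)..X, bsdErr W r lam x / x) atTop
          (𝓝 (Real.log A - Real.eulerMascheroniConstant))) := by
  have H := hyp_W W L hL hprod
  have hG := gro_shift L hgr
  have hloc := ee_loc H (kap lam r) r
  have hzs : (∀ s : ℂ, 1 < s.re → L s ≠ 0) ↔ ∀ s : ℂ, 0 < s.re → L (1 + s) ≠ 0 := by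
    constructor
    · intro h s hs
      exact h (1 + s) (by rw [Complex.add_re, Complex.one_re]; linarith)
    · intro h s hs
      have := h (s - 1) (by rw [Complex.sub_re, Complex.one_re]; linarith)
      simpa using this
  have e1 : ((∀ s : ℂ, 1 < s.re → L s ≠ 0) ∧
      Tendsto (fun s : ℂ => L s / (s - 1) ^ r) (𝓝[≠] 1) (𝓝 (lam : ℂ))) → ∃ l1 : ℝ,
      Tendsto (fun s : ℂ => (L (1 + s) / s ^ r - lam) / s) (𝓝[≠] 0) (𝓝 (l1 : ℂ)) ∧
      Tendsto (fun X : ℝ => ∫ x in (1 : ℝ)..X, bsdErr W r lam x / x) atTop (𝓝 (-l1 / lam)) := by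
    rintro ⟨h1, h2⟩
    have h3 := (tendsto_shift L r _).1 h2
    obtain ⟨l1, hl1⟩ := second_coeff H r lam hlam h3
    refine ⟨l1, hl1, ?_⟩
    rw [lim_one W r lam hlam]
    exact conv_main H hG (hzs.1 h1) r lam hlam h3 l1 hl1
  have e2 : (∃ ℓ : ℝ, Tendsto (fun X : ℝ => ∫ x in (1 : ℝ)..X, bsdErr W r lam x / x)
      atTop (𝓝 ℓ)) → ((∀ s : ℂ, 1 < s.re → L s ≠ 0) ∧
      Tendsto (fun s : ℂ => L s / (s - 1) ^ r) (𝓝[≠] 1) (𝓝 (lam : ℂ))) := by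
    rintro ⟨ℓ, hℓ⟩
    rw [lim_one W r lam hlam] at hℓ
    have h4 : Tendsto (fun U : ℝ => U⁻¹ * ∫ v in Ioc 0 U, ee (cW W) uW (kap lam r) r v)
        atTop (𝓝 0) := by
      have := tendsto_inv_atTop_zero.mul hℓ
      rwa [zero_mul] at this
    obtain ⟨h1, h2⟩ := ces_main H r lam hlam h4
    exact ⟨hzs.2 h1, (tendsto_shift L r _).2 h2⟩
  refine ⟨⟨fun h => ?_, e2⟩, fun A ε hA hFE => ⟨fun h => ?_, fun h => e2 ⟨_, h⟩⟩⟩
  · obtain ⟨l1, -, h1⟩ := e1 h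
    exact ⟨_, h1⟩
  · obtain ⟨l1, hl1, h1⟩ := e1 h
    rwa [fe_coeff L hL A hA ε hFE r lam hlam ((tendsto_shift L r _).1 h.2) l1 hl1] at h1

end BSDC
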