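import Pool.Agent.W_92892c_h19.OneB
import Pool.Agent.W_92892c_h19.Bdd

open MeasureTheory Set Filter Topology

namespace BSDC

open BSDS W3283g Complex

variable {ι : Type} {c u : ι → ℝ} {a : ℝ} {L : ℂ → ℂ}

/-- From a bound for large `U` to all `U > 0` (`|∫_0^U e| ≤ ∫_0^{U0} |e|` for `U ≤ U0`). -/
theorem one_bd (e : ℝ → ℝ) (hloc : ∀ U : ℝ, IntegrableOn e (Ioc 0 U)) (ε : ℝ) (hε : 0 ≤ ε)
    (h : ∀ᶠ U : ℝ in atTop, U⁻¹ * ∫ v in Ioc 0 U, e v ≤ ε) :
    ∃ M : ℝ, 0 ≤ M ∧ ∀ U : ℝ, 0 < U → ∫ v in Ioc 0 U, e v ≤ M + ε * U := by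
  obtain ⟨U0, hU0⟩ := eventually_atTop.1 h
  refine ⟨∫ v in Ioc 0 U0, |e v|, integral_nonneg fun v => abs_nonneg _, fun U hU => ?_⟩
  have hnn : 0 ≤ ∫ v in Ioc 0 U0, |e v| := integral_nonneg fun v => abs_nonneg _
  have hεU : 0 ≤ ε * U := mul_nonneg hε hU.le
  rcases le_or_gt U0 U with hle | hlt
  · have h2 := hU0 U hle
    rw [inv_mul_le_iff₀ hU] at h2
    linarith [mul_comm U ε]
  · have h2 : |∫ v in Ioc 0 U, e v| ≤ ∫ v in Ioc 0 U, |e v| :=
      abs_integral_le_integral_abs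
    have h3 : ∫ v in Ioc 0 U, |e v| ≤ ∫ v in Ioc 0 U0, |e v| :=
      setIntegral_mono_set (hloc U0).abs (Eventually.of_forall fun v => abs_nonneg _)
        (Eventually.of_forall (Ioc_subset_Ioc_right hlt.le))
    have h4 := le_abs_self (∫ v in Ioc 0 U, e v)
    linarith

/-- The one sided criterion, first half.  By `one_bd` with `ε = 1` (`M + U ≤ (M + 1)(1 + U)`),
`one_pos` and `one_step` (with `σ0 = 0`) give the integrability for `one_rep`, hence `L s ≠ 0` for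
`Re s > 0`.  `exists_order` (module W_92892c/NearZero) and `lead_pos` give `n` and `l > 0`.  For
real `σ > 0`, `one_step` says
`log ((L σ).re / σ^r) = r γ - κ - σ² ∫ F e^{-σv} dv ≥ log lam - (M σ + ε)`
(`κ = kap lam r`, `F v ≤ M + ε v`, `CesF_int`), so `liminf (L σ).re/σ^r ≥ lam e^{-ε}` as `σ → 0+`,
for every `ε > 0`; while `(L σ).re/σ^r ~ l σ^(n - r)`.  So `n > r` is impossible (limit `0`), and
`n = r` gives `l ≥ lam`. -/
theorem one_lead (H : Hyp c u a L) (r : ℕ) (lam : ℝ) (hlam : 0 < lam)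
    (h : ∀ ε : ℝ, 0 < ε → ∀ᶠ U : ℝ in atTop,
      U⁻¹ * ∫ v in Ioc 0 U, ee c u (kap lam r) r v ≤ ε) :
    (∀ s : ℂ, 0 < s.re → L s ≠ 0) ∧ ∃ (n : ℕ) (l : ℝ), 0 < l ∧
      Tendsto (fun s : ℂ => L s / s ^ n) (𝓝[≠] 0) (𝓝 (l : ℂ)) ∧ (n < r ∨ (n = r ∧ lam ≤ l)) := by
  set κ : ℝ := kap lam r with hκ
  have hloc := ee_loc H κ r
  have hem := ee_meas H κ r
  obtain ⟨M, hM0, hM⟩ := one_bd (ee c u κ r) hloc 1 zero_le_one (h 1 zero_lt_one)
  have hM' : ∀ U : ℝ, 0 < U → ∫ v in Ioc 0 U, ee c u κ r v ≤ (M + 1) * (1 + U) := by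
    intro U hU
    have h1 := hM U hU
    nlinarith [mul_nonneg hM0 hU.le]
  have hpos : ∀ σ : ℝ, 0 < σ → 0 < (L σ).re := fun σ hσ => one_pos H κ r (M + 1) hM' σ hσ
  have hstep := fun (σ : ℝ) (hσ : 0 < σ) => one_step H κ r (M + 1) hM' 0 le_rfl hpos σ hσ
  have hz : ∀ s : ℂ, 0 < s.re → L s ≠ 0 := by
    intro s hs
    rw [one_rep H κ r (fun σ hσ => (hstep σ hσ).1) s hs]
    refine mul_ne_zero (pow_ne_zero _ ?_) (Complex.exp_ne_zero _)
    rintro rfl
    simp at hs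
  refine ⟨hz, ?_⟩
  obtain ⟨n, ℓ, hℓ, ht⟩ := exists_order L H.Lent 1 (hz 1 (by simp))
  obtain ⟨l, hl, hℓl⟩ := lead_pos H (L_real H) hz n ℓ hℓ ht
  rw [hℓl] at ht
  refine ⟨n, l, hl, ht, ?_⟩
  by_cases hnr : n < r
  · exact Or.inl hnr
  right
  have hrn : r ≤ n := not_lt.1 hnr
  -- the limit along the positive reals
  have hrl : Tendsto (fun x : ℝ => (x : ℂ)) (𝓝[>] 0) (𝓝[≠] 0) := by
    refine tendsto_nhdsWithin_iff.2 ⟨?_, ?_⟩
    · have h1 : Tendsto (fun x : ℝ => (x : ℂ)) (𝓝 0) (𝓝 ((0 : ℝ) : ℂ)) :=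
        Complex.continuous_ofReal.tendsto 0
      rw [Complex.ofReal_zero] at h1
      exact h1.mono_left nhdsWithin_le_nhds
    · filter_upwards [self_mem_nhdsWithin] with x hx
      exact Complex.ofReal_ne_zero.2 (ne_of_gt hx)
  have hLr : ∀ x : ℝ, L x = (((L x).re : ℝ) : ℂ) := fun x =>
    Complex.ext (by simp) (by simp [L_real H x])
  have hren : Tendsto (fun x : ℝ => (L x).re / x ^ n) (𝓝[>] 0) (𝓝 l) := by
    have h1 := (Complex.continuous_re.tendsto (l : ℂ)).comp (ht.comp hrl)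
    rw [Complex.ofReal_re] at h1
    refine h1.congr fun x => ?_
    show (L x / (x : ℂ) ^ n).re = _
    rw [hLr x, ← Complex.ofReal_pow, ← Complex.ofReal_div, Complex.ofReal_re, Complex.ofReal_re]
  have hpw : Tendsto (fun x : ℝ => x ^ (n - r)) (𝓝[>] 0) (𝓝 ((0 : ℝ) ^ (n - r))) :=
    ((continuous_pow (n - r)).tendsto 0).mono_left nhdsWithin_le_nhds
  have hrer : Tendsto (fun x : ℝ => (L x).re / x ^ r) (𝓝[>] 0) (𝓝 (l * (0 : ℝ) ^ (n - r))) := by
    refine (hren.mul hpw).congr' ?_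
    filter_upwards [self_mem_nhdsWithin] with x hx
    have hx0 : (0 : ℝ) < x := hx
    have h2 : x ^ n = x ^ r * x ^ (n - r) := by
      rw [← pow_add]
      congr 1
      omega
    rw [h2]
    field_simp
  -- the lower bound
  have hlow : ∀ ε : ℝ, 0 < ε → lam * Real.exp (-ε) ≤ l * (0 : ℝ) ^ (n - r) := by
    intro ε hε
    obtain ⟨M₁, -, hM₁⟩ := one_bd (ee c u κ r) hloc ε hε.le (h ε hε)
    have hlim : Tendsto (fun σ : ℝ => lam * Real.exp (-(M₁ * σ + ε))) (𝓝[>] 0)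
        (𝓝 (lam * Real.exp (-(M₁ * 0 + ε)))) := by
      have hc : Continuous fun σ : ℝ => lam * Real.exp (-(M₁ * σ + ε)) := by fun_prop
      exact (hc.tendsto 0).mono_left nhdsWithin_le_nhds
    rw [mul_zero, zero_add] at hlim
    refine le_of_tendsto_of_tendsto hlim hrer ?_
    filter_upwards [self_mem_nhdsWithin] with σ hσ
    have hσ0 : (0 : ℝ) < σ := hσ
    obtain ⟨hi, he⟩ := hstep σ hσ0
    obtain ⟨hI, hIv⟩ := CesF_int M₁ ε σ hσ0
    have h1 : ∫ v in Ioi (0 : ℝ), (∫ w in Ioc 0 v, ee c u κ r w) * Real.exp (-(σ * v)) ≤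
        ∫ v in Ioi (0 : ℝ), (M₁ + ε * v) * Real.exp (-(σ * v)) := by
      refine setIntegral_mono_on hi hI measurableSet_Ioi fun v hv => ?_
      exact mul_le_mul_of_nonneg_right (hM₁ v hv) (Real.exp_pos _).le
    rw [hIv] at h1
    have h2 := mul_le_mul_of_nonneg_left h1 (by positivity : (0 : ℝ) ≤ σ ^ 2)
    rw [he] at h2
    have h3 : σ ^ 2 * (M₁ / σ + ε / σ ^ 2) = M₁ * σ + ε := by field_simp
    rw [h3, hκ] at h2
    unfold kap at h2
    have hp := hpos σ hσ0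
    have h4 : Real.log lam + -(M₁ * σ + ε) ≤ Real.log ((L σ).re / σ ^ r) := by
      rw [Real.log_div hp.ne' (pow_pos hσ0 r).ne', Real.log_pow]
      linarith
    have h5 := Real.exp_le_exp.2 h4
    rwa [Real.exp_add, Real.exp_log hlam, Real.exp_log (div_pos hp (pow_pos hσ0 r))] at h5
  have hge : lam ≤ l * (0 : ℝ) ^ (n - r) := by
    have hc : Continuous fun ε : ℝ => lam * Real.exp (-ε) := by fun_prop
    have h1 : Tendsto (fun ε : ℝ => lam * Real.exp (-ε)) (𝓝[>] 0)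
        (𝓝 (lam * Real.exp (-0))) := (hc.tendsto 0).mono_left nhdsWithin_le_nhds
    rw [neg_zero, Real.exp_zero, mul_one] at h1
    refine le_of_tendsto h1 ?_
    filter_upwards [self_mem_nhdsWithin] with ε hε
    exact hlow ε hε
  have hnr2 : n = r := by
    by_contra hne
    have h1 : n - r ≠ 0 := by omega
    rw [zero_pow h1, mul_zero] at hge
    linarith
  refine ⟨hnr2, ?_⟩
  rwa [hnr2, Nat.sub_self, pow_zero, mul_one] at hge

/-- Second half: `ee (kap lam r) r = ee (kap l n) n + log (lam/l) - (r - n)(γ + log v)` for `v > 0`.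
If `n = r` and `lam ≤ l` the difference is `≤ 0`; if `n < r` its mean tends to `-∞`
(`∫_0^U log v dv = U log U - U`, `integral_log`). -/
theorem one_back (r n : ℕ) (lam l : ℝ) (hlam : 0 < lam) (hl : 0 < l)
    (hn : n < r ∨ (n = r ∧ lam ≤ l))
    (hloc : ∀ (κ : ℝ) (r : ℕ) (U : ℝ), IntegrableOn (ee c u κ r) (Ioc 0 U))
    (h : Tendsto (fun U : ℝ => U⁻¹ * ∫ v in Ioc 0 U, ee c u (kap l n) n v) atTop (𝓝 0))
    (ε : ℝ) (hε : 0 < ε) :
    ∀ᶠ U : ℝ in atTop, U⁻¹ * ∫ v in Ioc 0 U, ee c u (kap lam r) r v ≤ ε := by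
  set C₁ : ℝ := Real.log lam - Real.log l - ((r : ℝ) - n) * Real.eulerMascheroniConstant with hC₁
  have hdiff : ∀ v : ℝ, ee c u (kap lam r) r v =
      ee c u (kap l n) n v + (C₁ - ((r : ℝ) - n) * Real.log v) := by
    intro v
    unfold ee kap
    rw [hC₁]
    ring
  have hlogi : ∀ U : ℝ, 0 < U → IntegrableOn Real.log (Ioc 0 U) := by
    intro U hU
    have h1 : IntervalIntegrable Real.log volume 0 U := intervalIntegral.intervalIntegrable_log'
    exact (intervalIntegrable_iff_integrableOn_Ioc_of_le hU.le).1 h1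
  have hlogv : ∀ U : ℝ, 0 < U → ∫ v in Ioc 0 U, Real.log v = U * Real.log U - U := by
    intro U hU
    rw [← intervalIntegral.integral_of_le hU.le, integral_log]
    ring
  have hmean : ∀ U : ℝ, 0 < U → U⁻¹ * ∫ v in Ioc 0 U, ee c u (kap lam r) r v =
      U⁻¹ * (∫ v in Ioc 0 U, ee c u (kap l n) n v) +
        (C₁ - ((r : ℝ) - n) * (Real.log U - 1)) := by
    intro U hU
    have hconst : IntegrableOn (fun _ : ℝ => C₁) (Ioc 0 U) :=
      integrableOn_const measure_Ioc_lt_top.ne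
    have h1 : ∫ v in Ioc 0 U, ee c u (kap lam r) r v =
        (∫ v in Ioc 0 U, ee c u (kap l n) n v) +
          ∫ v in Ioc 0 U, (C₁ - ((r : ℝ) - n) * Real.log v) := by
      have h4 : IntegrableOn (fun v : ℝ => C₁ - ((r : ℝ) - n) * Real.log v) (Ioc 0 U) :=
        hconst.sub ((hlogi U hU).const_mul _)
      rw [← integral_add (hloc _ _ U) h4]
      exact integral_congr_ae (Eventually.of_forall fun v => hdiff v)
    have h2 : ∫ v in Ioc 0 U, (C₁ - ((r : ℝ) - n) * Real.log v) =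
        C₁ * U - ((r : ℝ) - n) * (U * Real.log U - U) := by
      rw [integral_sub hconst ((hlogi U hU).const_mul _), integral_const_mul, hlogv U hU,
        setIntegral_const, Real.volume_real_Ioc_of_le hU.le, sub_zero, smul_eq_mul, mul_comm U C₁]
    rw [h1, h2]
    field_simp
  have hD : ∀ᶠ U : ℝ in atTop, C₁ - ((r : ℝ) - n) * (Real.log U - 1) ≤ 0 := by
    rcases hn with hn | ⟨hn, hle⟩
    · have hk : (0 : ℝ) < (r : ℝ) - n := by
        have : (n : ℝ) < r := by exact_mod_cast hn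
        linarith
      have h1 := Real.tendsto_log_atTop.eventually_ge_atTop (C₁ / ((r : ℝ) - n) + 1)
      filter_upwards [h1] with U hU
      have h2 : C₁ / ((r : ℝ) - n) ≤ Real.log U - 1 := by linarith
      rw [div_le_iff₀ hk] at h2
      linarith [mul_comm (Real.log U - 1) ((r : ℝ) - n)]
    · refine Eventually.of_forall fun U => ?_
      have h1 := Real.log_le_log hlam hle
      rw [hC₁, hn]
      simp only [sub_self, zero_mul, sub_zero]
      linarith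
  have hm := (tendsto_order.1 h).2 ε hε
  filter_upwards [hm, hD, eventually_gt_atTop (0 : ℝ)] with U h1 h2 h3
  rw [hmean U h3]
  linarith

end BSDC
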