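import Pool.Agent.W_92892c_h19.MainB
import Pool.Agent.W_92892c_h19.OneC

open MeasureTheory Set Filter Topology

namespace BSDC

open BSDS W3283g

/-- The upper bounds of the means in the variables `X` and `U = log X`
(`MainB_key`: the two integrals differ by the constant `∫_0^{log 2} e`; after division by `log X`
this constant tends to `0`; `Real.tendsto_log_atTop`, `Real.tendsto_exp_atTop`). -/
theorem up_iff (e : ℝ → ℝ) (hloc : ∀ U : ℝ, IntegrableOn e (Ioc 0 U)) :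
    (∀ ε : ℝ, 0 < ε → ∀ᶠ X : ℝ in atTop,
      (Real.log X)⁻¹ * ∫ x in (2 : ℝ)..X, e (Real.log x) / x ≤ ε) ↔
      ∀ ε : ℝ, 0 < ε → ∀ᶠ U : ℝ in atTop, U⁻¹ * ∫ v in Ioc 0 U, e v ≤ ε := by
  set C : ℝ := ∫ v in Ioc 0 (Real.log 2), e v with hC
  have hsmall : ∀ c ε : ℝ, 0 < ε → ∀ᶠ U : ℝ in atTop, U⁻¹ * c ≤ ε := by
    intro c ε hε
    have h1 : Tendsto (fun U : ℝ => U⁻¹ * c) atTop (𝓝 (0 * c)) :=
      tendsto_inv_atTop_zero.mul_const c
    rw [zero_mul] at h1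
    exact h1.eventually_le_const hε
  constructor
  · intro h ε hε
    have h1 := Real.tendsto_exp_atTop.eventually (h (ε / 2) (by linarith))
    filter_upwards [h1, hsmall C (ε / 2) (by linarith), eventually_ge_atTop (Real.log 2)]
      with U hU1 hU2 hU3
    rw [Real.log_exp, MainB_key e hloc U hU3, mul_sub] at hU1
    linarith
  · intro h ε hε
    have h1 := Real.tendsto_log_atTop.eventually (h (ε / 2) (by linarith))
    have h2 := Real.tendsto_log_atTop.eventually (hsmall (-C) (ε / 2) (by linarith))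
    filter_upwards [h1, h2, eventually_ge_atTop (2 : ℝ)] with X hX1 hX2 hX3
    have hX0 : 0 < X := by linarith
    have h3 := MainB_key e hloc (Real.log X) (Real.log_le_log (by norm_num) hX3)
    rw [Real.exp_log hX0] at h3
    rw [h3, mul_sub]
    rw [mul_neg] at hX2
    linarith

theorem main_one (W : WeierstrassCurve ℤ) (L : ℂ → ℂ) (hL : Differentiable ℂ L)
    (hprod : ∀ s : ℂ, 3 / 2 < s.re → Tendsto (fun N : ℕ =>
      ∏ p ∈ (Finset.range N).filter Nat.Prime, (locFactor W p s)⁻¹) atTop (𝓝 (L s)))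
    (hgr : ∃ (K : ℝ) (n : ℕ), ∀ s : ℂ, 4 / 5 ≤ s.re → ‖L s‖ ≤ K * (2 + ‖s‖) ^ n)
    (r : ℕ) (lam : ℝ) (hlam : 0 < lam) :
    ((∀ s : ℂ, 1 < s.re → L s ≠ 0) ∧ ∃ (n : ℕ) (l : ℝ), 0 < l ∧
      Tendsto (fun s : ℂ => L s / (s - 1) ^ n) (𝓝[≠] 1) (𝓝 (l : ℂ)) ∧
      (n < r ∨ (n = r ∧ lam ≤ l))) ↔
      ∀ ε : ℝ, 0 < ε → ∀ᶠ X : ℝ in atTop,
        (Real.log X)⁻¹ * ∫ x in (2 : ℝ)..X, bsdErr W r lam x / x ≤ ε := by
  have H := hyp_W W L hL hprod
  have hloc : ∀ (κ : ℝ) (r : ℕ) (U : ℝ), IntegrableOn (ee (cW W) uW κ r) (Ioc 0 U) :=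
    fun κ r => ee_loc H κ r
  have hzs : (∀ s : ℂ, 1 < s.re → L s ≠ 0) ↔ ∀ s : ℂ, 0 < s.re → L (1 + s) ≠ 0 := by
    constructor
    · intro h s hs
      exact h (1 + s) (by rw [Complex.add_re, Complex.one_re]; linarith)
    · intro h s hs
      have := h (s - 1) (by rw [Complex.sub_re, Complex.one_re]; linarith)
      simpa using this
  have hb : (∀ ε : ℝ, 0 < ε → ∀ᶠ X : ℝ in atTop,
        (Real.log X)⁻¹ * ∫ x in (2 : ℝ)..X, bsdErr W r lam x / x ≤ ε) ↔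
      ∀ ε : ℝ, 0 < ε → ∀ᶠ U : ℝ in atTop,
        U⁻¹ * ∫ v in Ioc 0 U, ee (cW W) uW (kap lam r) r v ≤ ε := by
    rw [← up_iff _ (hloc (kap lam r) r)]
    refine forall_congr' fun ε => forall_congr' fun _ => eventually_congr ?_
    filter_upwards [eventually_ge_atTop (2 : ℝ)] with X hX
    rw [(int_eq W r lam hlam X hX).1]
  rw [hb]
  constructor
  · rintro ⟨h1, n, l, hl, h2, hn⟩ ε hε
    have h3 := (main W L hL hprod hgr n l hl).1.1 ⟨h1, h2⟩
    have h4 : Tendsto (fun U : ℝ => U⁻¹ * ∫ v in Ioc 0 U, ee (cW W) uW (kap l n) n v)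
        atTop (𝓝 0) := by
      rw [← mean_iff _ (hloc (kap l n) n)]
      refine (tendsto_congr' ?_).1 h3
      filter_upwards [eventually_ge_atTop (2 : ℝ)] with X hX
      rw [(int_eq W n l hl X hX).1]
    exact one_back r n lam l hlam hl hn hloc h4 ε hε
  · intro h
    obtain ⟨h1, n, l, hl, h2, hn⟩ := one_lead H r lam hlam h
    exact ⟨hzs.2 h1, n, l, hl, (tendsto_shift L n _).2 h2, hn⟩

end BSDC
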