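import Pool.Agent.W_92892c_h19.Stmt
import Pool.Agent.W_92892c_h19.MainC
import Pool.Agent.W_92892c_h19.MainD
import Pool.Agent.W_92892c_h19.Fam3

open MeasureTheory Set Filter Topology

namespace PPM

theorem powSum_eq (a e : ℤ) (m : ℕ) : powSum a e m = BSDS.psum a e m := by
  induction m using Nat.strong_induction_on with
  | _ m ih =>
    match m with
    | 0 => rfl
    | 1 => rfl
    | (m + 2) =>
      show a * powSum a e (m + 1) - e * powSum a e m =
        a * BSDS.psum a e (m + 1) - e * BSDS.psum a e m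
      rw [ih (m + 1) (by omega), ih m (by omega)]

theorem bsdProduct_eq (W : WeierstrassCurve ℤ) (x : ℝ) : bsdProduct W x = BSDC.ppProd W x := by
  unfold bsdProduct BSDC.ppProd
  simp only [powSum_eq]
  rfl

theorem bsdError_eq (W : WeierstrassCurve ℤ) (r : ℕ) (lam x : ℝ) :
    bsdError W r lam x = BSDC.bsdErr W r lam x := by
  unfold bsdError BSDC.bsdErr
  rw [bsdProduct_eq]

theorem part1 (W : WeierstrassCurve ℤ) (L : ℂ → ℂ) (hL : Differentiable ℂ L)
    (hprod : EulerProduct W L) (hgr : PolyGrowth L) (r : ℕ) (lam : ℝ) (hlam : 0 < lam) :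
    List.TFAE [NoZeros L ∧ LeadingTerm L r lam,
      Tendsto (logMean W r lam) atTop (𝓝 0),
      ∃ B : ℝ, ∀ X : ℝ, 2 ≤ X →
        ∫ x in (2 : ℝ)..X, (Real.log x * bsdError W r lam x) ^ 2 / x ≤ B * Real.log X,
      ∃ ℓ : ℝ, Tendsto (fun X : ℝ => ∫ x in (1 : ℝ)..X, bsdError W r lam x / x) atTop (𝓝 ℓ)] := by
  have h1 := BSDC.main W L hL hprod hgr r lam hlam
  have h2 := (BSDC.main_conv W L hL hprod hgr r lam hlam).1
  have e : bsdError W r lam = BSDC.bsdErr W r lam := funext fun x => bsdError_eq W r lam x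
  unfold NoZeros LeadingTerm
  have e2 : logMean W r lam = fun X : ℝ =>
      (Real.log X)⁻¹ * ∫ x in (2 : ℝ)..X, BSDC.bsdErr W r lam x / x := by
    funext X
    unfold logMean
    rw [e]
  rw [e, e2]
  tfae_have 1 ↔ 2 := h1.1
  tfae_have 1 ↔ 3 := h1.2
  tfae_have 1 ↔ 4 := h2
  tfae_finish

theorem part2 (W : WeierstrassCurve ℤ) (L : ℂ → ℂ) (hL : Differentiable ℂ L)
    (hprod : EulerProduct W L) (hgr : PolyGrowth L) (r : ℕ) (lam : ℝ) (hlam : 0 < lam)
    (A : ℝ) (ε : ℂ) (hA : 0 < A) (hFE : FunEq L A ε) :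
    (NoZeros L ∧ LeadingTerm L r lam) ↔
      Tendsto (fun X : ℝ => ∫ x in (1 : ℝ)..X, bsdError W r lam x / x) atTop
        (𝓝 (Real.log A - Real.eulerMascheroniConstant)) := by
  have e : bsdError W r lam = BSDC.bsdErr W r lam := funext fun x => bsdError_eq W r lam x
  rw [e]
  exact (BSDC.main_conv W L hL hprod hgr r lam hlam).2 A ε hA hFE

theorem part3 (W : WeierstrassCurve ℤ) (L : ℂ → ℂ) (hL : Differentiable ℂ L)
    (hprod : EulerProduct W L) (hgr : PolyGrowth L) (r : ℕ) (lam : ℝ) (hlam : 0 < lam) :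
    (NoZeros L ∧ ∃ (n : ℕ) (l : ℝ), 0 < l ∧ LeadingTerm L n l ∧ (n < r ∨ (n = r ∧ lam ≤ l))) ↔
      ∀ δ : ℝ, 0 < δ → ∀ᶠ X : ℝ in atTop, logMean W r lam X ≤ δ := by
  have e : bsdError W r lam = BSDC.bsdErr W r lam := funext fun x => bsdError_eq W r lam x
  have e2 : logMean W r lam = fun X : ℝ =>
      (Real.log X)⁻¹ * ∫ x in (2 : ℝ)..X, BSDC.bsdErr W r lam x / x := by
    funext X
    unfold logMean
    rw [e]
  rw [e2]
  exact BSDC.main_one W L hL hprod hgr r lam hlam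

theorem part4 (k : ℕ) (hk : Squarefree k) (c : ℤ) (hc : c = 1 ∨ c = -1) :
    ∃ L : ℂ → ℂ, Differentiable ℂ L ∧ EulerProduct (twist c k) L ∧ PolyGrowth L ∧
      ∃ ε : ℂ, FunEq L (Real.sqrt (cond c k) / (2 * Real.pi)) ε :=
  BSDC.fam_fe k hk c hc

end PPM
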