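import Mathlib

open MeasureTheory Set Filter Topology

namespace BSDC

theorem CesB_pt (e : ℝ → ℝ) (s : ℝ) (hs : 0 < s) (v : ℝ) (hv : 0 < v) :
    |e v| ≤ s⁻¹ * (v * e v) ^ 2 + s * (v ^ 2)⁻¹ := by
  have ha : |e v| = |v * e v| * v⁻¹ := by
    rw [abs_mul, abs_of_pos hv]
    field_simp
  have hsq : (v * e v) ^ 2 = |v * e v| ^ 2 := (sq_abs _).symm
  rw [ha, hsq, ← inv_pow]
  set A := |v * e v|
  set b := v⁻¹
  have h1 : s⁻¹ * A ^ 2 + s * b ^ 2 - A * b =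
      s⁻¹ * ((A - s * b / 2) ^ 2 + 3 / 4 * (s * b) ^ 2) := by
    field_simp
    ring
  have h2 : 0 ≤ s⁻¹ * ((A - s * b / 2) ^ 2 + 3 / 4 * (s * b) ^ 2) := by positivity
  linarith

theorem CesB_inv_cont (U : ℝ) : ContinuousOn (fun v : ℝ => (v ^ 2)⁻¹) (Icc 1 U) := by
  apply ContinuousOn.inv₀ (by fun_prop)
  intro v hv
  have : 0 < v := lt_of_lt_of_le one_pos hv.1
  positivity

theorem CesB_inv_int (U : ℝ) : IntegrableOn (fun v : ℝ => (v ^ 2)⁻¹) (Ioc 1 U) :=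
  ((CesB_inv_cont U).integrableOn_Icc).mono_set Ioc_subset_Icc_self

theorem CesB_inv_le (U : ℝ) (hU : 1 ≤ U) : ∫ v in Ioc 1 U, (v ^ 2)⁻¹ ≤ 1 := by
  rw [← intervalIntegral.integral_of_le hU]
  have h1 : ∀ v : ℝ, (v ^ 2)⁻¹ = v ^ (-2 : ℤ) := by
    intro v
    rw [zpow_neg]
    norm_cast
  simp only [h1]
  have h0 : (0 : ℝ) ∉ uIcc 1 U := by
    rw [uIcc_of_le hU]
    intro h
    linarith [h.1]
  rw [integral_zpow (Or.inr ⟨by norm_num, h0⟩)]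
  have hUpos : 0 < U := by linarith
  have e1 : (-2 : ℤ) + 1 = -1 := by norm_num
  rw [e1, zpow_neg_one, one_zpow]
  have h2 : 0 < U⁻¹ := by positivity
  push_cast
  have : (U⁻¹ - 1) / (-2 + 1 : ℝ) = 1 - U⁻¹ := by ring
  rw [this]
  linarith

theorem CesB_tail (e : ℝ → ℝ) (hloc : ∀ U : ℝ, IntegrableOn e (Ioc 0 U))
    (hloc2 : ∀ U : ℝ, IntegrableOn (fun v : ℝ => (v * e v) ^ 2) (Ioc 0 U)) (B : ℝ)
    (h : ∀ U : ℝ, 1 ≤ U → ∫ v in Ioc 0 U, (v * e v) ^ 2 ≤ B * U) (U : ℝ) (hU : 1 ≤ U) :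
    |∫ v in Ioc 1 U, e v| ≤ (B + 1) * √U := by
  have hUpos : 0 < U := by linarith
  set s := √U with hs
  have hs0 : 0 < s := Real.sqrt_pos.2 hUpos
  have hss : s * s = U := Real.mul_self_sqrt hUpos.le
  have hsub : Ioc (1 : ℝ) U ⊆ Ioc 0 U := Ioc_subset_Ioc_left zero_le_one
  have hi2 : IntegrableOn (fun v : ℝ => (v * e v) ^ 2) (Ioc 1 U) := (hloc2 U).mono_set hsub
  calc |∫ v in Ioc 1 U, e v| ≤ ∫ v in Ioc 1 U, |e v| := abs_integral_le_integral_abs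
    _ ≤ ∫ v in Ioc 1 U, (s⁻¹ * (v * e v) ^ 2 + s * (v ^ 2)⁻¹) := by
        apply setIntegral_mono_on ((hloc U).mono_set hsub).abs
          ((hi2.const_mul _).add ((CesB_inv_int U).const_mul _)) measurableSet_Ioc
        intro v hv
        exact CesB_pt e s hs0 v (lt_trans one_pos hv.1)
    _ = s⁻¹ * (∫ v in Ioc 1 U, (v * e v) ^ 2) + s * ∫ v in Ioc 1 U, (v ^ 2)⁻¹ := by
        rw [integral_add (hi2.const_mul _) ((CesB_inv_int U).const_mul _),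
          integral_const_mul, integral_const_mul]
    _ ≤ s⁻¹ * (B * U) + s * 1 := by
        have h1 : ∫ v in Ioc 1 U, (v * e v) ^ 2 ≤ B * U := by
          refine le_trans ?_ (h U hU)
          apply setIntegral_mono_set (hloc2 U)
          · exact Eventually.of_forall fun v => sq_nonneg _
          · exact hsub.eventuallyLE
        have h2 := CesB_inv_le U hU
        gcongr
    _ = (B + 1) * s := by
        rw [← hss]
        field_simp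

/-- A mean square bound for `v e(v)` gives a vanishing mean: for `U ≥ 1`,
`|∫_1^U e| ≤ (∫_1^U (v e)²)^{1/2} (∫_1^U v^{-2})^{1/2} ≤ (B U)^{1/2}` (Cauchy-Schwarz, or
`|e v| ≤ (δ (v e v)² + v^{-2}/δ)/2` with `δ = U^{-1/2}`, which gives `≤ (B + 1) U^{1/2}`), so
`U⁻¹ |∫_0^U e| ≤ U⁻¹ ∫_0^1 |e| + (B + 1) U^{-1/2} → 0`. -/
theorem ces_of_msq (e : ℝ → ℝ) (hloc : ∀ U : ℝ, IntegrableOn e (Ioc 0 U))
    (hloc2 : ∀ U : ℝ, IntegrableOn (fun v : ℝ => (v * e v) ^ 2) (Ioc 0 U)) (B : ℝ) (hB : 0 ≤ B)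
    (h : ∀ U : ℝ, 1 ≤ U → ∫ v in Ioc 0 U, (v * e v) ^ 2 ≤ B * U) :
    Tendsto (fun U : ℝ => U⁻¹ * ∫ v in Ioc 0 U, e v) atTop (𝓝 0) := by
  set C : ℝ := |∫ v in Ioc 0 1, e v| with hC
  have hlim : Tendsto (fun U : ℝ => U⁻¹ * C + (B + 1) * (√U)⁻¹) atTop (𝓝 0) := by
    have h1 : Tendsto (fun U : ℝ => U⁻¹ * C) atTop (𝓝 (0 * C)) :=
      tendsto_inv_atTop_zero.mul_const C
    have h2 : Tendsto (fun U : ℝ => (B + 1) * (√U)⁻¹) atTop (𝓝 ((B + 1) * 0)) :=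
      (tendsto_inv_atTop_zero.comp Real.tendsto_sqrt_atTop).const_mul (B + 1)
    have h3 := h1.add h2
    simpa using h3
  apply squeeze_zero_norm' _ hlim
  filter_upwards [eventually_ge_atTop (1 : ℝ)] with U hU
  have hUpos : 0 < U := by linarith
  have hsplit : ∫ v in Ioc 0 U, e v = (∫ v in Ioc 0 1, e v) + ∫ v in Ioc 1 U, e v := by
    rw [← Ioc_union_Ioc_eq_Ioc zero_le_one hU]
    apply setIntegral_union _ measurableSet_Ioc (hloc 1)
      ((hloc U).mono_set (Ioc_subset_Ioc_left zero_le_one))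
    rw [Set.disjoint_left]
    intro v hv hv'
    exact absurd hv.2 (not_le.2 hv'.1)
  have htail := CesB_tail e hloc hloc2 B h U hU
  rw [Real.norm_eq_abs, abs_mul, abs_of_pos (inv_pos.2 hUpos), hsplit]
  have hs0 : 0 < √U := Real.sqrt_pos.2 hUpos
  have hss : √U * √U = U := Real.mul_self_sqrt hUpos.le
  calc U⁻¹ * |(∫ v in Ioc 0 1, e v) + ∫ v in Ioc 1 U, e v|
      ≤ U⁻¹ * (C + (B + 1) * √U) := by
        apply mul_le_mul_of_nonneg_left _ (inv_pos.2 hUpos).le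
        exact (abs_add_le _ _).trans (add_le_add le_rfl htail)
    _ = U⁻¹ * C + (B + 1) * (U⁻¹ * √U) := by ring
    _ = U⁻¹ * C + (B + 1) * (√U)⁻¹ := by
        congr 2
        nth_rewrite 1 [← hss]
        field_simp

end BSDC
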