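import Pool.Agent.W_92892c_h19.Ee
import Pool.Agent.W_3283e1_h53.Ces

open MeasureTheory Set Filter Topology

namespace BSDC

open BSDS W3283g Complex

variable {ι : Type} {c u : ι → ℝ} {a : ℝ} {L : ℂ → ℂ}

/-- `∫_0^∞ (A + B v) e^{-xv} dv = A/x + B/x²`. -/
theorem CesF_int (A B x : ℝ) (hx : 0 < x) :
    IntegrableOn (fun v : ℝ => (A + B * v) * Real.exp (-(x * v))) (Ioi 0) ∧
      ∫ v in Ioi (0 : ℝ), (A + B * v) * Real.exp (-(x * v)) = A / x + B / x ^ 2 := by
  have h0 : IntegrableOn (fun v : ℝ => Real.exp (-(x * v))) (Ioi 0) := by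
    have h := integrableOn_rpow_mul_exp_neg_mul_rpow (p := 1) (s := 0) (b := x) (by norm_num)
      one_pos hx
    refine h.congr_fun (fun v _ => ?_) measurableSet_Ioi
    simp only [Real.rpow_zero, Real.rpow_one, one_mul, neg_mul]
  have h1 : IntegrableOn (fun v : ℝ => v * Real.exp (-(x * v))) (Ioi 0) := by
    have h := integrableOn_rpow_mul_exp_neg_mul_rpow (p := 1) (s := 1) (b := x) (by norm_num)
      one_pos hx
    refine h.congr_fun (fun v _ => ?_) measurableSet_Ioi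
    simp only [Real.rpow_one, neg_mul]
  have e0 : ∫ v in Ioi (0 : ℝ), Real.exp (-(x * v)) = 1 / x := by
    have h := Real.integral_rpow_mul_exp_neg_mul_Ioi (a := 1) (r := x) one_pos hx
    simp only [sub_self, Real.rpow_zero, one_mul, Real.rpow_one, Real.Gamma_one, mul_one] at h
    exact h
  have e1 : ∫ v in Ioi (0 : ℝ), v * Real.exp (-(x * v)) = 1 / x ^ 2 := by
    have h := Real.integral_rpow_mul_exp_neg_mul_Ioi (a := 2) (r := x) two_pos hx
    have h2 : (2 : ℝ) - 1 = 1 := by norm_num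
    rw [h2] at h
    simp only [Real.rpow_one, Real.Gamma_two, mul_one] at h
    rw [h, Real.rpow_two, one_div, one_div, inv_pow]
  have hfun : (fun v : ℝ => (A + B * v) * Real.exp (-(x * v))) =
      fun v : ℝ => A * Real.exp (-(x * v)) + B * (v * Real.exp (-(x * v))) := by
    funext v
    ring
  rw [hfun]
  refine ⟨(h0.const_mul A).add (h1.const_mul B), ?_⟩
  rw [integral_add (h0.const_mul A) (h1.const_mul B), integral_const_mul, integral_const_mul, e0, e1]
  ring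

/-- The `ε`-version of `W3283g.Ces_Fbd`. -/
theorem CesF_Fbd (e : ℝ → ℝ)
    (hloc : ∀ U : ℝ, IntegrableOn e (Set.Ioc 0 U))
    (h : Tendsto (fun U : ℝ => U⁻¹ * ∫ u in Set.Ioc 0 U, e u) atTop (𝓝 0)) (ε : ℝ) (hε : 0 < ε) :
    ∃ M : ℝ, 0 ≤ M ∧ ∀ U : ℝ, 0 < U → |∫ u in Set.Ioc 0 U, e u| ≤ M + ε * U := by
  have h1 : ∀ᶠ U : ℝ in atTop, |U⁻¹ * ∫ u in Set.Ioc 0 U, e u| < ε := by
    have := (tendsto_order.1 h.abs).2 ε (by rw [abs_zero]; exact hε)
    exact this
  obtain ⟨U0, hU0⟩ := eventually_atTop.1 h1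
  refine ⟨∫ u in Set.Ioc 0 U0, |e u|, integral_nonneg fun u => abs_nonneg _, fun U hU => ?_⟩
  have hnn : 0 ≤ ∫ u in Set.Ioc 0 U0, |e u| := integral_nonneg fun u => abs_nonneg _
  have hεU : 0 < ε * U := mul_pos hε hU
  rcases le_or_gt U0 U with hle | hlt
  · have h2 := hU0 U hle
    rw [abs_mul, abs_of_pos (inv_pos.2 hU), inv_mul_lt_iff₀ hU] at h2
    linarith [mul_comm U ε]
  · have h2 : |∫ u in Set.Ioc 0 U, e u| ≤ ∫ u in Set.Ioc 0 U, |e u| :=
      abs_integral_le_integral_abs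
    have h3 : ∫ u in Set.Ioc 0 U, |e u| ≤ ∫ u in Set.Ioc 0 U0, |e u| :=
      setIntegral_mono_set (hloc U0).abs (Eventually.of_forall fun u => abs_nonneg _)
        (HasSubset.Subset.eventuallyLE (Set.Ioc_subset_Ioc_right hlt.le))
    linarith

/-- The transform of `F(U) = ∫_0^U e` for a function with vanishing mean is small near `0`: by
`Ces_Fbd`-type bounds, for every `ε > 0` there is `M` with `|F U| ≤ M + ε U` for `U > 0`, so
`|x² ∫ F(v) e^{-xv} dv| ≤ M x + ε` for `x > 0`. -/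
theorem ces_small (e : ℝ → ℝ) (he : Measurable e) (hloc : ∀ U : ℝ, IntegrableOn e (Ioc 0 U))
    (h : Tendsto (fun U : ℝ => U⁻¹ * ∫ v in Ioc 0 U, e v) atTop (𝓝 0)) :
    Tendsto (fun x : ℝ => (x : ℂ) ^ 2 * ∫ v in Ioi (0 : ℝ),
      ((∫ w in Ioc 0 v, e w : ℝ) : ℂ) * Complex.exp (-((x : ℂ) * v))) (𝓝[>] 0) (𝓝 0) := by
  rw [Metric.tendsto_nhdsWithin_nhds]
  intro ε hε
  obtain ⟨M, hM, hb⟩ := CesF_Fbd e hloc h (ε / 2) (by linarith)
  refine ⟨ε / (2 * (M + 1)), by positivity, fun x hx hxd => ?_⟩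
  have hx0 : 0 < x := hx
  rw [Real.dist_eq, sub_zero, abs_of_pos hx0] at hxd
  rw [dist_zero_right, norm_mul, norm_pow, Complex.norm_real, Real.norm_of_nonneg hx0.le]
  obtain ⟨hI, hIv⟩ := CesF_int M (ε / 2) x hx0
  have h1 : ‖∫ v in Ioi (0 : ℝ),
      ((∫ w in Ioc 0 v, e w : ℝ) : ℂ) * Complex.exp (-((x : ℂ) * v))‖ ≤
      ∫ v in Ioi (0 : ℝ), (M + ε / 2 * v) * Real.exp (-(x * v)) := by
    refine norm_integral_le_of_norm_le hI ?_
    refine (ae_restrict_iff' measurableSet_Ioi).2 (Eventually.of_forall fun v hv => ?_)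
    have hv0 : 0 < v := hv
    rw [norm_mul, Er_norm_exp, Complex.norm_real, Real.norm_eq_abs, Complex.ofReal_re]
    exact mul_le_mul_of_nonneg_right (hb v hv0) (Real.exp_pos _).le
  rw [hIv] at h1
  have hx2 : 0 < x ^ 2 := by positivity
  have hM1 : 0 < M + 1 := by linarith
  calc x ^ 2 * ‖∫ v in Ioi (0 : ℝ),
        ((∫ w in Ioc 0 v, e w : ℝ) : ℂ) * Complex.exp (-((x : ℂ) * v))‖ ≤
        x ^ 2 * (M / x + ε / 2 / x ^ 2) := mul_le_mul_of_nonneg_left h1 hx2.le
    _ = M * x + ε / 2 := by field_simp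
    _ < ε := by
        rw [lt_div_iff₀ (by linarith)] at hxd
        nlinarith

/-- The representation.  `F(U) = ∫_0^U ee` satisfies `|F U| ≤ M + U` (`Ces_Fbd`), so its transform is
holomorphic on `Re s > 0` (`Ces_Fmeas`, `Ces_Fint`, `lap_diff`), and for `Re s > a` it is
`s⁻¹ ∫ ee e^{-sv} dv` (`Ces_fub`).  With `ee_transform`,
`Dser = r γ + r log s - κ - s² ∫ F e^{-sv}` for `Re s > a`, so with `H.LD`
`L s = s^r exp (r γ - κ - s² ∫ F e^{-sv})` there (`exp (r log s) = s^r`), and for all `Re s > 0` by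
the identity theorem (both sides are holomorphic on this convex open set). -/
theorem ces_rep (H : Hyp c u a L) (κ : ℝ) (r : ℕ)
    (h : Tendsto (fun U : ℝ => U⁻¹ * ∫ v in Ioc 0 U, ee c u κ r v) atTop (𝓝 0))
    (s : ℂ) (hs : 0 < s.re) :
    L s = s ^ r * Complex.exp (r * Real.eulerMascheroniConstant - κ -
      s ^ 2 * ∫ v in Ioi (0 : ℝ),
        ((∫ w in Ioc 0 v, ee c u κ r w : ℝ) : ℂ) * Complex.exp (-(s * v))) := by
  have hloc : ∀ U : ℝ, IntegrableOn (ee c u κ r) (Set.Ioc 0 U) := ee_loc H κ r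
  obtain ⟨M, hM, hb⟩ := Ces_Fbd _ hloc h
  have hmeas := ee_meas H κ r
  have hFm := Ces_Fmeas _ hmeas
  have hFi := Ces_Fint (fun U : ℝ => ∫ w in Set.Ioc 0 U, ee c u κ r w) hFm M hM hb
  have hd := lap_diff (fun U : ℝ => ∫ w in Set.Ioc 0 U, ee c u κ r w) hFm hFi
  set G : ℂ → ℂ := fun s : ℂ => ∫ v in Set.Ioi (0 : ℝ),
    ((∫ w in Set.Ioc 0 v, ee c u κ r w : ℝ) : ℂ) * Complex.exp (-(s * v)) with hG
  set R : ℂ → ℂ := fun s : ℂ => s ^ r * Complex.exp (r * Real.eulerMascheroniConstant - κ -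
    s ^ 2 * G s) with hR
  have hopen : IsOpen {z : ℂ | 0 < z.re} := isOpen_lt continuous_const Complex.continuous_re
  have hopena : IsOpen {z : ℂ | a < z.re} := isOpen_lt continuous_const Complex.continuous_re
  have hconv : IsPreconnected {z : ℂ | 0 < z.re} :=
    (convex_halfSpace_re_gt 0).isPreconnected
  have hRd : DifferentiableOn ℂ R {s : ℂ | 0 < s.re} := by
    have h1 : DifferentiableOn ℂ (fun s : ℂ => s ^ 2 * G s) {s : ℂ | 0 < s.re} :=
      (differentiableOn_id.pow 2).mul hd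
    have h2 : DifferentiableOn ℂ (fun s : ℂ => (r * Real.eulerMascheroniConstant - κ : ℂ) -
      s ^ 2 * G s) {s : ℂ | 0 < s.re} := h1.const_sub _
    exact (differentiableOn_id.pow r).mul h2.cexp
  have hLa : AnalyticOnNhd ℂ L {s : ℂ | 0 < s.re} := fun z _ => H.Lent.analyticAt z
  have hRa : AnalyticOnNhd ℂ R {s : ℂ | 0 < s.re} := hRd.analyticOnNhd hopen
  have ha1 := H.apos
  have hmem : ((a + 1 : ℝ) : ℂ) ∈ {z : ℂ | a < z.re} := by
    show a < ((a + 1 : ℝ) : ℂ).re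
    rw [Complex.ofReal_re]
    linarith
  have hmem0 : ((a + 1 : ℝ) : ℂ) ∈ {z : ℂ | 0 < z.re} := by
    show 0 < ((a + 1 : ℝ) : ℂ).re
    rw [Complex.ofReal_re]
    linarith
  have heq : ∀ z : ℂ, a < z.re → L z = R z := by
    intro z hz
    have hz0 : 0 < z.re := by linarith
    have hzne : z ≠ 0 := by
      rintro rfl
      simp at hz0
    have h1 := Ces_fub (ee c u κ r) hmeas z hz0 (ee_int H κ r z.re hz)
    have h2 := ee_transform H κ r z hz
    have h3 : z ^ 2 * G z = -Dser c u z + r * ((Real.eulerMascheroniConstant : ℂ) +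
        Complex.log z) - κ := by
      rw [← h2, ← h1, hG]
      ring
    have h4 : (r * Real.eulerMascheroniConstant - κ : ℂ) - z ^ 2 * G z =
        Dser c u z - r * Complex.log z := by
      rw [h3]
      ring
    have h5 : Complex.exp (r * Complex.log z) = z ^ r := by
      rw [Complex.exp_nat_mul, Complex.exp_log hzne]
    show L z = z ^ r * Complex.exp ((r * Real.eulerMascheroniConstant - κ : ℂ) - z ^ 2 * G z)
    rw [h4, Complex.exp_sub, h5, H.LD z hz.le]
    have h6 : z ^ r ≠ 0 := pow_ne_zero r hzne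
    field_simp
  have hev : L =ᶠ[𝓝 ((a + 1 : ℝ) : ℂ)] R := by
    filter_upwards [hopena.mem_nhds hmem] with z hz
    exact heq z hz
  exact hLa.eqOn_of_preconnected_of_eventuallyEq hRa hconv hmem0 hev hs

end BSDC
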