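import Pool.Agent.W_92892c_h19.Defs
import Pool.Agent.W_92892c.PhiBasic

open MeasureTheory Set Filter Topology

namespace BSDC

open BSDS

variable {ι : Type} {c u : ι → ℝ} {a : ℝ} {L : ℂ → ℂ}

theorem Cum_norm (H : Hyp c u a L) (U : ℝ) (i : ι) :
    ‖(if u i ≤ U then c i else 0 : ℝ)‖ ≤
      Real.exp (a * U) * (|c i| * Real.exp (-(a * u i))) := by
  have ha : 0 ≤ a := by linarith [H.apos]
  split_ifs with h
  · rw [Real.norm_eq_abs]
    have h1 : 1 ≤ Real.exp (a * U) * Real.exp (-(a * u i)) := by
      rw [← Real.exp_add]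
      apply Real.one_le_exp
      nlinarith
    calc |c i| = |c i| * 1 := (mul_one _).symm
      _ ≤ |c i| * (Real.exp (a * U) * Real.exp (-(a * u i))) :=
        mul_le_mul_of_nonneg_left h1 (abs_nonneg _)
      _ = _ := by ring
  · rw [norm_zero]
    positivity

/-- `|if u i ≤ U then c i else 0| ≤ e^{aU} |c i| e^{-a u i}` (`H.sm`, `0 < a`). -/
theorem Tc_summable (H : Hyp c u a L) (U : ℝ) :
    Summable (fun i => if u i ≤ U then c i else 0) := by
  exact Summable.of_norm_bounded (H.sm.mul_left (Real.exp (a * U))) (Cum_norm H U)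

/-- The same bound, summed (`tsum_of_norm_bounded`). -/
theorem Tc_abs_le (H : Hyp c u a L) (U : ℝ) : |Tc c u U| ≤ Mc c u a * Real.exp (a * U) := by
  rw [mul_comm]
  exact tsum_of_norm_bounded (H.sm.hasSum.mul_left (Real.exp (a * U))) (Cum_norm H U)

/-- No `i` has `u i < 1/2`. -/
theorem Tc_zero (H : Hyp c u a L) (U : ℝ) (hU : U < 1 / 2) : Tc c u U = 0 := by
  unfold Tc
  have h : ∀ i, (if u i ≤ U then c i else 0) = 0 := by
    intro i
    rw [if_neg]
    intro h1
    linarith [H.upos i]
  simp only [h, tsum_zero]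

/-- Each term is measurable in `U` and `ι` is countable (`H.cnt`): see `PhiBasic_tsum_meas` in
`Pool.Agent.W_92892c.PhiBasic` (import it). -/
theorem Tc_meas (H : Hyp c u a L) : Measurable (Tc c u) := by
  have : Countable ι := H.cnt
  apply PhiBasic_tsum_meas (fun i U => if u i ≤ U then c i else 0)
  intro i
  exact Measurable.ite measurableSet_Ici measurable_const measurable_const

/-- `Tc` is continuous at every `U` outside the countable set `{u i}`
(`Set.Countable.ae_notMem`): for `V` in `(U-1, U+1)` the terms are bounded by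
`e^{a(U+1)} |c i| e^{-a u i}` and each term is eventually constant as `V → U`
(`tendsto_tsum_of_dominated_convergence`). -/
theorem Tc_cont (H : Hyp c u a L) :
    ∀ᵐ U ∂(volume.restrict (Ioi (0 : ℝ))), ContinuousAt (Tc c u) U := by
  have : Countable ι := H.cnt
  have ha : 0 ≤ a := by linarith [H.apos]
  refine ae_restrict_of_ae ?_
  filter_upwards [(Set.countable_range u).ae_notMem volume] with U hU
  unfold ContinuousAt
  apply tendsto_tsum_of_dominated_convergence (H.sm.mul_left (Real.exp (a * (U + 1))))
  · intro i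
    have hne : u i ≠ U := fun h => hU ⟨i, h⟩
    rcases lt_or_gt_of_ne hne with h | h
    · refine Tendsto.congr' ?_ tendsto_const_nhds
      filter_upwards [lt_mem_nhds h] with V hV
      rw [if_pos h.le, if_pos hV.le]
    · refine Tendsto.congr' ?_ tendsto_const_nhds
      filter_upwards [gt_mem_nhds h] with V hV
      rw [if_neg (not_le.2 h), if_neg (not_le.2 hV)]
  · filter_upwards [gt_mem_nhds (show U < U + 1 by linarith)] with V hV
    intro i
    refine (Cum_norm H V i).trans ?_
    refine mul_le_mul_of_nonneg_right (Real.exp_le_exp.2 ?_) (by positivity)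
    exact mul_le_mul_of_nonneg_left hV.le ha

end BSDC
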