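import Pool.Agent.W_92892c_h19.Cum

open MeasureTheory Set Filter Topology

namespace BSDC

open BSDS

variable {ι : Type} {c u : ι → ℝ} {a : ℝ} {L : ℂ → ℂ}

/-- `Tc_abs_le`, `Tc_meas`: the integrand is at most `Mc e^{-(σ-a)v}`. -/
theorem Tc_int (H : Hyp c u a L) (σ : ℝ) (hσ : a < σ) :
    IntegrableOn (fun v : ℝ => Tc c u v * Real.exp (-(σ * v))) (Ioi 0) := by
  have h1 : IntegrableOn (fun v : ℝ => Mc c u a * Real.exp (-(σ - a) * v)) (Ioi 0) :=
    (integrableOn_exp_mul_Ioi (by linarith) 0).const_mul _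
  refine Integrable.mono' h1 ?_ ?_
  · exact ((Tc_meas H).mul (by fun_prop)).aestronglyMeasurable
  · refine Eventually.of_forall fun v => ?_
    rw [norm_mul, Real.norm_eq_abs, Real.norm_eq_abs, Real.abs_exp]
    refine (mul_le_mul_of_nonneg_right (Tc_abs_le H v) (Real.exp_pos _).le).trans ?_
    rw [mul_assoc, ← Real.exp_add]
    have e : a * v + -(σ * v) = -(σ - a) * v := by ring
    rw [e]

theorem CumL_ind (s : ℂ) (i : ι) (v : ℝ) :
    ((if u i ≤ v then c i else 0 : ℝ) : ℂ) * Complex.exp (-(s * v)) =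
      (Ici (u i)).indicator (fun v : ℝ => (c i : ℂ) * Complex.exp (-s * v)) v := by
  by_cases h : u i ≤ v
  · rw [if_pos h, indicator_of_mem (mem_Ici.2 h), neg_mul]
  · rw [if_neg h, indicator_of_notMem (fun h1 => h (mem_Ici.1 h1)), Complex.ofReal_zero, zero_mul]

theorem CumL_inter (H : Hyp c u a L) (i : ι) : Ioi (0 : ℝ) ∩ Ici (u i) = Ici (u i) := by
  apply inter_eq_right.2
  intro v hv
  have h1 := H.upos i
  have h2 := mem_Ici.1 hv
  exact mem_Ioi.2 (by linarith)

theorem CumL_int (H : Hyp c u a L) (s : ℂ) (hs : a < s.re) (i : ι) :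
    Integrable (fun v : ℝ => ((if u i ≤ v then c i else 0 : ℝ) : ℂ) * Complex.exp (-(s * v)))
      (volume.restrict (Ioi 0)) := by
  have ha := H.apos
  have h0 : (-s).re < 0 := by
    rw [Complex.neg_re]
    linarith
  have h1 : IntegrableOn (fun v : ℝ => (c i : ℂ) * Complex.exp (-s * v)) (Ici (u i)) := by
    rw [integrableOn_Ici_iff_integrableOn_Ioi]
    exact (integrableOn_exp_mul_complex_Ioi h0 (u i)).const_mul _
  have h2 : (fun v : ℝ => ((if u i ≤ v then c i else 0 : ℝ) : ℂ) * Complex.exp (-(s * v))) =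
      (Ici (u i)).indicator (fun v : ℝ => (c i : ℂ) * Complex.exp (-s * v)) := by
    funext v
    exact CumL_ind s i v
  rw [h2]
  exact ((integrable_indicator_iff measurableSet_Ici).2 h1).restrict

theorem CumL_val (H : Hyp c u a L) (s : ℂ) (hs : a < s.re) (i : ι) :
    ∫ v in Ioi (0 : ℝ), ((if u i ≤ v then c i else 0 : ℝ) : ℂ) * Complex.exp (-(s * v)) =
      (c i : ℂ) * Complex.exp (-((u i : ℂ) * s)) / s := by
  have ha := H.apos
  have h0 : (-s).re < 0 := by
    rw [Complex.neg_re]
    linarith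
  simp only [CumL_ind]
  rw [setIntegral_indicator measurableSet_Ici, CumL_inter H, integral_Ici_eq_integral_Ioi,
    integral_const_mul, integral_exp_mul_complex_Ioi h0 (u i)]
  have e : -s * (u i : ℂ) = -((u i : ℂ) * s) := by ring
  rw [e, neg_div_neg_eq, mul_div_assoc]

theorem CumL_norm (H : Hyp c u a L) (s : ℂ) (hs : a < s.re) (i : ι) :
    ∫ v in Ioi (0 : ℝ), ‖((if u i ≤ v then c i else 0 : ℝ) : ℂ) * Complex.exp (-(s * v))‖ =
      |c i| * Real.exp (-(u i * s.re)) / s.re := by
  have ha := H.apos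
  have h0 : -s.re < 0 := by linarith
  simp only [CumL_ind, norm_indicator_eq_indicator_norm]
  rw [setIntegral_indicator measurableSet_Ici, CumL_inter H, integral_Ici_eq_integral_Ioi]
  have h1 : ∀ v : ℝ, ‖(c i : ℂ) * Complex.exp (-s * v)‖ = |c i| * Real.exp (-s.re * v) := by
    intro v
    rw [norm_mul, Complex.norm_real, Real.norm_eq_abs, Complex.norm_exp]
    congr 2
    simp
  simp only [h1]
  rw [integral_const_mul, integral_exp_mul_Ioi h0 (u i)]
  have e : -s.re * u i = -(u i * s.re) := by ring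
  rw [e, neg_div_neg_eq, mul_div_assoc]

/-- Sum and integral are interchanged (`H.cnt`; `hasSum_integral_of_summable_integral_norm` or
`integral_tsum`): `∫_0^∞ (if u i ≤ v then c i else 0) e^{-sv} dv = c i ∫_{u i}^∞ e^{-sv} dv
= c i e^{-s u i}/s`, with absolute value integral `|c i| e^{-Re s u i}/Re s`, summable by `H.sm`. -/
theorem Tc_laplace (H : Hyp c u a L) (s : ℂ) (hs : a < s.re) :
    ∫ v in Ioi (0 : ℝ), (Tc c u v : ℂ) * Complex.exp (-(s * v)) = Dser c u s / s := by
  have : Countable ι := H.cnt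
  have ha := H.apos
  have hsum : Summable (fun i => ∫ v in Ioi (0 : ℝ),
      ‖((if u i ≤ v then c i else 0 : ℝ) : ℂ) * Complex.exp (-(s * v))‖) := by
    simp only [CumL_norm H s hs]
    have h0 : 0 < s.re := by linarith
    refine Summable.of_nonneg_of_le (fun i => by positivity) (fun i => ?_)
      (H.sm.mul_left (1 / s.re))
    · have h1 : Real.exp (-(u i * s.re)) ≤ Real.exp (-(a * u i)) := by
        apply Real.exp_le_exp.2
        have := H.upos i
        nlinarith
      have h2 : 0 < s.re := by linarith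
      rw [div_mul_eq_mul_div, one_mul]
      exact div_le_div_of_nonneg_right (mul_le_mul_of_nonneg_left h1 (abs_nonneg _)) h2.le
  have h1 := hasSum_integral_of_summable_integral_norm (μ := volume.restrict (Ioi (0 : ℝ)))
    (F := fun (i : ι) (v : ℝ) =>
      ((if u i ≤ v then c i else 0 : ℝ) : ℂ) * Complex.exp (-(s * v)))
    (fun i => CumL_int H s hs i) hsum
  simp only [CumL_val H s hs] at h1
  have h2 : ∀ v : ℝ, ∑' i, ((if u i ≤ v then c i else 0 : ℝ) : ℂ) * Complex.exp (-(s * v)) =
      (Tc c u v : ℂ) * Complex.exp (-(s * v)) := by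
    intro v
    rw [tsum_mul_right, ← Complex.ofReal_tsum]
    rfl
  simp only [h2] at h1
  rw [← h1.tsum_eq]
  unfold Dser
  rw [tsum_div_const]

end BSDC
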