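import Pool.Agent.W_92892c_h19.CumL
import Pool.Agent.W_3283e1_h53.Er

open MeasureTheory Set Filter Topology

namespace BSDC

open BSDS W3283g

variable {ι : Type} {c u : ι → ℝ} {a : ℝ} {L : ℂ → ℂ}

theorem Ee_norm_exp (s : ℂ) (u : ℝ) : ‖Complex.exp (-(s * u))‖ = Real.exp (-(s.re * u)) := by
  rw [Complex.norm_exp]
  congr 1
  simp

theorem Ee_Tc_int (H : Hyp c u a L) (s : ℂ) (hs : a < s.re) :
    IntegrableOn (fun v : ℝ => (Tc c u v : ℂ) * Complex.exp (-(s * v))) (Ioi 0) := by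
  refine Integrable.mono' (Tc_int H s.re hs).norm ?_ ?_
  · have h2 : Measurable fun v : ℝ => (Tc c u v : ℂ) :=
      Complex.measurable_ofReal.comp (Tc_meas H)
    have h3 : Measurable fun v : ℝ => Complex.exp (-(s * v)) := by
      have : Continuous fun v : ℝ => Complex.exp (-(s * v)) := by fun_prop
      exact this.measurable
    exact (h2.mul h3).aestronglyMeasurable
  · refine Eventually.of_forall fun v => le_of_eq ?_
    rw [norm_mul, Ee_norm_exp, Complex.norm_real, norm_mul, Real.norm_eq_abs (Real.exp _),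
      Real.abs_exp]

theorem Ee_eq (κ : ℝ) (r : ℕ) (s : ℂ) :
    (fun v : ℝ => (ee c u κ r v : ℂ) * Complex.exp (-(s * v))) =
      fun v : ℝ => -((Tc c u v : ℂ) * Complex.exp (-(s * v))) -
        (κ : ℂ) * Complex.exp (-(s * v)) -
          (r : ℂ) * ((Real.log v : ℂ) * Complex.exp (-(s * v))) := by
  funext v
  unfold ee
  push_cast
  ring

theorem Ee_vlog (v : ℝ) (hv : 0 < v) : |v * Real.log v| ≤ 1 + v ^ 2 := by
  rw [abs_le]
  constructor
  · have h3 := Real.log_le_sub_one_of_pos (inv_pos.2 hv)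
    rw [Real.log_inv] at h3
    have h4 := mul_le_mul_of_nonneg_left h3 hv.le
    have h5 : v * (v⁻¹ - 1) = 1 - v := by
      field_simp
    rw [h5] at h4
    nlinarith [sq_nonneg v]
  · have h3 := Real.log_le_sub_one_of_pos hv
    have h4 := mul_le_mul_of_nonneg_left h3 hv.le
    nlinarith [sq_nonneg (v - 1)]

theorem ee_meas (H : Hyp c u a L) (κ : ℝ) (r : ℕ) : Measurable (ee c u κ r) := by
  exact ((Tc_meas H).neg.sub_const κ).sub (Real.measurable_log.const_mul _)

/-- `Tc_cont` and continuity of `log` on `(0,∞)`. -/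
theorem ee_cont (H : Hyp c u a L) (κ : ℝ) (r : ℕ) :
    ∀ᵐ U ∂(volume.restrict (Ioi (0 : ℝ))), ContinuousAt (ee c u κ r) U := by
  filter_upwards [Tc_cont H, ae_restrict_mem measurableSet_Ioi] with U h1 h2
  have h3 : (0 : ℝ) < U := h2
  exact (h1.neg.sub continuousAt_const).sub
    (continuousAt_const.mul (Real.continuousAt_log h3.ne'))

/-- `Tc_int` and `W3283g.lap_log` (real part of the complex statement, as in the proof of
`W3283g.er_int`). -/
theorem ee_int (H : Hyp c u a L) (κ : ℝ) (r : ℕ) (σ : ℝ) (hσ : a < σ) :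
    IntegrableOn (fun v : ℝ => ee c u κ r v * Real.exp (-(σ * v))) (Ioi 0) := by
  have ha := H.apos
  have hσ' : a < (σ : ℂ).re := by simpa using hσ
  have hσ0 : 0 < (σ : ℂ).re := by linarith
  have h1 : IntegrableOn (fun v : ℝ => (ee c u κ r v : ℂ) * Complex.exp (-((σ : ℂ) * v)))
      (Ioi 0) := by
    rw [Ee_eq κ r σ]
    exact ((Ee_Tc_int H σ hσ').neg.sub ((Er_exp σ hσ0).1.const_mul _)).sub
      ((lap_log σ hσ0).1.const_mul _)
  have h2 := Integrable.re h1
  refine h2.congr (Eventually.of_forall fun v => ?_)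
  have h3 : (ee c u κ r v : ℂ) * Complex.exp (-((σ : ℂ) * v)) =
      ((ee c u κ r v * Real.exp (-(σ * v)) : ℝ) : ℂ) := by
    push_cast
    rfl
  dsimp only
  rw [h3]
  exact Complex.ofReal_re _

/-- `Tc_laplace`, `∫ e^{-sv} = 1/s`, `W3283g.lap_log`; as `W3283g.er_transform`. -/
theorem ee_transform (H : Hyp c u a L) (κ : ℝ) (r : ℕ) (s : ℂ) (hs : a < s.re) :
    s * ∫ v in Ioi (0 : ℝ), (ee c u κ r v : ℂ) * Complex.exp (-(s * v)) =
      -Dser c u s + r * ((Real.eulerMascheroniConstant : ℂ) + Complex.log s) - κ := by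
  have ha := H.apos
  have hs0 : 0 < s.re := by linarith
  have hsne : s ≠ 0 := by
    rintro rfl
    simp at hs0
  have i1 := (Ee_Tc_int H s hs).neg
  have i2 := (Er_exp s hs0).1.const_mul (κ : ℂ)
  have i3 := (lap_log s hs0).1.const_mul (r : ℂ)
  have h1 : ∫ v in Ioi (0 : ℝ), (ee c u κ r v : ℂ) * Complex.exp (-(s * v)) =
      -(∫ v in Ioi (0 : ℝ), (Tc c u v : ℂ) * Complex.exp (-(s * v))) -
        (κ : ℂ) * (1 / s) -
          (r : ℂ) * (-((Real.eulerMascheroniConstant : ℂ) + Complex.log s) / s) := by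
    rw [← (lap_log s hs0).2, ← (Er_exp s hs0).2, ← integral_const_mul, ← integral_const_mul,
      ← integral_neg, Ee_eq κ r s]
    have h2 : ∫ v in Ioi (0 : ℝ), -((Tc c u v : ℂ) * Complex.exp (-(s * v))) -
        (κ : ℂ) * Complex.exp (-(s * v)) = (∫ v in Ioi (0 : ℝ),
          -((Tc c u v : ℂ) * Complex.exp (-(s * v)))) -
          ∫ v in Ioi (0 : ℝ), (κ : ℂ) * Complex.exp (-(s * v)) := integral_sub i1 i2
    rw [← h2]
    exact integral_sub (i1.sub i2) i3
  rw [h1, Tc_laplace H s hs]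
  field_simp
  ring

/-- Locally integrable: `W3283g.Ces_loc`-type argument (from `ee_int` with `σ = a + 1`,
multiplying by the bounded `e^{σv}` on `(0,U]`). -/
theorem ee_loc (H : Hyp c u a L) (κ : ℝ) (r : ℕ) (U : ℝ) :
    IntegrableOn (ee c u κ r) (Ioc 0 U) := by
  have ha := H.apos
  have h1 := (ee_int H κ r (a + 1) (by linarith)).mono_set (s := Ioc 0 U) Ioc_subset_Ioi_self
  refine Integrable.mono' (h1.norm.const_mul (Real.exp ((a + 1) * U)))
    (ee_meas H κ r).aestronglyMeasurable ?_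
  filter_upwards [ae_restrict_mem measurableSet_Ioc] with v hv
  rw [norm_mul, Real.norm_eq_abs (Real.exp _), Real.abs_exp, mul_left_comm, ← Real.exp_add]
  have h2 : 1 ≤ Real.exp ((a + 1) * U + -((a + 1) * v)) := by
    apply Real.one_le_exp
    nlinarith [hv.2]
  calc ‖ee c u κ r v‖ = ‖ee c u κ r v‖ * 1 := (mul_one _).symm
    _ ≤ _ := mul_le_mul_of_nonneg_left h2 (norm_nonneg _)

/-- `|v ee(v)| ≤ v (Mc e^{aU} + |κ|) + r |v log v|` is bounded on `(0,U]` (`|v log v| ≤ 1 + v²`, from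
`Real.log_le_sub_one_of_pos` for `v` and `1/v`), measurable. -/
theorem ee_loc2 (H : Hyp c u a L) (κ : ℝ) (r : ℕ) (U : ℝ) :
    IntegrableOn (fun v : ℝ => (v * ee c u κ r v) ^ 2) (Ioc 0 U) := by
  have ha := H.apos
  have hM := Mc_nonneg H
  refine Measure.integrableOn_of_bounded (M := (U * (Mc c u a * Real.exp (a * U) + |κ|) +
    r * (1 + U ^ 2)) ^ 2) measure_Ioc_lt_top.ne
    ((measurable_id.mul (ee_meas H κ r)).pow_const 2).aestronglyMeasurable ?_
  filter_upwards [ae_restrict_mem measurableSet_Ioc] with v hv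
  have hv0 : 0 < v := hv.1
  have hvU : v ≤ U := hv.2
  have h1 := Tc_abs_le H v
  have h2 : Real.exp (a * v) ≤ Real.exp (a * U) :=
    Real.exp_le_exp.2 (mul_le_mul_of_nonneg_left hvU (by linarith))
  have h3 : |Tc c u v| ≤ Mc c u a * Real.exp (a * U) :=
    h1.trans (mul_le_mul_of_nonneg_left h2 hM)
  have h4 := Ee_vlog v hv0
  have h5 : v ^ 2 ≤ U ^ 2 := pow_le_pow_left₀ hv0.le hvU 2
  have h6 : |v * ee c u κ r v| ≤ U * (Mc c u a * Real.exp (a * U) + |κ|) + r * (1 + U ^ 2) := by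
    have e : v * ee c u κ r v = -(v * Tc c u v) - v * κ - r * (v * Real.log v) := by
      unfold ee
      ring
    rw [e]
    have k1 : |v * Tc c u v| ≤ U * (Mc c u a * Real.exp (a * U)) := by
      rw [abs_mul, abs_of_pos hv0]
      exact mul_le_mul hvU h3 (abs_nonneg _) (by linarith)
    have k2 : |v * κ| ≤ U * |κ| := by
      rw [abs_mul, abs_of_pos hv0]
      exact mul_le_mul_of_nonneg_right hvU (abs_nonneg _)
    have k3 : |(r : ℝ) * (v * Real.log v)| ≤ r * (1 + U ^ 2) := by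
      rw [abs_mul, abs_of_nonneg (Nat.cast_nonneg r)]
      exact mul_le_mul_of_nonneg_left (by linarith) (Nat.cast_nonneg r)
    have k4 := abs_sub (-(v * Tc c u v) - v * κ) ((r : ℝ) * (v * Real.log v))
    have k5 := abs_sub (-(v * Tc c u v)) (v * κ)
    rw [abs_neg] at k5
    linarith
  show ‖(v * ee c u κ r v) ^ 2‖ ≤ _
  rw [norm_pow, Real.norm_eq_abs]
  exact pow_le_pow_left₀ (abs_nonneg _) h6 2

end BSDC
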