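import Pool.Agent.W_3283e1_h53.GrAll
import Pool.Agent.W_MP_3283e1_h19.FinH

open MeasureTheory Set Filter Topology

namespace BSDC

open W3283e1 W3283f W3283g

/-- `W3283f.Lk_exists` with polynomial growth instead of the last claims (copy its proof):
`L s = LG (aFam n j) (kF n j) s * ∏ fL (alF n j p) p s` over the odd primes `p ∣ k`, `p ∤ n`.
`W3283g.LG_grow` bounds `LG` by `C (2 + ‖s‖)^3` for `Re s ≥ -1/2`, and
`‖fL α p s‖ ≤ (1 + ‖α‖ p^{-Re s})² ≤ 4` for `Re s ≥ 4/5` (`norm_alF`, `‖α‖ = √p`; cf.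
`W3283g.uF_bd`, `W3283g.Low_x`). -/
theorem Lk_grow (k : ℕ) (hk : 0 < k) (c : ℤ) (hc : c = 1 ∨ c = -1) :
    ∃ L : ℂ → ℂ, Differentiable ℂ L ∧
      (∀ s : ℂ, 3 / 2 < s.re → HasProd (fun p : {p : ℕ // p.Prime ∧ ¬ p ∣ 2 * k} =>
        (1 - ((p : ℂ) + 1 - (npts (c * k ^ 2) 0 p : ℂ)) * (p : ℂ) ^ (-s)
          + (p : ℂ) ^ (1 - 2 * s))⁻¹) (L s)) ∧
      ∃ (K : ℝ) (n : ℕ), ∀ s : ℂ, 4 / 5 ≤ s.re → ‖L s‖ ≤ K * (2 + ‖s‖) ^ n := by
  classical
  obtain ⟨n, f, i, hn, hs, hi, hkf⟩ := k_form k hk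
  obtain ⟨j, hj, hj'⟩ : ∃ j : ℕ, ((c = -1 ∧ i = 0 ∧ j = 0) ∨ (c = -1 ∧ i = 1 ∧ j = 1) ∨
      (c = 1 ∧ i = 0 ∧ j = 1) ∨ (c = 1 ∧ i = 1 ∧ j = 0)) ∧ (j = 0 ∨ j = 1) := by
    rcases hc with rfl | rfl <;> rcases hi with rfl | rfl
    · exact ⟨1, by omega, by omega⟩
    · exact ⟨0, by omega, by omega⟩
    · exact ⟨0, by omega, by omega⟩
    · exact ⟨1, by omega, by omega⟩
  have hcount : ∀ p : ℕ, p.Prime → p ≠ 2 → ¬ p ∣ k →
      (npts (c * k ^ 2) 0 p : ℝ) = p + 1 - 2 * (alF n j p).re :=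
    fun p hp h2 hpk => npts_fam n f i k c j hn hkf hk hj p hp h2 hpk
  have hnk : n ∣ k := by
    rw [hkf]
    exact Dvd.dvd.mul_right (Dvd.intro_left _ rfl) _
  have hT := thData_fam n j hj' hn hs
  set D : Finset ℕ := k.primeFactors.erase 2 with hD
  have hmemD : ∀ p, p ∈ D ↔ p.Prime ∧ p ≠ 2 ∧ p ∣ k := by
    intro p
    rw [hD, Finset.mem_erase, Nat.mem_primeFactors]
    constructor
    · rintro ⟨h1, h2, h3, -⟩
      exact ⟨h2, h1, h3⟩
    · rintro ⟨h1, h2, h3⟩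
      exact ⟨h2, h1, h3, hk.ne'⟩
  have hnD : n.primeFactors ⊆ D := by
    intro p hp
    have hpp := Nat.prime_of_mem_primeFactors hp
    have hdvd := Nat.dvd_of_mem_primeFactors hp
    rw [hmemD]
    refine ⟨hpp, ?_, hdvd.trans hnk⟩
    rintro rfl
    exact (Nat.not_even_iff_odd.2 hn) (even_iff_two_dvd.2 hdvd)
  have hfne : ∀ p ∈ D, ∀ s : ℂ, 3 / 4 < s.re → fL (alF n j p) p s ≠ 0 := by
    intro p hp s h3
    obtain ⟨h1, h2, -⟩ := (hmemD p).1 hp
    exact fL_ne _ p h1 (norm_alF n j p h1 h2) s h3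
  set v : ℂ → ℂ := fun s => ∏ p ∈ D, fL (alF n j p) p s with hv
  set w : ℂ → ℂ := fun s => ∏ p ∈ D \ n.primeFactors, fL (alF n j p) p s with hw
  have hfan : ∀ p ∈ D, ∀ s : ℂ, AnalyticAt ℂ (fL (alF n j p) p) s :=
    fun p hp s => fL_an _ p ((hmemD p).1 hp).1 s
  have hwan : ∀ s : ℂ, AnalyticAt ℂ w s := by
    intro s
    exact Finset.analyticAt_fun_prod _ fun p hp => hfan p (Finset.sdiff_subset hp) s
  have huv : ∀ s : ℂ, 3 / 4 < s.re → uF n j s * v s = w s := by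
    intro s h3
    have h1 : w s * ∏ p ∈ n.primeFactors, fL (alF n j p) p s = v s :=
      Finset.prod_sdiff hnD
    rw [← h1]
    unfold uF
    rw [Finset.prod_inv_distrib]
    have h2 : ∏ p ∈ n.primeFactors, fL (alF n j p) p s ≠ 0 := by
      rw [Finset.prod_ne_zero_iff]
      intro p hp
      exact hfne p (hnD hp) s h3
    field_simp
  have hLv : ∀ s : ℂ, 3 / 4 < s.re →
      LG (aFam n j) (kF n j) s * w s = LLF n j s * v s := by
    intro s h3
    unfold LLF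
    rw [mul_assoc, huv s h3]
  obtain ⟨C, hC, hgr⟩ := LG_grow _ _ _ hT
  refine ⟨fun s => LG (aFam n j) (kF n j) s * w s, ?_, ?_, C * 4 ^ (D \ n.primeFactors).card, 3, ?_⟩
  · intro s
    exact (LG_diff _ _ _ hT s).mul (hwan s).differentiableAt
  · intro s h3
    have h34 : 3 / 4 < s.re := by linarith
    show HasProd _ (LG (aFam n j) (kF n j) s * w s)
    rw [hLv s h34]
    have h5 : HasProd (fun p : OP => (fL (alF n j p) p s)⁻¹) (LLF n j s) := by
      have h4 := euler_full n j hn s h3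
      rw [← (LG_eq _ _ _ hT s h3).2] at h4
      exact h4
    -- the finite correction
    let T : Finset OP := D.attach.image (fun p => ⟨p.1, ((hmemD p.1).1 p.2).1,
      ((hmemD p.1).1 p.2).2.1⟩)
    have hT' : ∀ p : OP, p ∈ T ↔ (p : ℕ) ∣ k := by
      intro p
      constructor
      · intro h
        obtain ⟨q, _, hq⟩ := Finset.mem_image.1 h
        rw [← hq]
        exact ((hmemD q.1).1 q.2).2.2
      · intro h
        exact Finset.mem_image.2 ⟨⟨p.1, (hmemD p.1).2 ⟨p.2.1, p.2.2, h⟩⟩,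
          Finset.mem_attach _ _, rfl⟩
    have h6 : HasProd (fun p : OP => (if (p : ℕ) ∣ k then fL (alF n j p) p s else 1)) (v s) := by
      have h7 : HasProd (fun p : OP => (if (p : ℕ) ∣ k then fL (alF n j p) p s else 1))
          (∏ p ∈ T, (if (p : ℕ) ∣ k then fL (alF n j p) p s else 1)) := by
        refine hasProd_prod_of_ne_finset_one ?_
        intro p hp
        rw [if_neg]
        intro h
        exact hp ((hT' p).2 h)
      have h8 : (∏ p ∈ T, (if (p : ℕ) ∣ k then fL (alF n j p) p s else 1)) = v s := by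
        rw [hv]
        show _ = ∏ p ∈ D, fL (alF n j p) p s
        rw [← Finset.prod_attach D]
        rw [Finset.prod_image]
        · refine Finset.prod_congr rfl ?_
          intro q _
          rw [if_pos]
          exact ((hmemD q.1).1 q.2).2.2
        · intro a _ b _ hab
          apply Subtype.ext
          exact congrArg (fun q : OP => (q : ℕ)) hab
      rw [← h8]
      exact h7
    have h9 := h5.mul h6
    let g : {p : ℕ // p.Prime ∧ ¬ p ∣ 2 * k} → OP := fun p =>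
      ⟨p.1, p.2.1, fun h => p.2.2 (by rw [h]; exact Dvd.intro _ rfl)⟩
    have hg : Function.Injective g := by
      intro a b hab
      apply Subtype.ext
      exact congrArg (fun q : OP => (q : ℕ)) hab
    rw [← hg.hasProd_iff] at h9
    · refine h9.congr_fun ?_
      intro p
      have hp2 : (p : ℕ) ≠ 2 := fun h => p.2.2 (by rw [h]; exact Dvd.intro _ rfl)
      have hpk : ¬ (p : ℕ) ∣ k := fun h => p.2.2 (Dvd.dvd.mul_left h 2)
      show _ = (fL (alF n j (p : ℕ)) (p : ℕ) s)⁻¹ * (if (p : ℕ) ∣ k then _ else 1)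
      rw [if_neg hpk, mul_one,
        finH_factor (alF n j (p : ℕ)) (p : ℕ) p.2.1 (norm_alF n j _ p.2.1 hp2) _
          (hcount p p.2.1 hp2 hpk) s]
    · intro p hp
      have hpk : (p : ℕ) ∣ k := by
        by_contra h
        apply hp
        refine ⟨⟨p.1, p.2.1, ?_⟩, rfl⟩
        rw [p.2.1.dvd_mul]
        rintro (h' | h')
        · exact p.2.2 ((Nat.prime_dvd_prime_iff_eq p.2.1 Nat.prime_two).1 h')
        · exact h h'
      have hf := hfne p ((hmemD _).2 ⟨p.2.1, p.2.2, hpk⟩) s h34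
      rw [if_pos hpk]
      exact inv_mul_cancel₀ hf
  · intro s h45
    show ‖LG (aFam n j) (kF n j) s * w s‖ ≤ _
    rw [norm_mul]
    have h1 := hgr s (by linarith)
    have h2 : ‖w s‖ ≤ 4 ^ (D \ n.primeFactors).card := by
      rw [hw]
      show ‖∏ p ∈ D \ n.primeFactors, fL (alF n j p) p s‖ ≤ _
      rw [norm_prod, ← Finset.prod_const]
      refine Finset.prod_le_prod (fun p _ => norm_nonneg _) fun p hp => ?_
      obtain ⟨h1, h2, -⟩ := (hmemD p).1 (Finset.sdiff_subset hp)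
      exact (Low_fL h1 (norm_alF n j p h1 h2) h45).2
    calc ‖LG (aFam n j) (kF n j) s‖ * ‖w s‖
        ≤ (C * (2 + ‖s‖) ^ 3) * 4 ^ (D \ n.primeFactors).card :=
          mul_le_mul h1 h2 (norm_nonneg _) (by positivity)
      _ = C * 4 ^ (D \ n.primeFactors).card * (2 + ‖s‖) ^ 3 := by ring

end BSDC
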