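import Pool.Agent.W_92892c_h19.Defs
import Pool.Agent.W_92892c_h19.Fam1

open MeasureTheory Set Filter Topology

namespace BSDC

open BSDS

/-- The integral Weierstrass equation `y² = x³ + c k² x`. -/
def cgn (c : ℤ) (k : ℕ) : WeierstrassCurve ℤ := ⟨0, 0, 0, c * (k : ℤ) ^ 2, 0⟩

theorem Fam2_npts (c : ℤ) (k p : ℕ) :
    npts (cgn c k) p = 1 + Nat.card {P : ZMod p × ZMod p //
      P.2 ^ 2 = P.1 ^ 3 + ((c * (k : ℤ) ^ 2 : ℤ) : ZMod p) * P.1} := by
  unfold npts
  congr 1
  apply Nat.card_congr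
  apply Equiv.subtypeEquivRight
  intro P
  rw [WeierstrassCurve.Affine.equation_iff]
  simp [cgn]

theorem Fam2_disc (c : ℤ) (k : ℕ) : (cgn c k).Δ = -64 * c ^ 3 * (k : ℤ) ^ 6 := by
  simp only [WeierstrassCurve.Δ, WeierstrassCurve.b₂, WeierstrassCurve.b₄, WeierstrassCurve.b₆,
    WeierstrassCurve.b₈, cgn]
  ring

/-- The cuspidal cubic has `p` affine points. -/
theorem Fam2_cusp (p : ℕ) [Fact p.Prime] :
    Nat.card {P : ZMod p × ZMod p // P.2 ^ 2 = P.1 ^ 3} = p := by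
  have h : Function.Bijective (fun t : ZMod p =>
      (⟨(t ^ 2, t ^ 3), by ring⟩ : {P : ZMod p × ZMod p // P.2 ^ 2 = P.1 ^ 3})) := by
    constructor
    · intro t s hts
      simp only [Subtype.mk.injEq, Prod.mk.injEq] at hts
      obtain ⟨h2, h3⟩ := hts
      by_cases hs : s = 0
      · subst hs
        rw [zero_pow two_ne_zero] at h2
        exact pow_eq_zero_iff two_ne_zero |>.1 h2
      · have h4 : s ^ 2 * t = s ^ 2 * s := by
          calc s ^ 2 * t = t ^ 2 * t := by rw [h2]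
            _ = t ^ 3 := by ring
            _ = s ^ 3 := h3
            _ = s ^ 2 * s := by ring
        exact mul_left_cancel₀ (pow_ne_zero 2 hs) h4
    · rintro ⟨⟨x, y⟩, hxy⟩
      simp only at hxy
      by_cases hx : x = 0
      · subst hx
        rw [zero_pow three_ne_zero] at hxy
        have hy : y = 0 := pow_eq_zero_iff two_ne_zero |>.1 hxy
        subst hy
        refine ⟨0, ?_⟩
        simp
      · refine ⟨y / x, ?_⟩
        simp only [Subtype.mk.injEq, Prod.mk.injEq]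
        have h1 : (y / x) ^ 2 = x := by
          rw [div_pow, hxy]
          field_simp
        refine ⟨h1, ?_⟩
        rw [pow_succ, h1]
        field_simp
  rw [← Nat.card_congr (Equiv.ofBijective _ h), Nat.card_zmod]

theorem Fam2_two : Nat.card {P : ZMod 2 × ZMod 2 // P.2 ^ 2 = P.1 ^ 3 + 1 * P.1} = 2 := by
  rw [Nat.card_eq_fintype_card]
  decide

/-- Both count the solutions of `y² = x³ + c k² x` mod `p`, plus one (`W3283e1.npts` in
`Pool.Agent.W_MP_3283e1_nt.Defs`; `WeierstrassCurve.Affine.equation_iff`). -/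
theorem npts_cgn (c : ℤ) (k p : ℕ) (hp : p.Prime) :
    npts (cgn c k) p = W3283e1.npts (c * k ^ 2) 0 p := by
  classical
  have : Fact p.Prime := ⟨hp⟩
  rw [Fam2_npts, W3283e1.npts, add_comm]
  congr 1
  rw [Nat.card_eq_fintype_card, Fintype.card_subtype]
  symm
  have key : ∀ x y : ℤ, ((p : ℤ) ∣ y ^ 2 - (x ^ 3 + (c * (k : ℤ) ^ 2) * x + 0)) ↔
      ((y : ZMod p) ^ 2 = (x : ZMod p) ^ 3 + ((c * (k : ℤ) ^ 2 : ℤ) : ZMod p) * (x : ZMod p)) := by
    intro x y
    rw [← ZMod.intCast_zmod_eq_zero_iff_dvd]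
    push_cast
    rw [add_zero]
    exact sub_eq_zero
  refine Finset.card_nbij' (fun q : ℕ × ℕ => ((q.1 : ZMod p), (q.2 : ZMod p)))
    (fun q => (q.1.val, q.2.val)) ?_ ?_ ?_ ?_
  · intro q hq
    rw [Finset.mem_coe, Finset.mem_filter] at hq ⊢
    have h1 := (key _ _).1 hq.2
    rw [Int.cast_natCast, Int.cast_natCast] at h1
    exact ⟨Finset.mem_univ _, h1⟩
  · intro q hq
    rw [Finset.mem_coe, Finset.mem_filter] at hq ⊢
    refine ⟨?_, ?_⟩
    · rw [Finset.mem_product, Finset.mem_range, Finset.mem_range]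
      exact ⟨ZMod.val_lt _, ZMod.val_lt _⟩
    · rw [key, Int.cast_natCast, Int.cast_natCast, ZMod.natCast_zmod_val, ZMod.natCast_zmod_val]
      exact hq.2
  · intro q hq
    rw [Finset.mem_coe, Finset.mem_filter, Finset.mem_product, Finset.mem_range,
      Finset.mem_range] at hq
    exact Prod.ext (ZMod.val_cast_of_lt hq.1.1) (ZMod.val_cast_of_lt hq.1.2)
  · intro q _
    exact Prod.ext (ZMod.natCast_zmod_val _) (ZMod.natCast_zmod_val _)

/-- If `p ∣ 2k` the equation mod `p` is `y² = x³` (for `p ∣ k`), with the `p` solutions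
`(t², t³)`, or (`p = 2`, `k` odd) `y² = x³ + x` over `F_2` with the solutions `(0,0)`, `(1,0)`: so
`npts = p + 1`, `ap = 0`; and `p ∣ Δ = -64 c³ k⁶`, so `ep = 0`; the local factor is `1`. -/
theorem loc_bad (c : ℤ) (hc : c = 1 ∨ c = -1) (k p : ℕ) (hp : p.Prime) (h : p ∣ 2 * k) (s : ℂ) :
    locFactor (cgn c k) p s = 1 := by
  have : Fact p.Prime := ⟨hp⟩
  have hnp : npts (cgn c k) p = 1 + p := by
    rw [Fam2_npts]
    congr 1
    by_cases hk : p ∣ k
    · have h0 : ((c * (k : ℤ) ^ 2 : ℤ) : ZMod p) = 0 := by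
        push_cast
        rw [(ZMod.natCast_eq_zero_iff k p).2 hk]
        ring
      rw [h0]
      simp only [zero_mul, add_zero]
      exact Fam2_cusp p
    · have h2 : p = 2 := by
        rcases (Nat.Prime.dvd_mul hp).1 h with h' | h'
        · exact (Nat.prime_dvd_prime_iff_eq hp Nat.prime_two).1 h'
        · exact absurd h' hk
      subst h2
      have h1 : ((c * (k : ℤ) ^ 2 : ℤ) : ZMod 2) = 1 := by
        push_cast
        have hk1 : (k : ZMod 2) = 1 := by
          rw [ZMod.natCast_eq_one_iff_odd]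
          exact Nat.odd_iff.2 (by omega)
        rw [hk1, one_pow, mul_one]
        rcases hc with rfl | rfl
        · rw [Int.cast_one]
        · rw [Int.cast_neg, Int.cast_one, ZMod.neg_eq_self_mod_two]
      rw [h1]
      exact Fam2_two
  have hap : ap (cgn c k) p = 0 := by
    unfold ap
    rw [hnp]
    push_cast
    ring
  have hep : ep (cgn c k) p = 0 := by
    unfold ep
    rw [if_pos]
    rw [Fam2_disc]
    rcases (Nat.Prime.dvd_mul hp).1 h with h' | h'
    · have h2 : (p : ℤ) ∣ 2 := by exact_mod_cast h'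
      exact h2.trans ⟨-32 * c ^ 3 * (k : ℤ) ^ 6, by ring⟩
    · have h2 : (p : ℤ) ∣ (k : ℤ) := by exact_mod_cast h'
      exact h2.trans ⟨-64 * c ^ 3 * (k : ℤ) ^ 5, by ring⟩
  unfold locFactor
  rw [hap, hep]
  simp

/-- If `p ∤ 2k` then `p ∤ Δ`, `ep = p`, `p^{-2s} p = p^{1-2s}`. -/
theorem loc_good (c : ℤ) (hc : c = 1 ∨ c = -1) (k p : ℕ) (hp : p.Prime) (h : ¬ p ∣ 2 * k) (s : ℂ) :
    locFactor (cgn c k) p s = 1 - ((p : ℂ) + 1 - (W3283e1.npts (c * k ^ 2) 0 p : ℂ)) *
      (p : ℂ) ^ (-s) + (p : ℂ) ^ (1 - 2 * s) := by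
  have hep : ep (cgn c k) p = p := by
    unfold ep
    rw [if_neg]
    rw [Fam2_disc]
    intro hd
    have hpi : Prime (p : ℤ) := Nat.prime_iff_prime_int.1 hp
    have h2k : ¬ (p : ℤ) ∣ 2 * (k : ℤ) := by
      intro h'
      exact h (by exact_mod_cast h')
    have h3 : (p : ℤ) ∣ (2 * (k : ℤ)) ^ 6 := by
      have h4 : (2 * (k : ℤ)) ^ 6 = (-64 * c ^ 3 * (k : ℤ) ^ 6) * (-c) := by
        rcases hc with rfl | rfl
        · ring
        · ring
      rw [h4]
      exact hd.mul_right _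
    exact h2k (hpi.dvd_of_dvd_pow h3)
  unfold locFactor
  rw [hep, ap, npts_cgn c k p hp]
  have hp0 : (p : ℂ) ≠ 0 := Nat.cast_ne_zero.2 hp.ne_zero
  have h1 : (p : ℂ) ^ (1 - 2 * s) = (p : ℂ) * (p : ℂ) ^ (-2 * s) := by
    rw [show (1 - 2 * s : ℂ) = 1 + (-2 * s) by ring, Complex.cpow_add _ _ hp0, Complex.cpow_one]
  rw [h1]
  push_cast
  ring

/-- `Lk_grow`; the partial products over `p < N` of `(locFactor)⁻¹` are the partial products over the
primes not dividing `2k` (`loc_bad`, `loc_good`), which tend to `L s` (`HasProd` along the finite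
sets `{p < N}`, cofinal in the finite subsets of the subtype: `HasProd.comp`-type,
`tendsto_finset_range`-like; or extend by `1` to all of `ℕ` (`hasProd_subtype_iff_mulIndicator`) and
use `HasProd.tendsto_prod_nat`, see the end of the proof of `BSDS.euler_exp`). -/
theorem fam (k : ℕ) (hk : 0 < k) (c : ℤ) (hc : c = 1 ∨ c = -1) :
    ∃ L : ℂ → ℂ, Differentiable ℂ L ∧
      (∀ s : ℂ, 3 / 2 < s.re → Tendsto (fun N : ℕ =>
        ∏ p ∈ (Finset.range N).filter Nat.Prime, (locFactor (cgn c k) p s)⁻¹) atTop (𝓝 (L s))) ∧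
      ∃ (K : ℝ) (n : ℕ), ∀ s : ℂ, 4 / 5 ≤ s.re → ‖L s‖ ≤ K * (2 + ‖s‖) ^ n := by
  classical
  obtain ⟨L, hL, hprod, hgro⟩ := Lk_grow k hk c hc
  refine ⟨L, hL, fun s hs => ?_, hgro⟩
  have h1 := hprod s hs
  set S : Set ℕ := {p : ℕ | p.Prime ∧ ¬ p ∣ 2 * k} with hS
  set f : ℕ → ℂ := fun p => (1 - ((p : ℂ) + 1 - (W3283e1.npts (c * k ^ 2) 0 p : ℂ)) *
    (p : ℂ) ^ (-s) + (p : ℂ) ^ (1 - 2 * s))⁻¹ with hf
  have h2 : HasProd (S.mulIndicator f) (L s) := by
    rw [← hasProd_subtype_iff_mulIndicator]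
    exact h1
  refine h2.tendsto_prod_nat.congr fun N => ?_
  rw [Finset.prod_filter]
  refine Finset.prod_congr rfl fun p _ => ?_
  by_cases hp : p.Prime
  · rw [if_pos hp]
    by_cases hd : p ∣ 2 * k
    · rw [loc_bad c hc k p hp hd s, inv_one]
      exact Set.mulIndicator_of_notMem (fun h' => h'.2 hd) f
    · rw [loc_good c hc k p hp hd s]
      exact Set.mulIndicator_of_mem (show p ∈ S from ⟨hp, hd⟩) f
  · rw [if_neg hp]
    exact Set.mulIndicator_of_notMem (fun h' => hp h'.1) f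

end BSDC
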