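import Pool.Agent.W_92892c_h19.Pt

open MeasureTheory Set Filter Topology

namespace BSDC

open W3283g Complex

/-- The transform of `U ↦ ∫_0^U e - E0`. -/
noncomputable def Hs (Gt : ℂ → ℂ) (κ : ℝ) (r : ℕ) (E0 : ℂ) (s : ℂ) : ℂ := (Et Gt κ r s - E0) / s

/-- `Et` is holomorphic on `Re s > 0` (`EtD_deriv`), `s ≠ 0` there. -/
theorem Hs_diff (Gt : ℂ → ℂ) (κ : ℝ) (r : ℕ) (E0 : ℂ)
    (hGt : DifferentiableOn ℂ Gt {s : ℂ | 0 < s.re}) :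
    DifferentiableOn ℂ (Hs Gt κ r E0) {s : ℂ | 0 < s.re} := by
  intro s hs
  have hs' : 0 < s.re := hs
  have hs0 : s ≠ 0 := by
    rintro rfl
    simp at hs'
  have h1 := ((EtD_deriv Gt κ r hGt s hs').sub_const E0).differentiableAt
  have h2 : DifferentiableAt ℂ (fun z => (Et Gt κ r z - E0) / z) s :=
    h1.div differentiableAt_id hs0
  exact h2.differentiableWithinAt

/-- `Et_pt'` and `‖s‖ ≥ σ`. -/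
theorem Hs_pt (Gt : ℂ → ℂ) (κ : ℝ) (r : ℕ) (E0 : ℂ) (C : ℝ) (hC : 0 < C) (ρ : ℝ) (hρ : 0 < ρ)
    (h1 : ∀ s : ℂ, 0 < s.re → s.re ≤ ρ →
      ‖Gt s‖ ≤ C * Real.log (2 + |s.im|) * (1 + |Real.log s.re|)) (σ : ℝ) (hσ : 0 < σ) :
    ∃ C' : ℝ, ∀ s : ℂ, σ ≤ s.re → s.re ≤ ρ → ‖Hs Gt κ r E0 s‖ ≤ C' * (1 + |s.im|) := by
  obtain ⟨C1, hC1⟩ := Et_pt' Gt κ r C hC ρ hρ h1 σ hσ
  refine ⟨(C1 + ‖E0‖) / σ, fun s hs hs1 => ?_⟩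
  have hE := hC1 s hs hs1
  have hT : 1 ≤ 1 + |s.im| := by linarith [abs_nonneg s.im]
  have hn1 : σ ≤ ‖s‖ := hs.trans (Complex.re_le_norm s)
  have h2 : ‖Et Gt κ r s - E0‖ ≤ (C1 + ‖E0‖) * (1 + |s.im|) := by
    have h3 : ‖Et Gt κ r s - E0‖ ≤ ‖Et Gt κ r s‖ + ‖E0‖ := norm_sub_le _ _
    have h4 : ‖E0‖ ≤ ‖E0‖ * (1 + |s.im|) := le_mul_of_one_le_right (norm_nonneg _) hT
    linarith
  unfold Hs
  rw [_root_.norm_div, div_mul_eq_mul_div]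
  exact div_le_div₀ ((norm_nonneg _).trans h2) h2 hσ hn1

/-- `Et` is bounded near `0`: `‖Et s‖ ≤ ‖E0‖ + ‖s‖ ‖Hs s‖ ≤ ‖E0‖ + δ B`, so `Et_L2` (module EtB)
bounds `∫ ‖Et(σ+it)‖² dt` by `B''` for `σ ≤ σ1`.  For `σ ≤ min σ1 (δ/2)`: where `|t| ≤ δ/2` we have
`‖σ+it‖ ≤ δ` and `‖Hs‖ ≤ B`; where `|t| > δ/2`, `‖Hs‖² ≤ (2 ‖Et‖² + 2 ‖E0‖²)/t²
≤ (8/δ²) ‖Et‖² + 2 ‖E0‖²/t²`, and `∫_{|t| > δ/2} t⁻² dt = 4/δ`. -/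
theorem Hs_L2 (Gt : ℂ → ℂ) (κ : ℝ) (r : ℕ) (E0 : ℂ)
    (hGt : DifferentiableOn ℂ Gt {s : ℂ | 0 < s.re}) (C : ℝ) (hC : 0 < C)
    (h2 : ∀ τ σ : ℝ, 0 < σ → σ ≤ 1 / 32 →
      ∫⁻ t in Set.Icc (τ - 1 / 4) (τ + 1 / 4), ‖Gt ((σ : ℂ) + t * I)‖ₑ ^ 2 ≤
        ENNReal.ofReal (C * (Real.log (2 + |τ|)) ^ 2))
    (δ B : ℝ) (hδ : 0 < δ) (hB : ∀ s : ℂ, 0 < s.re → ‖s‖ ≤ δ → ‖Hs Gt κ r E0 s‖ ≤ B) :
    ∃ σ1 B' : ℝ, 0 < σ1 ∧ ∀ σ : ℝ, 0 < σ → σ ≤ σ1 →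
      ∫⁻ t : ℝ, ‖Hs Gt κ r E0 ((σ : ℂ) + t * I)‖ₑ ^ 2 ≤ ENNReal.ofReal B' := by
  have hEB : ∀ s : ℂ, 0 < s.re → ‖s‖ ≤ δ → ‖Et Gt κ r s‖ ≤ ‖E0‖ + δ * |B| := by
    intro s hs hsδ
    have hs0 : s ≠ 0 := by
      rintro rfl
      simp at hs
    have h3 : Et Gt κ r s = E0 + s * Hs Gt κ r E0 s := by
      unfold Hs
      field_simp
      ring
    rw [h3]
    refine (norm_add_le _ _).trans ?_
    rw [norm_mul]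
    have h4 : ‖Hs Gt κ r E0 s‖ ≤ |B| := (hB s hs hsδ).trans (le_abs_self B)
    have h5 : ‖s‖ * ‖Hs Gt κ r E0 s‖ ≤ δ * |B| :=
      mul_le_mul hsδ h4 (norm_nonneg _) hδ.le
    linarith
  obtain ⟨σ1, B1, hσ1, hB1⟩ := Et_L2 Gt κ r hGt C hC h2 δ (‖E0‖ + δ * |B|) hδ hEB
  obtain ⟨K, hK⟩ : ∃ K : ℝ, K = B ^ 2 * (1 + δ ^ 2) + 2 * ‖E0‖ ^ 2 * (1 + 1 / δ ^ 2) := ⟨_, rfl⟩
  have hK0 : 0 ≤ K := by rw [hK]; positivity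
  have hδ2 : 0 < δ ^ 2 := by positivity
  refine ⟨σ1, 2 / δ ^ 2 * |B1| + ∫ t : ℝ, K * (1 + t ^ 2)⁻¹, hσ1, ?_⟩
  intro σ hσ hσ2
  have hpt : ∀ t : ℝ, ‖Hs Gt κ r E0 ((σ : ℂ) + t * I)‖ₑ ^ 2 ≤
      ENNReal.ofReal (2 / δ ^ 2) * ‖Et Gt κ r ((σ : ℂ) + t * I)‖ₑ ^ 2 +
        ENNReal.ofReal (K * (1 + t ^ 2)⁻¹) := by
    intro t
    obtain ⟨s, hs⟩ : ∃ s : ℂ, s = (σ : ℂ) + t * I := ⟨_, rfl⟩
    have hre : s.re = σ := by rw [hs]; simp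
    have him : s.im = t := by rw [hs]; simp
    rw [← hs]
    rw [← ofReal_norm, ← ofReal_norm, ← ENNReal.ofReal_pow (norm_nonneg _),
      ← ENNReal.ofReal_pow (norm_nonneg _), ← ENNReal.ofReal_mul (by positivity),
      ← ENNReal.ofReal_add (by positivity) (by positivity)]
    apply ENNReal.ofReal_le_ofReal
    have ht1 : t ^ 2 ≤ ‖s‖ ^ 2 := by
      have h3 : |s.im| ≤ ‖s‖ := Complex.abs_im_le_norm s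
      rw [him] at h3
      rw [← sq_abs t]
      exact pow_le_pow_left₀ (abs_nonneg _) h3 2
    have h1t : 0 < 1 + t ^ 2 := by positivity
    have h6 : 0 ≤ 2 / δ ^ 2 * ‖Et Gt κ r s‖ ^ 2 := by positivity
    by_cases hsδ : ‖s‖ ≤ δ
    · have h3 := hB s (by rw [hre]; exact hσ) hsδ
      have h4 : ‖Hs Gt κ r E0 s‖ ^ 2 ≤ B ^ 2 := pow_le_pow_left₀ (norm_nonneg _) h3 2
      have h5 : B ^ 2 ≤ K * (1 + t ^ 2)⁻¹ := by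
        rw [← div_eq_mul_inv, le_div_iff₀ h1t, hK]
        have h7 : t ^ 2 ≤ δ ^ 2 := ht1.trans (pow_le_pow_left₀ (norm_nonneg _) hsδ 2)
        have h8 : B ^ 2 * (1 + t ^ 2) ≤ B ^ 2 * (1 + δ ^ 2) :=
          mul_le_mul_of_nonneg_left (by linarith) (sq_nonneg B)
        have h9 : 0 ≤ 2 * ‖E0‖ ^ 2 * (1 + 1 / δ ^ 2) := by positivity
        linarith
      linarith
    · push Not at hsδ
      have hsp : 0 < ‖s‖ := hδ.trans hsδ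
      have hδs : δ ^ 2 ≤ ‖s‖ ^ 2 := pow_le_pow_left₀ hδ.le hsδ.le 2
      have hs2 : 0 < ‖s‖ ^ 2 := by positivity
      have h3 : ‖Et Gt κ r s - E0‖ ^ 2 ≤ 2 * ‖Et Gt κ r s‖ ^ 2 + 2 * ‖E0‖ ^ 2 := by
        have h4 : ‖Et Gt κ r s - E0‖ ≤ ‖Et Gt κ r s‖ + ‖E0‖ := norm_sub_le _ _
        have h5 := pow_le_pow_left₀ (norm_nonneg _) h4 2
        nlinarith [sq_nonneg (‖Et Gt κ r s‖ - ‖E0‖)]
      have h4 : ‖Hs Gt κ r E0 s‖ ^ 2 = ‖Et Gt κ r s - E0‖ ^ 2 / ‖s‖ ^ 2 := by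
        unfold Hs
        rw [_root_.norm_div, div_pow]
      have h5 : 2 * ‖Et Gt κ r s‖ ^ 2 / ‖s‖ ^ 2 ≤ 2 / δ ^ 2 * ‖Et Gt κ r s‖ ^ 2 := by
        rw [div_mul_eq_mul_div]
        exact div_le_div_of_nonneg_left (by positivity) hδ2 hδs
      have h7 : 2 * ‖E0‖ ^ 2 / ‖s‖ ^ 2 ≤ K * (1 + t ^ 2)⁻¹ := by
        rw [← div_eq_mul_inv, div_le_div_iff₀ hs2 h1t, hK]
        have h8 : 1 + t ^ 2 ≤ (1 + 1 / δ ^ 2) * ‖s‖ ^ 2 := by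
          have h9 : 1 ≤ 1 / δ ^ 2 * ‖s‖ ^ 2 := by
            rw [one_div, ← div_eq_inv_mul, le_div_iff₀ hδ2]
            linarith
          linarith
        have h9 : 2 * ‖E0‖ ^ 2 * (1 + t ^ 2) ≤ 2 * ‖E0‖ ^ 2 * ((1 + 1 / δ ^ 2) * ‖s‖ ^ 2) :=
          mul_le_mul_of_nonneg_left h8 (by positivity)
        have h10 : 0 ≤ B ^ 2 * (1 + δ ^ 2) * ‖s‖ ^ 2 := by positivity
        linarith
      rw [h4]
      have h8 : ‖Et Gt κ r s - E0‖ ^ 2 / ‖s‖ ^ 2 ≤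
          2 * ‖Et Gt κ r s‖ ^ 2 / ‖s‖ ^ 2 + 2 * ‖E0‖ ^ 2 / ‖s‖ ^ 2 := by
        rw [← add_div]
        exact div_le_div_of_nonneg_right h3 hs2.le
      linarith
  have hint : Integrable (fun t : ℝ => K * (1 + t ^ 2)⁻¹) :=
    integrable_inv_one_add_sq.const_mul K
  calc ∫⁻ t : ℝ, ‖Hs Gt κ r E0 ((σ : ℂ) + t * I)‖ₑ ^ 2
      ≤ ∫⁻ t : ℝ, (ENNReal.ofReal (2 / δ ^ 2) * ‖Et Gt κ r ((σ : ℂ) + t * I)‖ₑ ^ 2 +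
        ENNReal.ofReal (K * (1 + t ^ 2)⁻¹)) := lintegral_mono hpt
    _ = ENNReal.ofReal (2 / δ ^ 2) * (∫⁻ t : ℝ, ‖Et Gt κ r ((σ : ℂ) + t * I)‖ₑ ^ 2) +
        ∫⁻ t : ℝ, ENNReal.ofReal (K * (1 + t ^ 2)⁻¹) := by
        rw [lintegral_add_right' _ hint.aestronglyMeasurable.aemeasurable.ennreal_ofReal,
          lintegral_const_mul' _ _ ENNReal.ofReal_ne_top]
    _ ≤ ENNReal.ofReal (2 / δ ^ 2) * ENNReal.ofReal |B1| +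
        ENNReal.ofReal (∫ t : ℝ, K * (1 + t ^ 2)⁻¹) := by
        gcongr
        · exact (hB1 σ hσ hσ2).trans (ENNReal.ofReal_le_ofReal (le_abs_self B1))
        · rw [ofReal_integral_eq_lintegral_ofReal hint
            (Filter.Eventually.of_forall fun t => by positivity)]
    _ = ENNReal.ofReal (2 / δ ^ 2 * |B1| + ∫ t : ℝ, K * (1 + t ^ 2)⁻¹) := by
        rw [← ENNReal.ofReal_mul (by positivity),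
          ← ENNReal.ofReal_add (by positivity)
            (integral_nonneg fun t => by positivity)]

end BSDC
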