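import Pool.Agent.W_92892c_h19.CesF
import Pool.Agent.W_92892c.NearZero

open MeasureTheory Set Filter Topology

namespace BSDC

open BSDS Complex

variable {ι : Type} {c u : ι → ℝ} {a : ℝ} {L : ℂ → ℂ}

theorem Lead_real : Tendsto (fun x : ℝ => (x : ℂ)) (𝓝[>] 0) (𝓝[≠] 0) := by
  rw [tendsto_nhdsWithin_iff]
  constructor
  · have h : Tendsto (fun x : ℝ => (x : ℂ)) (𝓝 0) (𝓝 ((0 : ℝ) : ℂ)) :=
      Complex.continuous_ofReal.tendsto 0
    rw [Complex.ofReal_zero] at h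
    exact h.mono_left nhdsWithin_le_nhds
  · filter_upwards [self_mem_nhdsWithin] with x hx
    have hx0 : 0 < x := hx
    exact Complex.ofReal_ne_zero.2 hx0.ne'

/-- If `f / x^m → ℓ` along the positive reals and `m < n`, `f / x^n → ℓ'`, then `ℓ = 0`. -/
theorem Lead_lt (f : ℝ → ℂ) (m n : ℕ) (hmn : m < n) (ℓ ℓ' : ℂ)
    (h : Tendsto (fun x : ℝ => f x / (x : ℂ) ^ m) (𝓝[>] 0) (𝓝 ℓ))
    (h' : Tendsto (fun x : ℝ => f x / (x : ℂ) ^ n) (𝓝[>] 0) (𝓝 ℓ')) : ℓ = 0 := by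
  have h0 : Tendsto (fun x : ℝ => (x : ℂ) ^ (n - m)) (𝓝[>] 0) (𝓝 0) := by
    have h1 : Tendsto (fun x : ℝ => (x : ℂ)) (𝓝[>] 0) (𝓝 0) :=
      Lead_real.mono_right nhdsWithin_le_nhds
    have h2 := h1.pow (n - m)
    rwa [zero_pow (Nat.sub_ne_zero_of_lt hmn)] at h2
  have h3 := h'.mul h0
  rw [mul_zero] at h3
  refine tendsto_nhds_unique h (h3.congr' ?_)
  filter_upwards [self_mem_nhdsWithin] with x hx
  have hx0 : (x : ℂ) ≠ 0 := Complex.ofReal_ne_zero.2 (ne_of_gt hx)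
  have h4 : (x : ℂ) ^ n = (x : ℂ) ^ m * (x : ℂ) ^ (n - m) := by
    rw [← pow_add, Nat.add_sub_cancel' hmn.le]
  rw [h4]
  have h5 : (x : ℂ) ^ m ≠ 0 := pow_ne_zero _ hx0
  have h6 : (x : ℂ) ^ (n - m) ≠ 0 := pow_ne_zero _ hx0
  field_simp

/-- `exists_order` gives `n`, `ℓ ≠ 0` with `L s/s^n → ℓ`; along the positive reals
`L x/x^r = (L x/x^n) x^n/x^r → lam ≠ 0`, which forces `n = r` (if `n > r` the limit would be `0`, if
`n < r` the norm would tend to infinity) and `ℓ = lam`. -/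
theorem lead_of_real (hL : Differentiable ℂ L) (s₀ : ℂ) (h0 : L s₀ ≠ 0) (r : ℕ) (lam : ℂ)
    (hlam : lam ≠ 0) (h : Tendsto (fun x : ℝ => L x / (x : ℂ) ^ r) (𝓝[>] 0) (𝓝 lam)) :
    Tendsto (fun s : ℂ => L s / s ^ r) (𝓝[≠] 0) (𝓝 lam) := by
  obtain ⟨n, ℓ, hℓ, hn⟩ := exists_order L hL s₀ h0
  have h1 : Tendsto (fun x : ℝ => L x / (x : ℂ) ^ n) (𝓝[>] 0) (𝓝 ℓ) := hn.comp Lead_real
  have hnr : n = r := by
    rcases lt_trichotomy n r with hlt | heq | hgt
    · exact absurd (Lead_lt (fun x => L x) n r hlt ℓ lam h1 h) hℓ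
    · exact heq
    · exact absurd (Lead_lt (fun x => L x) r n hgt lam ℓ h h1) hlam
  subst hnr
  rwa [tendsto_nhds_unique h1 h] at hn

/-- The mean implies order, leading coefficient and the absence of zeros: `ces_rep` (an exponential
and `s^r` do not vanish), `ces_small` with `ee_meas`, `ee_loc`, and `lead_of_real` with `s₀ = a`
(`L_ne_zero`); `exp (r γ - kap lam r) = lam`. -/
theorem ces_main (H : Hyp c u a L) (r : ℕ) (lam : ℝ) (hlam : 0 < lam)
    (h : Tendsto (fun U : ℝ => U⁻¹ * ∫ v in Ioc 0 U, ee c u (kap lam r) r v) atTop (𝓝 0)) :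
    (∀ s : ℂ, 0 < s.re → L s ≠ 0) ∧
      Tendsto (fun s : ℂ => L s / s ^ r) (𝓝[≠] 0) (𝓝 (lam : ℂ)) := by
  have hrep := ces_rep H (kap lam r) r h
  constructor
  · intro s hs
    rw [hrep s hs]
    have hs0 : s ≠ 0 := by
      rintro rfl
      simp at hs
    exact mul_ne_zero (pow_ne_zero r hs0) (Complex.exp_ne_zero _)
  · refine lead_of_real H.Lent (a : ℂ) (L_ne_zero H _ (by rw [Complex.ofReal_re])) r _
      (Complex.ofReal_ne_zero.2 hlam.ne') ?_
    have h1 := ces_small (ee c u (kap lam r) r) (ee_meas H _ r) (ee_loc H _ r) h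
    have h2 : Tendsto (fun x : ℝ => Complex.exp ((r * Real.eulerMascheroniConstant -
        kap lam r : ℂ) - (x : ℂ) ^ 2 * ∫ v in Ioi (0 : ℝ),
        ((∫ w in Ioc 0 v, ee c u (kap lam r) r w : ℝ) : ℂ) * Complex.exp (-((x : ℂ) * v))))
        (𝓝[>] 0) (𝓝 (Complex.exp ((r * Real.eulerMascheroniConstant - kap lam r : ℂ) - 0))) :=
      (Complex.continuous_exp.tendsto _).comp (tendsto_const_nhds.sub h1)
    have h3 : Complex.exp ((r * Real.eulerMascheroniConstant - kap lam r : ℂ) - 0) =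
        (lam : ℂ) := by
      rw [sub_zero]
      have h4 : (r * Real.eulerMascheroniConstant - kap lam r : ℂ) = (Real.log lam : ℂ) := by
        unfold kap
        push_cast
        ring
      rw [h4, ← Complex.ofReal_exp, Real.exp_log hlam]
    rw [h3] at h2
    refine h2.congr' ?_
    filter_upwards [self_mem_nhdsWithin] with x hx
    have hx0 : 0 < x := hx
    have hxc : (x : ℂ) ≠ 0 := Complex.ofReal_ne_zero.2 hx0.ne'
    rw [hrep (x : ℂ) (by rw [Complex.ofReal_re]; exact hx0)]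
    rw [mul_div_cancel_left₀ _ (pow_ne_zero r hxc)]

end BSDC
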