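import Pool.Agent.W_3283e1_h53.LocD

open MeasureTheory Set Filter Topology

namespace BSDC

open W3283g Complex

/-- `W3283g.loc_L2`, `W3283g.loc_D2` (for `h1 = L`, `h2 = 1`) together, with the pointwise bounds for
`0 < σ ≤ K`: by `W3283g.loc_log` and `W3283g.loc_der`, with `‖σ + iτ - ρ‖ ≥ σ` (`Re ρ ≤ 0`) and
`‖σ + iτ - ρ‖ ≤ 2 K + 1`, so `|log ‖z - ρ‖| ≤ |log σ| + log (2 K + 1)`, `‖z - ρ‖⁻¹ ≤ 1/σ`.  (See the
proofs of the last claims of `loc_L2`, `loc_D2`, which are the same for `σ ≤ 1`.) -/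
theorem loc_all (K : ℝ) (hK : 2 ≤ K) :
    ∃ C : ℝ, 0 < C ∧ ∀ (τ M : ℝ) (h ℓ : ℂ → ℂ), 1 ≤ M →
      AnalyticOnNhd ℂ h (Metric.closedBall ((K : ℂ) + τ * I) (K + 1 / 8)) →
      (∀ z ∈ Metric.closedBall ((K : ℂ) + τ * I) (K + 1 / 8), ‖h z‖ ≤ Real.exp M) →
      Real.exp (-M) ≤ ‖h ((K : ℂ) + τ * I)‖ →
      (∀ z : ℂ, 0 < z.re → h z ≠ 0) →
      DifferentiableOn ℂ ℓ {z : ℂ | 0 < z.re} →
      (∀ z : ℂ, 0 < z.re → h z * Complex.exp (ℓ z) = 1) →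
      ‖ℓ ((K : ℂ) + τ * I)‖ ≤ M →
      (∀ σ : ℝ, 0 < σ → σ ≤ 1 / 32 →
        ∫⁻ t in Set.Icc (τ - 1 / 4) (τ + 1 / 4), ‖ℓ ((σ : ℂ) + t * I)‖ₑ ^ 2 ≤
          ENNReal.ofReal (C * M ^ 2)) ∧
      (∀ σ : ℝ, 0 < σ → σ ≤ 1 / 32 →
        ∫⁻ t in Set.Icc (τ - 1 / 4) (τ + 1 / 4), ‖deriv ℓ ((σ : ℂ) + t * I)‖ₑ ^ 2 ≤
          ENNReal.ofReal (C * M ^ 2 / σ)) ∧
      (∀ σ : ℝ, 0 < σ → σ ≤ K → ‖ℓ ((σ : ℂ) + τ * I)‖ ≤ C * M * (1 + |Real.log σ|)) ∧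
      ∀ σ : ℝ, 0 < σ → σ ≤ K → ‖deriv ℓ ((σ : ℂ) + τ * I)‖ ≤ C * M / σ := by
  obtain ⟨C1, hC1, H1⟩ := loc_L2 K hK
  obtain ⟨C2, hC2, H2⟩ := loc_D2 K hK
  obtain ⟨C3, hC3, H3⟩ := loc_log K hK
  obtain ⟨C4, hC4, H4⟩ := loc_der K hK
  set D : ℝ := 2 * K + 1 with hDdef
  have hD : 1 ≤ D := by rw [hDdef]; linarith
  have hlD : 0 ≤ Real.log D := Real.log_nonneg hD
  have hK0 : 0 < K := by linarith
  refine ⟨C1 + C2 + C3 * (1 + Real.log D) + C4 * (K + 1), by positivity, ?_⟩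
  intro τ M h ℓ hM a1 b1 c1 d1 hℓd hℓ hℓM
  have hM0 : 0 < M := by linarith
  have a2 : AnalyticOnNhd ℂ (fun _ : ℂ => (1 : ℂ))
      (Metric.closedBall ((K : ℂ) + τ * I) (K + 1 / 8)) := fun _ _ => analyticAt_const
  have hexp1 : 1 ≤ Real.exp M := Real.one_le_exp hM0.le
  have hexp2 : Real.exp (-M) ≤ 1 := by
    rw [Real.exp_le_one_iff]
    linarith
  have b2 : ∀ z ∈ Metric.closedBall ((K : ℂ) + τ * I) (K + 1 / 8),
      ‖(fun _ : ℂ => (1 : ℂ)) z‖ ≤ Real.exp M := by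
    intro z _
    simpa using hexp1
  have c2 : Real.exp (-M) ≤ ‖(fun _ : ℂ => (1 : ℂ)) ((K : ℂ) + τ * I)‖ := by
    simpa using hexp2
  have d2 : ∀ z : ℂ, 0 < z.re → (fun _ : ℂ => (1 : ℂ)) z ≠ 0 := fun _ _ => one_ne_zero
  have hz : ∀ σ : ℝ, 0 < σ → σ ≤ K →
      (σ : ℂ) + τ * I ∈ Metric.closedBall ((K : ℂ) + τ * I) (K + 1 / 32) := by
    intro σ hσ hσ1
    rw [Metric.mem_closedBall, dist_eq_norm]
    have h3 : ((σ : ℂ) + τ * I - ((K : ℂ) + τ * I)) = ((σ - K : ℝ) : ℂ) := by push_cast; ring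
    rw [h3, Complex.norm_real, Real.norm_eq_abs, abs_le]
    constructor <;> linarith
  obtain ⟨E1, -⟩ := H1 τ M h (fun _ => 1) ℓ hM a1 a2 b1 b2 c1 c2 d1 d2 hℓd.continuousOn hℓ hℓM
  obtain ⟨E2, -⟩ := H2 τ M h (fun _ => 1) ℓ hM a1 a2 b1 b2 c1 c2 d1 d2 hℓd hℓ
  refine ⟨?_, ?_, ?_, ?_⟩
  · intro σ hσ hσ1
    refine (E1 σ hσ hσ1).trans (ENNReal.ofReal_le_ofReal ?_)
    have h5 : 0 ≤ (C2 + C3 * (1 + Real.log D) + C4 * (K + 1)) * M ^ 2 := by positivity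
    linarith
  · intro σ hσ hσ1
    refine (E2 σ hσ hσ1).trans (ENNReal.ofReal_le_ofReal ?_)
    have h5 : 0 ≤ (C1 + C3 * (1 + Real.log D) + C4 * (K + 1)) * M ^ 2 := by positivity
    exact div_le_div_of_nonneg_right (by linarith) hσ.le
  · obtain ⟨S, hcard, hS, hbd⟩ :=
      H3 τ M h (fun _ => 1) ℓ hM a1 a2 b1 b2 c1 c2 d1 d2 hℓd.continuousOn hℓ hℓM
    obtain ⟨n, g, hn, hg, hsum⟩ := LocL2_fin S
    have hnM : (n : ℝ) ≤ C3 * M := by rw [hn]; exact hcard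
    intro σ hσ hσ1
    have h3 := hbd _ (hz σ hσ hσ1) (by simpa using hσ)
    rw [hsum] at h3
    have h4 : ∀ i ∈ (Finset.univ : Finset (Fin n)),
        |Real.log ‖(σ : ℂ) + τ * I - g i‖| ≤ |Real.log σ| + Real.log D := by
      intro i _
      have h5 : ‖(σ : ℂ) + τ * I - g i‖ ≤ D := by
        have h6 := (hS (g i) (hg i)).1
        have h7 := hz σ hσ hσ1
        rw [Metric.mem_closedBall, dist_eq_norm] at h6 h7
        have h8 : (σ : ℂ) + τ * I - g i =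
            ((σ : ℂ) + τ * I - ((K : ℂ) + τ * I)) - (g i - ((K : ℂ) + τ * I)) := by ring
        rw [h8]
        refine (norm_sub_le _ _).trans ?_
        rw [hDdef]
        linarith
      have h6 : σ ≤ ‖(σ : ℂ) + τ * I - g i‖ := by
        have h7 := Complex.re_le_norm ((σ : ℂ) + τ * I - g i)
        have h8 : ((σ : ℂ) + τ * I - g i).re = σ - (g i).re := by simp
        rw [h8] at h7
        linarith [(hS (g i) (hg i)).2]
      have h9 := Real.log_le_log hσ h6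
      have h10 := Real.log_le_log (hσ.trans_le h6) h5
      rw [abs_le]
      constructor
      · linarith [neg_abs_le (Real.log σ)]
      · linarith [abs_nonneg (Real.log σ)]
    have h5 := Finset.sum_le_sum h4
    rw [Finset.sum_const, Finset.card_univ, Fintype.card_fin, nsmul_eq_mul] at h5
    have h6 : 0 ≤ |Real.log σ| := abs_nonneg _
    have h7 : (n : ℝ) * (|Real.log σ| + Real.log D) ≤ C3 * M * (|Real.log σ| + Real.log D) :=
      mul_le_mul_of_nonneg_right hnM (by positivity)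
    have h8 : 0 ≤ (C1 + C2 + C4 * (K + 1)) * M * (1 + |Real.log σ|) := by positivity
    have h9 : 0 ≤ C3 * M * (Real.log D * |Real.log σ|) := by positivity
    have h10 : (C1 + C2 + C3 * (1 + Real.log D) + C4 * (K + 1)) * M * (1 + |Real.log σ|) =
        (C1 + C2 + C4 * (K + 1)) * M * (1 + |Real.log σ|) +
          (C3 * M + C3 * M * (|Real.log σ| + Real.log D) +
            C3 * M * (Real.log D * |Real.log σ|)) := by ring
    rw [h10]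
    linarith
  · obtain ⟨S, hcard, hS, hbd⟩ :=
      H4 τ M h (fun _ => 1) ℓ hM a1 a2 b1 b2 c1 c2 d1 d2 hℓd hℓ
    obtain ⟨n, g, hn, hg, hsum⟩ := LocL2_fin S
    have hnM : (n : ℝ) ≤ C4 * M := by rw [hn]; exact hcard
    intro σ hσ hσ1
    have h3 := hbd _ (hz σ hσ hσ1) (by simpa using hσ)
    rw [hsum] at h3
    have h4 : ∀ i ∈ (Finset.univ : Finset (Fin n)), ‖(σ : ℂ) + τ * I - g i‖⁻¹ ≤ σ⁻¹ := by
      intro i _
      apply inv_anti₀ hσ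
      have h7 := Complex.re_le_norm ((σ : ℂ) + τ * I - g i)
      have h8 : ((σ : ℂ) + τ * I - g i).re = σ - (g i).re := by simp
      rw [h8] at h7
      linarith [hS (g i) (hg i)]
    have h5 := Finset.sum_le_sum h4
    rw [Finset.sum_const, Finset.card_univ, Fintype.card_fin, nsmul_eq_mul] at h5
    have h6 : (n : ℝ) * σ⁻¹ ≤ C4 * M * σ⁻¹ := mul_le_mul_of_nonneg_right hnM (by positivity)
    have h7 : C4 * M ≤ C4 * M * (K * σ⁻¹) := by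
      have h71 : 1 ≤ K * σ⁻¹ := by
        rw [← div_eq_mul_inv, one_le_div hσ]
        exact hσ1
      exact le_mul_of_one_le_right (by positivity) h71
    have h8 : (C1 + C2 + C3 * (1 + Real.log D) + C4 * (K + 1)) * M / σ =
        (C1 + C2 + C3 * (1 + Real.log D)) * M * σ⁻¹ +
          (C4 * M * (K * σ⁻¹) + C4 * M * σ⁻¹) := by
      rw [div_eq_mul_inv]
      ring
    have h9 : 0 ≤ (C1 + C2 + C3 * (1 + Real.log D)) * M * σ⁻¹ := by positivity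
    rw [h8]
    linarith

end BSDC
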