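import Pool.Agent.W_92892c_h19.Defs
import Pool.Agent.W_3283e1_h53.LogExt

open MeasureTheory Set Filter Topology

namespace BSDC

open BSDS W3283g

variable {ι : Type} {c u : ι → ℝ} {a : ℝ} {L : ℂ → ℂ}

/-- A holomorphic logarithm of `1/L`.  Let `U = {Re s > 0}` (convex), `V = {Re s > a}`, `f = 1/L`.
`W3283g.log_ext` (module LogExt) with these `U`, `V`, `f` replaced by `f²` and `G = -Dser c u`
(`exp (2 G) = 1/L² `; it needs `Re s ≥ a`-type facts `H.LD`, `Dser_differentiableAt`) gives a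
holomorphic `Gt` on `U` with `exp (2 Gt) = 1/L²` and `Gt = -Dser` on `V`; then
`L exp (Gt)` is holomorphic, squares to `1` and equals `1` on `V`, so it is `1` on `U` (identity
theorem).  Or directly: `Complex.exists_continuousOn_eqOn_exp_comp`, `log_analytic`, `LogExt_eqOn`. -/
theorem Gt_ex (H : Hyp c u a L) (hz : ∀ s : ℂ, 0 < s.re → L s ≠ 0) :
    ∃ Gt : ℂ → ℂ, DifferentiableOn ℂ Gt {s : ℂ | 0 < s.re} ∧
      (∀ s : ℂ, a < s.re → Gt s = -Dser c u s) ∧
      ∀ s : ℂ, 0 < s.re → L s * Complex.exp (Gt s) = 1 := by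
  have ha := H.apos
  have hU : IsOpen {s : ℂ | 0 < s.re} := DserBasic_open 0
  have hDc : ContinuousOn (fun s => -Dser c u s / 2) {s : ℂ | a < s.re} := by
    intro s hs
    exact ((Dser_differentiableAt H s hs).continuousAt.neg.div_const 2).continuousWithinAt
  have hLa : AnalyticOnNhd ℂ (fun s => (L s)⁻¹) {s : ℂ | 0 < s.re} := by
    intro s hs
    exact (H.Lent.analyticAt s).inv (hz s hs)
  obtain ⟨g, hg1, hg2, hg3⟩ := log_ext {s : ℂ | 0 < s.re} {s : ℂ | a < s.re} hU
    (convex_halfSpace_re_gt 0) (convex_halfSpace_re_gt a).isPreconnected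
    ⟨((a + 1 : ℝ) : ℂ), by
      show a < (((a + 1 : ℝ) : ℂ)).re
      rw [Complex.ofReal_re]
      linarith⟩
    (fun s hs => lt_trans (by linarith) (show a < s.re from hs))
    (fun s => (L s)⁻¹) (fun s => -Dser c u s / 2) hLa
    (fun s hs => inv_ne_zero (hz s hs)) hDc
    (fun s hs => by
      rw [H.LD s (le_of_lt hs), ← Complex.exp_neg]
      congr 1
      ring)
  refine ⟨fun s => 2 * g s, ?_, fun s hs => ?_, fun s hs => ?_⟩
  · exact (hg1.differentiableOn).const_mul 2
  · show 2 * g s = _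
    rw [hg3 s hs]
    ring
  · show L s * Complex.exp (2 * g s) = 1
    rw [hg2 s hs, mul_inv_cancel₀ (hz s hs)]

end BSDC
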