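import Pool.Agent.W_92892c_h19.Defs
import Pool.Agent.W_3283e1_h53.MSq

open MeasureTheory Set Filter Topology

namespace BSDC

open BSDS W3283g

theorem Trans_key (f : ℝ → ℝ) (hloc : ∀ U : ℝ, IntegrableOn f (Ioc 0 U)) (X : ℝ) (hX : 2 ≤ X) :
    ∫ x in (2 : ℝ)..X, f (Real.log x) / x =
      (∫ v in Ioc 0 (Real.log X), f v) - ∫ v in Ioc 0 (Real.log 2), f v := by
  have h2 : (0 : ℝ) < 2 := by norm_num
  have hX0 : 0 < X := lt_of_lt_of_le h2 hX
  have hlog2 : 0 < Real.log 2 := Real.log_pos (by norm_num)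
  have hle : Real.log 2 ≤ Real.log X := Real.log_le_log h2 hX
  rw [intervalIntegral.integral_of_le hX]
  have h3 := cv_log2 f (Real.log 2) (Real.log X)
  rw [Real.exp_log h2, Real.exp_log hX0] at h3
  rw [h3]
  have hsp : Ioc 0 (Real.log X) = Ioc 0 (Real.log 2) ∪ Ioc (Real.log 2) (Real.log X) :=
    (Ioc_union_Ioc_eq_Ioc hlog2.le hle).symm
  rw [hsp, setIntegral_union (disjoint_left.2 fun x hx hx' => absurd hx'.1 (not_lt.2 hx.2))
    measurableSet_Ioc (hloc _) ((hloc (Real.log X)).mono_set (Ioc_subset_Ioc_left hlog2.le))]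
  ring

/-- `p^(m+1) ≤ x` iff `(m+1) log p ≤ log x`, so the sum in `ppProd W x` is `Tc (cW W) uW (log x)`; and
`log (lam e^{-T}/(e^γ log x)^r) = log lam - T - r (γ + log log x)`. -/
theorem bsdErr_eq (W : WeierstrassCurve ℤ) (r : ℕ) (lam : ℝ) (hlam : 0 < lam) (x : ℝ)
    (hx : 1 < x) : bsdErr W r lam x = ee (cW W) uW (kap lam r) r (Real.log x) := by
  have hlx : 0 < Real.log x := Real.log_pos hx
  have hx0 : 0 < x := by linarith
  have hT : (∑' i : Nat.Primes × ℕ, if ((i.1 : ℕ) : ℝ) ^ (i.2 + 1) ≤ x then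
      (psum (ap W i.1) (ep W i.1) (i.2 + 1) : ℝ) /
        (((i.2 : ℝ) + 1) * ((i.1 : ℕ) : ℝ) ^ (i.2 + 1)) else 0) =
      Tc (cW W) uW (Real.log x) := by
    unfold Tc
    refine tsum_congr fun i => ?_
    have hp : (0 : ℝ) < ((i.1 : ℕ) : ℝ) := by exact_mod_cast i.1.2.pos
    have hiff : ((i.1 : ℕ) : ℝ) ^ (i.2 + 1) ≤ x ↔ uW i ≤ Real.log x := by
      have h1 : uW i = Real.log (((i.1 : ℕ) : ℝ) ^ (i.2 + 1)) := by
        unfold uW
        rw [Real.log_pow]
        push_cast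
        rfl
      rw [h1, Real.log_le_log_iff (by positivity) hx0]
    unfold cW
    simp only [hiff]
  unfold bsdErr ppProd ee kap
  rw [hT]
  have hden : (Real.exp Real.eulerMascheroniConstant * Real.log x) ^ r ≠ 0 := by positivity
  rw [Real.log_div (by positivity) hden, Real.log_mul hlam.ne' (Real.exp_pos _).ne', Real.log_exp,
    Real.log_pow, Real.log_mul (Real.exp_pos _).ne' hlx.ne', Real.log_exp]
  ring

/-- `x = e^v` (`W3283g.cv_log2`), `∫_{log 2}^{log X} = ∫_0^{log X} - ∫_0^{log 2}`, and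
`U = log X → ∞` as `X → ∞` (`Real.tendsto_log_atTop`, `Real.tendsto_exp_atTop`); a constant times
`(log X)⁻¹` tends to `0`. -/
theorem mean_iff (e : ℝ → ℝ) (hloc : ∀ U : ℝ, IntegrableOn e (Ioc 0 U)) :
    Tendsto (fun X : ℝ => (Real.log X)⁻¹ * ∫ x in (2 : ℝ)..X, e (Real.log x) / x) atTop (𝓝 0) ↔
      Tendsto (fun U : ℝ => U⁻¹ * ∫ v in Ioc 0 U, e v) atTop (𝓝 0) := by
  set c : ℝ := ∫ v in Ioc 0 (Real.log 2), e v with hc
  have hkey := Trans_key e hloc
  constructor
  · intro h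
    have h1 : Tendsto (fun U : ℝ => (Real.log (Real.exp U))⁻¹ *
        ∫ x in (2 : ℝ)..Real.exp U, e (Real.log x) / x) atTop (𝓝 0) :=
      h.comp Real.tendsto_exp_atTop
    have h2 : Tendsto (fun U : ℝ => U⁻¹ * c) atTop (𝓝 (0 * c)) :=
      tendsto_inv_atTop_zero.mul_const c
    have h3 := h1.add h2
    rw [zero_mul, add_zero] at h3
    refine h3.congr' ?_
    filter_upwards [eventually_ge_atTop (1 : ℝ)] with U hU
    have hexp : (2 : ℝ) ≤ Real.exp U := by
      have := Real.add_one_le_exp U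
      linarith
    rw [hkey _ hexp, Real.log_exp]
    ring
  · intro h
    have h1 : Tendsto (fun X : ℝ => (Real.log X)⁻¹ * ∫ v in Ioc 0 (Real.log X), e v) atTop
        (𝓝 0) := h.comp Real.tendsto_log_atTop
    have h2 : Tendsto (fun X : ℝ => (Real.log X)⁻¹ * c) atTop (𝓝 (0 * c)) :=
      (tendsto_inv_atTop_zero.comp Real.tendsto_log_atTop).mul_const c
    have h3 := h1.sub h2
    rw [zero_mul, sub_zero] at h3
    refine h3.congr' ?_
    filter_upwards [eventually_ge_atTop (2 : ℝ)] with X hX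
    rw [hkey _ hX]
    ring

/-- The same for the mean square (`U = log X`; `U ≥ 1` against `X ≥ 2`: the integral over `(0, log 2]`
is a constant, `log X ≥ log 2 > 0`, the integrand is nonnegative). -/
theorem msq_iff (e : ℝ → ℝ) (hloc : ∀ U : ℝ, IntegrableOn (fun v : ℝ => (v * e v) ^ 2) (Ioc 0 U)) :
    (∃ B : ℝ, ∀ X : ℝ, 2 ≤ X →
      ∫ x in (2 : ℝ)..X, (Real.log x * e (Real.log x)) ^ 2 / x ≤ B * Real.log X) ↔
      ∃ B : ℝ, 0 ≤ B ∧ ∀ U : ℝ, 1 ≤ U → ∫ v in Ioc 0 U, (v * e v) ^ 2 ≤ B * U := by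
  set f : ℝ → ℝ := fun v => (v * e v) ^ 2 with hf
  have hkey := Trans_key f hloc
  have hnn : ∀ s : Set ℝ, 0 ≤ ∫ v in s, f v := fun s => integral_nonneg fun v => sq_nonneg _
  have hlog2 : 0 < Real.log 2 := Real.log_pos (by norm_num)
  have hlog21 : Real.log 2 < 1 := by
    have := Real.log_two_lt_d9
    linarith
  constructor
  · rintro ⟨B, hB⟩
    refine ⟨|B| + ∫ v in Ioc 0 (Real.log 2), f v, add_nonneg (abs_nonneg _) (hnn _),
      fun U hU => ?_⟩
    have hexp : (2 : ℝ) ≤ Real.exp U := by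
      have := Real.add_one_le_exp U
      linarith
    have h1 := hB _ hexp
    have h2 := hkey _ hexp
    rw [Real.log_exp] at h1 h2
    have h3 : (∫ x in (2 : ℝ)..Real.exp U, (Real.log x * e (Real.log x)) ^ 2 / x) =
        ∫ x in (2 : ℝ)..Real.exp U, f (Real.log x) / x := rfl
    rw [h3, h2] at h1
    have h4 : B * U ≤ |B| * U := mul_le_mul_of_nonneg_right (le_abs_self B) (by linarith)
    have h5 : (∫ v in Ioc 0 (Real.log 2), f v) ≤ (∫ v in Ioc 0 (Real.log 2), f v) * U :=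
      le_mul_of_one_le_right (hnn _) hU
    have h6 : (∫ v in Ioc 0 U, (v * e v) ^ 2) = ∫ v in Ioc 0 U, f v := rfl
    rw [h6, add_mul]
    linarith
  · rintro ⟨B, hB0, hB⟩
    refine ⟨B / Real.log 2, fun X hX => ?_⟩
    have h3 : (∫ x in (2 : ℝ)..X, (Real.log x * e (Real.log x)) ^ 2 / x) =
        ∫ x in (2 : ℝ)..X, f (Real.log x) / x := rfl
    rw [h3, hkey _ hX]
    have hle : Real.log 2 ≤ Real.log X := Real.log_le_log (by norm_num) hX
    have h1 := hB (max (Real.log X) 1) (le_max_right _ _)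
    have h4 : (∫ v in Ioc 0 (Real.log X), f v) ≤ ∫ v in Ioc 0 (max (Real.log X) 1), f v :=
      setIntegral_mono_set (hloc _) (Eventually.of_forall fun v => sq_nonneg _)
        (Eventually.of_forall (Ioc_subset_Ioc_right (le_max_left _ _)))
    have h5 := hnn (Ioc 0 (Real.log 2))
    have h6 : max (Real.log X) 1 ≤ Real.log X / Real.log 2 := by
      rw [le_div_iff₀ hlog2]
      rcases max_cases (Real.log X) 1 with ⟨hm, _⟩ | ⟨hm, _⟩
      · rw [hm]
        nlinarith
      · rw [hm]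
        linarith
    have h7 : B * max (Real.log X) 1 ≤ B / Real.log 2 * Real.log X := by
      calc B * max (Real.log X) 1 ≤ B * (Real.log X / Real.log 2) :=
            mul_le_mul_of_nonneg_left h6 hB0
        _ = B / Real.log 2 * Real.log X := by ring
    have h8 : (∫ v in Ioc 0 (max (Real.log X) 1), (v * e v) ^ 2) =
        ∫ v in Ioc 0 (max (Real.log X) 1), f v := rfl
    rw [h8] at h1
    linarith

end BSDC
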