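import Pool.Agent.W_92892c_h19.Msq
import Pool.Agent.W_92892c_h19.CesB
import Pool.Agent.W_92892c_h19.Lead
import Pool.Agent.W_92892c_h19.Trans

open MeasureTheory Set Filter Topology

namespace BSDC

open BSDS

/-- The shift `s = 1 + w` of the hypotheses: growth. -/
theorem gro_shift (L : ℂ → ℂ)
    (hgr : ∃ (K : ℝ) (n : ℕ), ∀ s : ℂ, 4 / 5 ≤ s.re → ‖L s‖ ≤ K * (2 + ‖s‖) ^ n) :
    Gro (fun s => L (1 + s)) := by
  obtain ⟨K, n, h⟩ := hgr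
  refine ⟨|K| * 2 ^ n, n, fun s hs => ?_⟩
  have h1 := h (1 + s) (by rw [Complex.add_re, Complex.one_re]; linarith)
  have h2 : 2 + ‖(1 : ℂ) + s‖ ≤ 2 * (2 + ‖s‖) := by
    have := norm_add_le (1 : ℂ) s
    rw [norm_one] at this
    have := norm_nonneg s
    linarith
  calc ‖L (1 + s)‖ ≤ K * (2 + ‖(1 : ℂ) + s‖) ^ n := h1
    _ ≤ |K| * (2 + ‖(1 : ℂ) + s‖) ^ n :=
        mul_le_mul_of_nonneg_right (le_abs_self K) (by positivity)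
    _ ≤ |K| * (2 * (2 + ‖s‖)) ^ n :=
        mul_le_mul_of_nonneg_left (pow_le_pow_left₀ (by positivity) h2 n) (abs_nonneg K)
    _ = |K| * 2 ^ n * (2 + ‖s‖) ^ n := by rw [mul_pow]; ring

/-- `tendsto_shift` for a complex value (as `BSDS.tendsto_shift` in the folder W_92892c, module Main). -/
theorem tendsto_shift (L : ℂ → ℂ) (r : ℕ) (l : ℂ) :
    Tendsto (fun s : ℂ => L s / (s - 1) ^ r) (𝓝[≠] 1) (𝓝 l) ↔
      Tendsto (fun s : ℂ => L (1 + s) / s ^ r) (𝓝[≠] 0) (𝓝 l) := by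
  have hmap : Filter.map (fun s : ℂ => 1 + s) (𝓝[≠] 0) = 𝓝[≠] 1 := by
    have h := (Homeomorph.addLeft (1 : ℂ)).isEmbedding.map_nhdsWithin_eq {(0 : ℂ)}ᶜ 0
    simpa [Homeomorph.addLeft, Set.image_compl_eq (Homeomorph.addLeft (1 : ℂ)).bijective] using h
  rw [← hmap, Filter.tendsto_map'_iff]
  refine tendsto_congr fun s => ?_
  simp

/-- The integrals of `bsdErr` and of `ee` agree (`bsdErr_eq` on `(2, X)`). -/
theorem int_eq (W : WeierstrassCurve ℤ) (r : ℕ) (lam : ℝ) (hlam : 0 < lam) (X : ℝ) (hX : 2 ≤ X) :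
    (∫ x in (2 : ℝ)..X, bsdErr W r lam x / x =
      ∫ x in (2 : ℝ)..X, ee (cW W) uW (kap lam r) r (Real.log x) / x) ∧
    ∫ x in (2 : ℝ)..X, (Real.log x * bsdErr W r lam x) ^ 2 / x =
      ∫ x in (2 : ℝ)..X, (Real.log x * ee (cW W) uW (kap lam r) r (Real.log x)) ^ 2 / x := by
  constructor
  · refine intervalIntegral.integral_congr fun x hx => ?_
    rw [Set.uIcc_of_le hX] at hx
    show bsdErr W r lam x / x = _
    rw [bsdErr_eq W r lam hlam x (by linarith [hx.1])]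
  · refine intervalIntegral.integral_congr fun x hx => ?_
    rw [Set.uIcc_of_le hX] at hx
    show (Real.log x * bsdErr W r lam x) ^ 2 / x = _
    rw [bsdErr_eq W r lam hlam x (by linarith [hx.1])]

theorem main (W : WeierstrassCurve ℤ) (L : ℂ → ℂ) (hL : Differentiable ℂ L)
    (hprod : ∀ s : ℂ, 3 / 2 < s.re → Tendsto (fun N : ℕ =>
      ∏ p ∈ (Finset.range N).filter Nat.Prime, (locFactor W p s)⁻¹) atTop (𝓝 (L s)))
    (hgr : ∃ (K : ℝ) (n : ℕ), ∀ s : ℂ, 4 / 5 ≤ s.re → ‖L s‖ ≤ K * (2 + ‖s‖) ^ n)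
    (r : ℕ) (lam : ℝ) (hlam : 0 < lam) :
    (((∀ s : ℂ, 1 < s.re → L s ≠ 0) ∧
      Tendsto (fun s : ℂ => L s / (s - 1) ^ r) (𝓝[≠] 1) (𝓝 (lam : ℂ))) ↔
      Tendsto (fun X : ℝ => (Real.log X)⁻¹ * ∫ x in (2 : ℝ)..X, bsdErr W r lam x / x)
        atTop (𝓝 0)) ∧
    (((∀ s : ℂ, 1 < s.re → L s ≠ 0) ∧
      Tendsto (fun s : ℂ => L s / (s - 1) ^ r) (𝓝[≠] 1) (𝓝 (lam : ℂ))) ↔
      ∃ B : ℝ, ∀ X : ℝ, 2 ≤ X →
        ∫ x in (2 : ℝ)..X, (Real.log x * bsdErr W r lam x) ^ 2 / x ≤ B * Real.log X) := by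
  have H := hyp_W W L hL hprod
  have hG := gro_shift L hgr
  have hm := ee_meas H (kap lam r) r
  have hloc := ee_loc H (kap lam r) r
  have hloc2 := ee_loc2 H (kap lam r) r
  have hzs : (∀ s : ℂ, 1 < s.re → L s ≠ 0) ↔ ∀ s : ℂ, 0 < s.re → L (1 + s) ≠ 0 := by
    constructor
    · intro h s hs
      exact h (1 + s) (by rw [Complex.add_re, Complex.one_re]; linarith)
    · intro h s hs
      have := h (s - 1) (by rw [Complex.sub_re, Complex.one_re]; linarith)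
      simpa using this
  have hb : Tendsto (fun X : ℝ => (Real.log X)⁻¹ * ∫ x in (2 : ℝ)..X, bsdErr W r lam x / x)
      atTop (𝓝 0) ↔
      Tendsto (fun U : ℝ => U⁻¹ * ∫ v in Ioc 0 U, ee (cW W) uW (kap lam r) r v) atTop (𝓝 0) := by
    rw [← mean_iff _ hloc]
    refine tendsto_congr' ?_
    filter_upwards [eventually_ge_atTop (2 : ℝ)] with X hX
    rw [(int_eq W r lam hlam X hX).1]
  have hc : (∃ B : ℝ, ∀ X : ℝ, 2 ≤ X →
        ∫ x in (2 : ℝ)..X, (Real.log x * bsdErr W r lam x) ^ 2 / x ≤ B * Real.log X) ↔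
      ∃ B : ℝ, 0 ≤ B ∧ ∀ U : ℝ, 1 ≤ U →
        ∫ v in Ioc 0 U, (v * ee (cW W) uW (kap lam r) r v) ^ 2 ≤ B * U := by
    rw [← msq_iff _ hloc2]
    refine exists_congr fun B => forall_congr' fun X => forall_congr' fun hX => ?_
    rw [(int_eq W r lam hlam X hX).2]
  have e1 : ((∀ s : ℂ, 1 < s.re → L s ≠ 0) ∧
      Tendsto (fun s : ℂ => L s / (s - 1) ^ r) (𝓝[≠] 1) (𝓝 (lam : ℂ))) →
      ∃ B : ℝ, 0 ≤ B ∧ ∀ U : ℝ, 1 ≤ U →
        ∫ v in Ioc 0 U, (v * ee (cW W) uW (kap lam r) r v) ^ 2 ≤ B * U := by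
    rintro ⟨h1, h2⟩
    obtain ⟨B, hB, h3⟩ := msq H hG (hzs.1 h1) r lam hlam ((tendsto_shift L r _).1 h2)
    exact ⟨B, hB, fun U hU => (h3 U hU).2⟩
  have e2 : (∃ B : ℝ, 0 ≤ B ∧ ∀ U : ℝ, 1 ≤ U →
        ∫ v in Ioc 0 U, (v * ee (cW W) uW (kap lam r) r v) ^ 2 ≤ B * U) →
      Tendsto (fun U : ℝ => U⁻¹ * ∫ v in Ioc 0 U, ee (cW W) uW (kap lam r) r v) atTop (𝓝 0) := by
    rintro ⟨B, hB, h3⟩
    exact ces_of_msq _ hloc hloc2 B hB h3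
  have e3 : Tendsto (fun U : ℝ => U⁻¹ * ∫ v in Ioc 0 U, ee (cW W) uW (kap lam r) r v)
      atTop (𝓝 0) →
      ((∀ s : ℂ, 1 < s.re → L s ≠ 0) ∧
      Tendsto (fun s : ℂ => L s / (s - 1) ^ r) (𝓝[≠] 1) (𝓝 (lam : ℂ))) := by
    intro h
    obtain ⟨h1, h2⟩ := ces_main H r lam hlam h
    exact ⟨hzs.2 h1, (tendsto_shift L r _).2 h2⟩
  refine ⟨⟨fun h => hb.2 (e2 (e1 h)), fun h => e3 (hb.1 h)⟩,
    ⟨fun h => hc.2 (e1 h), fun h => e3 (e2 (hc.1 h))⟩⟩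

end BSDC
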