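import Pool.Agent.W_92892c_h19.Main
import Pool.Agent.W_92892c_h19.Bdd

open MeasureTheory Set Filter Topology

namespace BSDC

open BSDS W3283g

theorem MainB_key (e : ℝ → ℝ) (hloc : ∀ U : ℝ, IntegrableOn e (Ioc 0 U)) (U : ℝ)
    (hU : Real.log 2 ≤ U) :
    ∫ x in (2 : ℝ)..(Real.exp U), e (Real.log x) / x =
      (∫ v in Ioc 0 U, e v) - ∫ v in Ioc 0 (Real.log 2), e v := by
  have hl2 : 0 < Real.log 2 := Real.log_pos (by norm_num)
  have h2 : (2 : ℝ) ≤ Real.exp U := by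
    rw [← Real.log_le_iff_le_exp (by norm_num)]
    exact hU
  rw [intervalIntegral.integral_of_le h2]
  have h3 := cv_log2 e (Real.log 2) U
  rw [Real.exp_log (by norm_num)] at h3
  rw [h3, ← Ioc_union_Ioc_eq_Ioc hl2.le hU, setIntegral_union (Ioc_disjoint_Ioc_of_le le_rfl)
    measurableSet_Ioc (hloc _) ((hloc U).mono_set (Ioc_subset_Ioc_left hl2.le))]
  ring

/-- Bounded means in the variables `X` and `U = log X` (`cv_log2`, `int_eq`; compare `mean_iff`). -/
theorem bdd_iff (e : ℝ → ℝ) (hloc : ∀ U : ℝ, IntegrableOn e (Ioc 0 U)) :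
    (∃ B : ℝ, ∀ X : ℝ, 2 ≤ X → |∫ x in (2 : ℝ)..X, e (Real.log x) / x| ≤ B * Real.log X) ↔
      ∃ B : ℝ, ∀ U : ℝ, 0 < U → |∫ v in Ioc 0 U, e v| ≤ B * (1 + U) := by
  have hl2 : 0 < Real.log 2 := Real.log_pos (by norm_num)
  have habs : ∀ U : ℝ, |∫ v in Ioc 0 U, e v| ≤ ∫ v in Ioc 0 U, |e v| := fun U =>
    abs_integral_le_integral_abs
  constructor
  · rintro ⟨B, hB⟩
    set M0 : ℝ := ∫ v in Ioc 0 (Real.log 2), |e v| with hM0
    have hM0' : 0 ≤ M0 := integral_nonneg fun v => abs_nonneg _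
    refine ⟨M0 + |B|, fun U hU => ?_⟩
    rcases le_total (Real.log 2) U with h | h
    · have h1 := MainB_key e hloc U h
      have h2 : (2 : ℝ) ≤ Real.exp U := by
        rw [← Real.log_le_iff_le_exp (by norm_num)]
        exact h
      have h3 := hB (Real.exp U) h2
      rw [h1, Real.log_exp] at h3
      have h4 := habs (Real.log 2)
      have h5 : |∫ v in Ioc 0 U, e v| ≤ |(∫ v in Ioc 0 U, e v) - ∫ v in Ioc 0 (Real.log 2), e v| +
          |∫ v in Ioc 0 (Real.log 2), e v| := by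
        have := abs_add_le ((∫ v in Ioc 0 U, e v) - ∫ v in Ioc 0 (Real.log 2), e v)
          (∫ v in Ioc 0 (Real.log 2), e v)
        rwa [sub_add_cancel] at this
      have h6 : B * U ≤ |B| * U := mul_le_mul_of_nonneg_right (le_abs_self B) hU.le
      have h7 : 0 ≤ M0 * U := mul_nonneg hM0' hU.le
      have h8 := abs_nonneg B
      calc |∫ v in Ioc 0 U, e v| ≤ |B| * U + M0 := by linarith
        _ ≤ (M0 + |B|) * (1 + U) := by linarith
    · refine (habs U).trans ?_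
      have h1 : ∫ v in Ioc 0 U, |e v| ≤ M0 := by
        refine setIntegral_mono_set (hloc _).abs ?_ ?_
        · exact Eventually.of_forall fun v => abs_nonneg _
        · exact (Ioc_subset_Ioc_right h).eventuallyLE
      have h2 : 0 ≤ M0 * U := mul_nonneg hM0' hU.le
      have h3 : 0 ≤ |B| * (1 + U) := mul_nonneg (abs_nonneg B) (by linarith)
      linarith
  · rintro ⟨B, hB⟩
    have hB0 : 0 ≤ B := by
      have h1 := (abs_nonneg _).trans (hB 1 one_pos)
      linarith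
    set M0 : ℝ := |∫ v in Ioc 0 (Real.log 2), e v| with hM0
    have hM0' : 0 ≤ M0 := abs_nonneg _
    refine ⟨B * ((Real.log 2)⁻¹ + 1) + M0 * (Real.log 2)⁻¹, fun X hX => ?_⟩
    have hX0 : 0 < X := by linarith
    have hU : Real.log 2 ≤ Real.log X := Real.log_le_log (by norm_num) hX
    have h1 := MainB_key e hloc (Real.log X) hU
    rw [Real.exp_log hX0] at h1
    rw [h1]
    have h2 := hB (Real.log X) (by linarith)
    have h3 := abs_sub (∫ v in Ioc 0 (Real.log X), e v) (∫ v in Ioc 0 (Real.log 2), e v)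
    have h4 : 1 ≤ (Real.log 2)⁻¹ * Real.log X := by
      rw [inv_mul_eq_div, one_le_div hl2]
      exact hU
    have h5 : B * 1 ≤ B * ((Real.log 2)⁻¹ * Real.log X) := mul_le_mul_of_nonneg_left h4 hB0
    have h6 : M0 * 1 ≤ M0 * ((Real.log 2)⁻¹ * Real.log X) := mul_le_mul_of_nonneg_left h4 hM0'
    calc |(∫ v in Ioc 0 (Real.log X), e v) - ∫ v in Ioc 0 (Real.log 2), e v|
        ≤ B * (1 + Real.log X) + M0 := by linarith
      _ ≤ (B * ((Real.log 2)⁻¹ + 1) + M0 * (Real.log 2)⁻¹) * Real.log X := by linarith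

theorem main_bdd (W : WeierstrassCurve ℤ) (L : ℂ → ℂ) (hL : Differentiable ℂ L)
    (hprod : ∀ s : ℂ, 3 / 2 < s.re → Tendsto (fun N : ℕ =>
      ∏ p ∈ (Finset.range N).filter Nat.Prime, (locFactor W p s)⁻¹) atTop (𝓝 (L s)))
    (hgr : ∃ (K : ℝ) (n : ℕ), ∀ s : ℂ, 4 / 5 ≤ s.re → ‖L s‖ ≤ K * (2 + ‖s‖) ^ n) (r : ℕ) :
    ((∀ s : ℂ, 1 < s.re → L s ≠ 0) ∧ ∃ l : ℂ, l ≠ 0 ∧
      Tendsto (fun s : ℂ => L s / (s - 1) ^ r) (𝓝[≠] 1) (𝓝 l)) ↔
      ∃ B : ℝ, ∀ X : ℝ, 2 ≤ X → |∫ x in (2 : ℝ)..X, bsdErr W r 1 x / x| ≤ B * Real.log X := by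
  have H := hyp_W W L hL hprod
  have hloc := ee_loc H (kap 1 r) r
  have hzs : (∀ s : ℂ, 1 < s.re → L s ≠ 0) ↔ ∀ s : ℂ, 0 < s.re → L (1 + s) ≠ 0 := by
    constructor
    · intro h s hs
      exact h (1 + s) (by rw [Complex.add_re, Complex.one_re]; linarith)
    · intro h s hs
      have := h (s - 1) (by rw [Complex.sub_re, Complex.one_re]; linarith)
      simpa using this
  have hb : (∃ B : ℝ, ∀ X : ℝ, 2 ≤ X → |∫ x in (2 : ℝ)..X, bsdErr W r 1 x / x| ≤
        B * Real.log X) ↔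
      ∃ B : ℝ, ∀ U : ℝ, 0 < U → |∫ v in Ioc 0 U, ee (cW W) uW (kap 1 r) r v| ≤ B * (1 + U) := by
    rw [← bdd_iff _ hloc]
    refine exists_congr fun B => forall_congr' fun X => forall_congr' fun hX => ?_
    rw [(int_eq W r 1 one_pos X hX).1]
  rw [hb]
  constructor
  · rintro ⟨h1, l, hl, h2⟩
    have h1' := hzs.1 h1
    have h2' := (tendsto_shift L r l).1 h2
    obtain ⟨lam, hlam, rfl⟩ := lead_pos H (L_real H) h1' r l hl h2'
    have h3 := ((main W L hL hprod hgr r lam hlam).1.1 ⟨h1, h2⟩)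
    have hloc' := ee_loc H (kap lam r) r
    have h4 : Tendsto (fun U : ℝ => U⁻¹ * ∫ v in Ioc 0 U, ee (cW W) uW (kap lam r) r v)
        atTop (𝓝 0) := by
      rw [← mean_iff _ hloc']
      refine (tendsto_congr' ?_).1 h3
      filter_upwards [eventually_ge_atTop (2 : ℝ)] with X hX
      rw [(int_eq W r lam hlam X hX).1]
    obtain ⟨M, hM, h5⟩ := Ces_Fbd _ hloc' h4
    refine ⟨M + 1 + |kap lam r - kap 1 r|, fun U hU => ?_⟩
    have h6 : ∫ v in Ioc 0 U, ee (cW W) uW (kap 1 r) r v =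
        (∫ v in Ioc 0 U, ee (cW W) uW (kap lam r) r v) + U * (kap lam r - kap 1 r) := by
      have h7 : ∀ v, ee (cW W) uW (kap 1 r) r v =
          ee (cW W) uW (kap lam r) r v + (kap lam r - kap 1 r) := by
        intro v
        unfold ee
        ring
      simp_rw [h7]
      rw [integral_add (hloc' U) (integrableOn_const (by simp)), setIntegral_const]
      simp [hU.le]
    rw [h6]
    refine (abs_add_le _ _).trans ?_
    rw [abs_mul, abs_of_pos hU]
    have h8 := h5 U hU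
    have h9 := abs_nonneg (kap lam r - kap 1 r)
    nlinarith
  · rintro ⟨B, hB⟩
    obtain ⟨h1, l, hl, h2⟩ := bdd_main H (kap 1 r) r B hB
    exact ⟨hzs.2 h1, l, hl, (tendsto_shift L r l).2 h2⟩

end BSDC
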