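import Pool.Agent.W_92892c_h19.Defs
import Pool.Agent.W_92892c.NearZero

open MeasureTheory Set Filter Topology

namespace BSDC

open BSDS Complex

variable {ι : Type} {c u : ι → ℝ} {a : ℝ} {L : ℂ → ℂ}

/-- A function which is holomorphic on a symmetric connected open set and real on the real axis
near one point is real on the real axis. -/
theorem Near_conj (U : Set ℂ) (hU : IsOpen U) (hc : IsPreconnected U)
    (hs : ∀ z ∈ U, (starRingEnd ℂ) z ∈ U) (f : ℂ → ℂ) (hf : DifferentiableOn ℂ f U) (x₀ : ℝ)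
    (hx₀ : (x₀ : ℂ) ∈ U) (hr : ∀ᶠ x : ℝ in 𝓝 x₀, (f x).im = 0) (x : ℝ) (hx : (x : ℂ) ∈ U) :
    (f x).im = 0 := by
  obtain ⟨g, hgdef⟩ : ∃ g : ℂ → ℂ, g = fun z => (starRingEnd ℂ) (f ((starRingEnd ℂ) z)) :=
    ⟨_, rfl⟩
  have hg : DifferentiableOn ℂ g U := by
    intro z hz
    have h1 : DifferentiableAt ℂ f ((starRingEnd ℂ) z) :=
      (hf _ (hs z hz)).differentiableAt (hU.mem_nhds (hs z hz))
    have h2 := h1.conj_conj
    rw [Complex.conj_conj] at h2
    rw [hgdef]
    exact h2.differentiableWithinAt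
  have hfa : AnalyticOnNhd ℂ f U := hf.analyticOnNhd hU
  have hga : AnalyticOnNhd ℂ g U := hg.analyticOnNhd hU
  have hfr : ∃ᶠ z in 𝓝[≠] (x₀ : ℂ), f z = g z := by
    have ht : Tendsto (fun y : ℝ => (y : ℂ)) (𝓝[≠] x₀) (𝓝[≠] (x₀ : ℂ)) := by
      refine tendsto_nhdsWithin_of_tendsto_nhds_of_eventually_within _ ?_ ?_
      · exact (Complex.continuous_ofReal.tendsto x₀).mono_left nhdsWithin_le_nhds
      · filter_upwards [self_mem_nhdsWithin] with y hy
        intro h
        exact hy (Complex.ofReal_injective h)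
    refine ht.frequently ?_
    refine Eventually.frequently ?_
    filter_upwards [hr.filter_mono nhdsWithin_le_nhds] with y hy
    rw [hgdef]
    simp only [Complex.conj_ofReal]
    exact (Complex.conj_eq_iff_im.2 hy).symm
  have he := hfa.eqOn_of_preconnected_of_frequently_eq hga hc hx₀ hfr
  have h1 := he hx
  rw [hgdef] at h1
  simp only [Complex.conj_ofReal] at h1
  exact Complex.conj_eq_iff_im.1 h1.symm

/-- `L` is real on the real axis: `s ↦ conj (L (conj s))` is entire and equals `L` at real `x ≥ a`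
(`H.LD`, `Dser_ofReal`), so everywhere (identity theorem). -/
theorem L_real (H : Hyp c u a L) (x : ℝ) : (L x).im = 0 := by
  refine Near_conj univ isOpen_univ isPreconnected_univ (fun _ _ => mem_univ _) L
    H.Lent.differentiableOn (a + 1) (mem_univ _) ?_ x (mem_univ _)
  filter_upwards [lt_mem_nhds (show a < a + 1 by linarith)] with y hy
  rw [H.LD y (by rw [Complex.ofReal_re]; exact hy.le), Dser_ofReal H y hy.le, ← Complex.ofReal_exp,
    Complex.ofReal_im]

/-- `Gt x` is real for real `x > 0`: `exp (-Gt x) = L x` is real, so `Im Gt x ∈ π ℤ`; it is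
continuous in `x > 0` and `0` for `x > a` (`hD`, `Dser_ofReal`). -/
theorem Gt_real (H : Hyp c u a L) (Gt : ℂ → ℂ)
    (hGt : DifferentiableOn ℂ Gt {s : ℂ | 0 < s.re})
    (hD : ∀ s : ℂ, a < s.re → Gt s = -Dser c u s)
    (he : ∀ s : ℂ, 0 < s.re → L s * Complex.exp (Gt s) = 1) (x : ℝ) (hx : 0 < x) :
    (Gt x).im = 0 := by
  have ho : IsOpen {s : ℂ | 0 < s.re} := isOpen_lt continuous_const Complex.continuous_re
  have hc : IsPreconnected {s : ℂ | 0 < s.re} := (convex_halfSpace_re_gt 0).isPreconnected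
  have ha : (1 : ℝ) ≤ a := H.apos
  refine Near_conj {s : ℂ | 0 < s.re} ho hc ?_ Gt hGt (a + 1) ?_ ?_ x ?_
  · intro z hz
    change 0 < ((starRingEnd ℂ) z).re
    rw [Complex.conj_re]
    exact hz
  · change 0 < ((a + 1 : ℝ) : ℂ).re
    rw [Complex.ofReal_re]
    linarith
  · filter_upwards [lt_mem_nhds (show a < a + 1 by linarith)] with y hy
    rw [hD y (by rw [Complex.ofReal_re]; exact hy), Dser_ofReal H y hy.le, ← Complex.ofReal_neg,
      Complex.ofReal_im]
  · change 0 < ((x : ℝ) : ℂ).re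
    rw [Complex.ofReal_re]
    exact hx

/-- Near `0`: by the limit, `L s = s^r g s` with `g` analytic at `0` and `g 0 = lam`
(`NearZero_factor`; the exponent is `r`, as in the proof of `near_zero`).  Take `δ` with `g` analytic
and `‖g - lam‖ < lam` on the ball, so `g` is in the right half plane; `Λ = -log g` (principal).  For
`s` in the half ball, `Gt s + r log s - Λ s` is continuous with exponential
`(1/L s) s^r g s = 1`, so it is constant on the (convex) half ball, and it is real at real `s`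
(`Gt_real`; `g s` is real and positive there since `L s`, `s^r` are real) and in `2πiℤ`, so `0`. -/
theorem near0' (H : Hyp c u a L) (Gt : ℂ → ℂ)
    (hGt : DifferentiableOn ℂ Gt {s : ℂ | 0 < s.re})
    (hD : ∀ s : ℂ, a < s.re → Gt s = -Dser c u s)
    (he : ∀ s : ℂ, 0 < s.re → L s * Complex.exp (Gt s) = 1) (r : ℕ) (lam : ℝ) (hlam : 0 < lam)
    (hlim : Tendsto (fun s : ℂ => L s / s ^ r) (𝓝[≠] 0) (𝓝 (lam : ℂ))) :
    ∃ (δ : ℝ) (Λ : ℂ → ℂ), 0 < δ ∧ AnalyticOnNhd ℂ Λ (Metric.ball 0 δ) ∧
      Λ 0 = ((-Real.log lam : ℝ) : ℂ) ∧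
      ∀ s ∈ Metric.ball (0 : ℂ) δ, 0 < s.re → Gt s + r * Complex.log s = Λ s := by
  obtain ⟨g, hgdef⟩ : ∃ g : ℂ → ℂ, g = Function.update (fun s : ℂ => L s / s ^ r) 0 (lam : ℂ) :=
    ⟨_, rfl⟩
  have hg0 : g 0 = lam := by rw [hgdef, Function.update_self]
  have hgne : ∀ s : ℂ, s ≠ 0 → g s = L s / s ^ r := fun s hs => by
    rw [hgdef, Function.update_of_ne hs]
  have hgc : ContinuousAt g 0 := by
    rw [hgdef]
    exact continuousAt_update_same.2 hlim
  have hgd : ∀ s : ℂ, s ≠ 0 → DifferentiableAt ℂ g s := by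
    intro s hs
    have h1 : DifferentiableAt ℂ (fun s : ℂ => L s / s ^ r) s :=
      (H.Lent s).div (differentiableAt_pow r) (pow_ne_zero r hs)
    refine h1.congr_of_eventuallyEq ?_
    filter_upwards [isOpen_ne.mem_nhds hs] with z hz
    exact hgne z hz
  have hga0 : AnalyticAt ℂ g 0 := by
    refine Complex.analyticAt_of_differentiable_on_punctured_nhds_of_continuousAt ?_ hgc
    filter_upwards [self_mem_nhdsWithin] with z hz
    exact hgd z hz
  have hgD : Differentiable ℂ g := by
    intro s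
    by_cases hs : s = 0
    · rw [hs]
      exact hga0.differentiableAt
    · exact hgd s hs
  have hev : ∀ᶠ s in 𝓝 (0 : ℂ), ‖g s - lam‖ < lam := by
    have h1 : ContinuousAt (fun s => ‖g s - lam‖) 0 := (hgc.sub continuousAt_const).norm
    have h2 : ‖g 0 - lam‖ < lam := by
      rw [hg0, sub_self, norm_zero]
      exact hlam
    exact h1.eventually_lt_const h2
  obtain ⟨δ, hδ, hball⟩ := Metric.eventually_nhds_iff.1 hev
  have hre : ∀ s ∈ Metric.ball (0 : ℂ) δ, 0 < (g s).re := by
    intro s hs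
    have h1 := hball (Metric.mem_ball.1 hs)
    have h2 := (Complex.abs_re_le_norm (g s - lam)).trans_lt h1
    rw [Complex.sub_re, Complex.ofReal_re, abs_lt] at h2
    linarith [h2.1]
  have hslit : ∀ s ∈ Metric.ball (0 : ℂ) δ, g s ∈ Complex.slitPlane := fun s hs =>
    Complex.mem_slitPlane_iff.2 (Or.inl (hre s hs))
  refine ⟨δ, fun s => -Complex.log (g s), hδ, ?_, ?_, ?_⟩
  · intro s hs
    exact ((hgD.analyticAt s).clog (hslit s hs)).neg
  · change -Complex.log (g 0) = _
    rw [hg0, ← Complex.ofReal_log hlam.le, Complex.ofReal_neg]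
  · have hS : IsOpen (Metric.ball (0 : ℂ) δ ∩ {s : ℂ | 0 < s.re}) :=
      Metric.isOpen_ball.inter (isOpen_lt continuous_const Complex.continuous_re)
    have hSc : IsPreconnected (Metric.ball (0 : ℂ) δ ∩ {s : ℂ | 0 < s.re}) :=
      ((convex_ball (0 : ℂ) δ).inter (convex_halfSpace_re_gt 0)).isPreconnected
    obtain ⟨h, hhdef⟩ : ∃ h : ℂ → ℂ, h = fun s => Gt s + r * Complex.log s + Complex.log (g s) :=
      ⟨_, rfl⟩
    have hne0 : ∀ s ∈ Metric.ball (0 : ℂ) δ ∩ {s : ℂ | 0 < s.re}, s ≠ 0 := by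
      rintro s ⟨_, hs⟩ h0
      have hs' : (0 : ℝ) < s.re := hs
      rw [h0, Complex.zero_re] at hs'
      exact lt_irrefl _ hs'
    have hexp : ∀ s ∈ Metric.ball (0 : ℂ) δ ∩ {s : ℂ | 0 < s.re}, Complex.exp (h s) = 1 := by
      intro s hs
      have hs0 := hne0 s hs
      have hg1 : g s ≠ 0 := Complex.slitPlane_ne_zero (hslit s hs.1)
      rw [hhdef]
      change Complex.exp (Gt s + r * Complex.log s + Complex.log (g s)) = 1
      rw [Complex.exp_add, Complex.exp_add, Complex.exp_log hg1, Complex.exp_nat_mul,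
        Complex.exp_log hs0, hgne s hs0]
      have h1 := he s hs.2
      have h2 : s ^ r ≠ 0 := pow_ne_zero r hs0
      field_simp
      rw [mul_comm]
      exact h1
    have hdiff : ∀ s ∈ Metric.ball (0 : ℂ) δ ∩ {s : ℂ | 0 < s.re}, DifferentiableAt ℂ h s := by
      intro s hs
      have h1 : DifferentiableAt ℂ Gt s := (hGt s hs.2).differentiableAt
        ((isOpen_lt continuous_const Complex.continuous_re).mem_nhds hs.2)
      have h2 : DifferentiableAt ℂ Complex.log s :=
        Complex.differentiableAt_log (Complex.mem_slitPlane_iff.2 (Or.inl hs.2))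
      have h3 : DifferentiableAt ℂ (fun s => Complex.log (g s)) s :=
        (hgD s).clog (hslit s hs.1)
      rw [hhdef]
      exact (h1.add (h2.const_mul _)).add h3
    have hder : (Metric.ball (0 : ℂ) δ ∩ {s : ℂ | 0 < s.re}).EqOn (deriv h) 0 := by
      intro s hs
      have h1 : HasDerivAt (fun z => Complex.exp (h z)) (Complex.exp (h s) * deriv h s) s :=
        (hdiff s hs).hasDerivAt.cexp
      have h2 : (fun z => Complex.exp (h z)) =ᶠ[𝓝 s] fun _ => (1 : ℂ) := by
        filter_upwards [hS.mem_nhds hs] with z hz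
        exact hexp z hz
      have h3 : HasDerivAt (fun z => Complex.exp (h z)) 0 s :=
        (hasDerivAt_const s (1 : ℂ)).congr_of_eventuallyEq h2
      have h4 := h1.unique h3
      rw [hexp s hs, one_mul] at h4
      exact h4
    have hconst : ∀ s ∈ Metric.ball (0 : ℂ) δ ∩ {s : ℂ | 0 < s.re},
        ∀ t ∈ Metric.ball (0 : ℂ) δ ∩ {s : ℂ | 0 < s.re}, h s = h t := fun s hs t ht =>
      hS.is_const_of_deriv_eq_zero hSc (fun z hz => (hdiff z hz).differentiableWithinAt) hder hs ht
    -- the real point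
    have hx0 : ((δ / 2 : ℝ) : ℂ) ∈ Metric.ball (0 : ℂ) δ ∩ {s : ℂ | 0 < s.re} := by
      constructor
      · rw [Metric.mem_ball, dist_zero_right, Complex.norm_real, Real.norm_eq_abs,
          abs_of_pos (by linarith)]
        linarith
      · change 0 < ((δ / 2 : ℝ) : ℂ).re
        rw [Complex.ofReal_re]
        linarith
    have hpos : 0 < δ / 2 := by linarith
    have hgim : (g ((δ / 2 : ℝ) : ℂ)).im = 0 := by
      rw [hgne _ (hne0 _ hx0)]
      have h1 : L ((δ / 2 : ℝ) : ℂ) = (((L ((δ / 2 : ℝ) : ℂ)).re : ℝ) : ℂ) := by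
        apply Complex.ext
        · rw [Complex.ofReal_re]
        · rw [Complex.ofReal_im]
          exact L_real H _
      rw [h1, ← Complex.ofReal_pow, ← Complex.ofReal_div, Complex.ofReal_im]
    have hgre : g ((δ / 2 : ℝ) : ℂ) = (((g ((δ / 2 : ℝ) : ℂ)).re : ℝ) : ℂ) := by
      apply Complex.ext
      · rw [Complex.ofReal_re]
      · rw [Complex.ofReal_im]
        exact hgim
    have hlg : (Complex.log (g ((δ / 2 : ℝ) : ℂ))).im = 0 := by
      rw [hgre, ← Complex.ofReal_log (hre _ hx0.1).le, Complex.ofReal_im]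
    have hls : (Complex.log ((δ / 2 : ℝ) : ℂ)).im = 0 := by
      rw [← Complex.ofReal_log hpos.le, Complex.ofReal_im]
    have hGr := Gt_real H Gt hGt hD he (δ / 2) hpos
    have him : (h ((δ / 2 : ℝ) : ℂ)).im = 0 := by
      rw [hhdef]
      change (Gt ((δ / 2 : ℝ) : ℂ) + r * Complex.log ((δ / 2 : ℝ) : ℂ) +
        Complex.log (g ((δ / 2 : ℝ) : ℂ))).im = 0
      rw [Complex.add_im, Complex.add_im, hGr, hlg, Complex.mul_im, hls, Complex.natCast_im]
      ring
    have hval : h ((δ / 2 : ℝ) : ℂ) = 0 := by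
      obtain ⟨n, hn⟩ := Complex.exp_eq_one_iff.1 (hexp _ hx0)
      have h1 : (h ((δ / 2 : ℝ) : ℂ)).im = n * (2 * Real.pi) := by
        rw [hn]
        simp
      rw [him] at h1
      have h2 : (n : ℝ) = 0 := by
        rcases mul_eq_zero.1 h1.symm with h3 | h3
        · exact h3
        · exact absurd h3 (by positivity)
      have h3 : n = 0 := by exact_mod_cast h2
      rw [hn, h3]
      simp
    intro s hs hs0
    have h1 : h s = 0 := (hconst s ⟨hs, hs0⟩ _ hx0).trans hval
    rw [hhdef] at h1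
    change Gt s + r * Complex.log s = -Complex.log (g s)
    have h2 : Gt s + r * Complex.log s + Complex.log (g s) = 0 := h1
    linear_combination h2

end BSDC
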