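import Pool.Agent.W_3283e1_h53.EtD

open MeasureTheory Set Filter Topology

namespace BSDC

open W3283g Complex

/-- `W3283g.Et_pt` with `ρ` instead of `1` (same proof; `‖s‖ ≤ ρ + |Im s|`). -/
theorem Et_pt' (Gt : ℂ → ℂ) (κ : ℝ) (r : ℕ) (C : ℝ) (hC : 0 < C) (ρ : ℝ) (hρ : 0 < ρ)
    (h1 : ∀ s : ℂ, 0 < s.re → s.re ≤ ρ →
      ‖Gt s‖ ≤ C * Real.log (2 + |s.im|) * (1 + |Real.log s.re|)) (σ : ℝ) (hσ : 0 < σ) :
    ∃ C' : ℝ, ∀ s : ℂ, σ ≤ s.re → s.re ≤ ρ → ‖Et Gt κ r s‖ ≤ C' * (1 + |s.im|) := by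
  refine ⟨(2 * C * (1 + (|Real.log σ| + |Real.log ρ|)) +
    (r * (1 + (|Real.log σ| + (ρ + 1) + Real.pi)) + |κ|)) / σ, ?_⟩
  intro s hs hs1
  have hre : 0 < s.re := hσ.trans_le hs
  have him := abs_nonneg s.im
  have hT : 1 ≤ 1 + |s.im| := by linarith
  have hn1 : σ ≤ ‖s‖ := hs.trans (Complex.re_le_norm s)
  have hn2 : ‖s‖ ≤ ρ + |s.im| := by
    have := Complex.norm_le_abs_re_add_abs_im s
    rw [abs_of_pos hre] at this
    linarith
  have hlσ := neg_abs_le (Real.log σ)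
  have hlσ0 := abs_nonneg (Real.log σ)
  have hlρ := le_abs_self (Real.log ρ)
  have hlρ0 := abs_nonneg (Real.log ρ)
  have hlog : |Real.log ‖s‖| ≤ |Real.log σ| + (ρ + |s.im|) := by
    have h3 : Real.log σ ≤ Real.log ‖s‖ := Real.log_le_log hσ hn1
    have h4 : Real.log ‖s‖ ≤ Real.log (ρ + |s.im|) := Real.log_le_log (hσ.trans_le hn1) hn2
    have h5 : Real.log (ρ + |s.im|) ≤ ρ + |s.im| - 1 := Real.log_le_sub_one_of_pos (by linarith)
    rw [abs_le]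
    constructor <;> linarith
  have hL : ‖Complex.log s‖ ≤ |Real.log σ| + (ρ + |s.im|) + Real.pi :=
    (EtB_norm_log s).trans (by linarith)
  have hN := EtB_num Gt κ r s _ hL
  have hG : ‖Gt s‖ ≤ 2 * C * (1 + (|Real.log σ| + |Real.log ρ|)) * (1 + |s.im|) := by
    have h3 := h1 s hre hs1
    have h4 : Real.log (2 + |s.im|) ≤ 2 * (1 + |s.im|) := by
      have := Real.log_le_sub_one_of_pos (by linarith : 0 < 2 + |s.im|)
      linarith
    have h5 : |Real.log s.re| ≤ |Real.log σ| + |Real.log ρ| := by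
      have h6 : Real.log σ ≤ Real.log s.re := Real.log_le_log hσ hs
      have h7 : Real.log s.re ≤ Real.log ρ := Real.log_le_log hre hs1
      rw [abs_le]
      constructor <;> linarith
    have h8 : C * Real.log (2 + |s.im|) * (1 + |Real.log s.re|) ≤
        C * (2 * (1 + |s.im|)) * (1 + (|Real.log σ| + |Real.log ρ|)) := by
      gcongr
    linarith
  have hQ : (r : ℝ) * (1 + (|Real.log σ| + (ρ + |s.im|) + Real.pi)) + |κ| ≤
      (r * (1 + (|Real.log σ| + (ρ + 1) + Real.pi)) + |κ|) * (1 + |s.im|) := by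
    have hpi := Real.pi_pos
    have h3 : 1 + (|Real.log σ| + (ρ + |s.im|) + Real.pi) ≤
        (1 + (|Real.log σ| + (ρ + 1) + Real.pi)) * (1 + |s.im|) := by
      have h4 : 0 ≤ (1 + |Real.log σ| + ρ + Real.pi) * |s.im| := by positivity
      nlinarith
    have h5 := mul_le_mul_of_nonneg_left h3 (Nat.cast_nonneg (α := ℝ) r)
    have h6 : |κ| ≤ |κ| * (1 + |s.im|) := le_mul_of_one_le_right (abs_nonneg κ) hT
    linarith
  unfold Et
  rw [_root_.norm_div, div_mul_eq_mul_div]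
  have hpi := Real.pi_pos
  apply div_le_div₀ (by positivity) _ hσ hn1
  refine hN.trans ?_
  linarith

/-- `W3283g.Et_dpt` with `ρ` instead of `1` (same proof). -/
theorem Et_dpt' (Gt : ℂ → ℂ) (κ : ℝ) (r : ℕ) (hGt : DifferentiableOn ℂ Gt {s : ℂ | 0 < s.re})
    (C : ℝ) (hC : 0 < C) (ρ : ℝ) (hρ : 0 < ρ)
    (h1 : ∀ s : ℂ, 0 < s.re → s.re ≤ ρ →
      ‖Gt s‖ ≤ C * Real.log (2 + |s.im|) * (1 + |Real.log s.re|))
    (h4 : ∀ s : ℂ, 0 < s.re → s.re ≤ ρ → ‖deriv Gt s‖ ≤ C * Real.log (2 + |s.im|) / s.re)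
    (σ : ℝ) (hσ : 0 < σ) :
    ∃ C' : ℝ, ∀ s : ℂ, σ ≤ s.re → s.re ≤ ρ →
      ‖deriv (Et Gt κ r) s‖ ≤ C' * (1 + |s.im|) := by
  obtain ⟨C1, hC1⟩ := Et_pt' Gt κ r C hC ρ hρ h1 σ hσ
  refine ⟨(C * 2 / σ + r / σ) / σ + C1 / σ, fun s hs hs1 => ?_⟩
  have hre : 0 < s.re := hσ.trans_le hs
  have hT : 1 ≤ 1 + |s.im| := by linarith [abs_nonneg s.im]
  have hn1 : σ ≤ ‖s‖ := hs.trans (Complex.re_le_norm s)
  have hE := hC1 s hs hs1
  have hG := h4 s hre hs1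
  have hlog : Real.log (2 + |s.im|) ≤ 2 * (1 + |s.im|) := by
    have := Real.log_le_sub_one_of_pos (by linarith [abs_nonneg s.im] : 0 < 2 + |s.im|)
    linarith
  have hG2 : ‖deriv Gt s‖ ≤ C * 2 / σ * (1 + |s.im|) := by
    refine hG.trans ?_
    have h5 : C * Real.log (2 + |s.im|) / s.re ≤ C * (2 * (1 + |s.im|)) / σ := by
      have hC0 : 0 ≤ C * (2 * (1 + |s.im|)) := by positivity
      exact div_le_div₀ hC0 (mul_le_mul_of_nonneg_left hlog hC.le) hσ hs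
    refine h5.trans (le_of_eq ?_)
    ring
  have h6 : ‖deriv Gt s + r / s‖ ≤ (C * 2 / σ + r / σ) * (1 + |s.im|) := by
    refine (norm_add_le _ _).trans ?_
    rw [_root_.norm_div, Complex.norm_natCast]
    have h7 : (r : ℝ) / ‖s‖ ≤ r / σ := div_le_div_of_nonneg_left (Nat.cast_nonneg r) hσ hn1
    have h8 : (r : ℝ) / σ ≤ r / σ * (1 + |s.im|) := le_mul_of_one_le_right (by positivity) hT
    linarith
  rw [(EtD_deriv Gt κ r hGt s hre).deriv]
  refine (norm_sub_le _ _).trans ?_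
  rw [_root_.norm_div, _root_.norm_div]
  have h8 : ‖deriv Gt s + r / s‖ / ‖s‖ ≤ (C * 2 / σ + r / σ) * (1 + |s.im|) / σ :=
    div_le_div₀ (by positivity) h6 hσ hn1
  have h9 : ‖Et Gt κ r s‖ / ‖s‖ ≤ C1 * (1 + |s.im|) / σ :=
    div_le_div₀ ((norm_nonneg _).trans hE) hE hσ hn1
  have h10 : ((C * 2 / σ + r / σ) / σ + C1 / σ) * (1 + |s.im|) =
      (C * 2 / σ + r / σ) * (1 + |s.im|) / σ + C1 * (1 + |s.im|) / σ := by ring
  rw [h10]
  exact add_le_add h8 h9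

end BSDC
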