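import Pool.Agent.W_3283e1_h53.LapD

open MeasureTheory Set Filter Topology

namespace BSDC

open W3283g Complex

/-- change of variables for `∫⁻` -/
theorem Scale_lin (ρ : ℝ) (hρ : 0 < ρ) (f : ℝ → ENNReal) :
    ENNReal.ofReal ρ * ∫⁻ t : ℝ, f (ρ * t) = ∫⁻ t : ℝ, f t := by
  have h1 : ∫⁻ t : ℝ, f t ∂(Measure.map (MeasurableEquiv.mulLeft₀ ρ hρ.ne') volume) =
      ∫⁻ t : ℝ, f (ρ * t) := lintegral_map_equiv f (MeasurableEquiv.mulLeft₀ ρ hρ.ne')
  have h2 : Measure.map (MeasurableEquiv.mulLeft₀ ρ hρ.ne') (volume : Measure ℝ) =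
      ENNReal.ofReal |ρ⁻¹| • volume := Real.map_volume_mul_left hρ.ne'
  rw [h2, lintegral_smul_measure, abs_of_pos (inv_pos.2 hρ)] at h1
  rw [← h1, smul_eq_mul, ← mul_assoc, ← ENNReal.ofReal_mul hρ.le, mul_inv_cancel₀ hρ.ne',
    ENNReal.ofReal_one, one_mul]

theorem Scale_ind (ρ : ℝ) (hρ : 0 < ρ) (f : ℝ → ENNReal) :
    ENNReal.ofReal ρ * ∫⁻ t in Set.Ioi (0 : ℝ), f (ρ * t) = ∫⁻ t in Set.Ioi (0 : ℝ), f t := by
  rw [← lintegral_indicator measurableSet_Ioi, ← lintegral_indicator measurableSet_Ioi,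
    ← Scale_lin ρ hρ ((Set.Ioi (0 : ℝ)).indicator f)]
  congr 1
  refine lintegral_congr fun t => ?_
  by_cases ht : 0 < t
  · rw [Set.indicator_of_mem (show t ∈ Set.Ioi (0 : ℝ) from ht),
      Set.indicator_of_mem (show ρ * t ∈ Set.Ioi (0 : ℝ) from mul_pos hρ ht)]
  · rw [Set.indicator_of_notMem (show t ∉ Set.Ioi (0 : ℝ) from ht),
      Set.indicator_of_notMem (show ρ * t ∉ Set.Ioi (0 : ℝ) from fun h =>
        ht ((mul_pos_iff_of_pos_left hρ).1 h))]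

/-- `W3283g.l2_sig` with the line `Re s = ρ` instead of `Re s = 1`: apply it to `e' v = e (v/ρ)`,
`E' s = ρ E (ρ s)`, `σ' = σ/ρ`, `B' = ρ B`, `C' = ρ C (1 + ρ)` (change of variables `v = ρ w`,
`integral_comp_mul_left_Ioi`, `lintegral` versions by `Measure.map`/`lintegral_comp_mul_left`-type
lemmas or `Real.map_volume_mul_left`).  If it is easier, repeat the short proofs of `l2_eps`,
`l2_sig` with `ρ` in place of `1`. -/
theorem l2_sig' (e : ℝ → ℝ) (he : Measurable e)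
    (hcont : ∀ᵐ u ∂(volume.restrict (Set.Ioi (0 : ℝ))), ContinuousAt e u) (ρ : ℝ) (hρ : 0 < ρ)
    (hint : IntegrableOn (fun v : ℝ => e v * Real.exp (-(ρ * v))) (Set.Ioi 0)) (E : ℂ → ℂ)
    (hE : DifferentiableOn ℂ E {s : ℂ | 0 < s.re})
    (hEe : ∀ t : ℝ, E ((ρ : ℂ) + t * I) =
      ∫ v in Set.Ioi (0 : ℝ), (e v : ℂ) * Complex.exp (-(((ρ : ℂ) + t * I) * v)))
    (σ : ℝ) (hσ : 0 < σ) (hσ1 : σ ≤ ρ) (C : ℝ)
    (hC : ∀ s : ℂ, σ ≤ s.re → s.re ≤ ρ → ‖E s‖ ≤ C * (1 + |s.im|)) (B : ℝ)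
    (hB : ∫⁻ t : ℝ, ‖E ((σ : ℂ) + t * I)‖ₑ ^ 2 ≤ ENNReal.ofReal B) :
    ∫⁻ u in Set.Ioi (0 : ℝ), ENNReal.ofReal ((e u) ^ 2 * Real.exp (-(2 * σ * u))) ≤
      ENNReal.ofReal B := by
  have hρ0 : ρ ≠ 0 := hρ.ne'
  have hρc : (ρ : ℂ) ≠ 0 := by exact_mod_cast hρ0
  have hσ' : 0 < σ / ρ := by positivity
  have key := l2_sig (fun v => e (ρ⁻¹ * v)) (he.comp (measurable_const_mul _)) ?_ ?_
    (fun s => ρ * E (ρ * s)) ?_ ?_ (σ / ρ) hσ' ((div_le_one hρ).2 hσ1) (ρ * (|C| * (1 + ρ))) ?_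
    (ρ * B) ?_
  · have h1 := Scale_ind ρ hρ (fun u => ENNReal.ofReal ((e (ρ⁻¹ * u)) ^ 2 *
      Real.exp (-(2 * (σ / ρ) * u))))
    rw [← h1, ENNReal.ofReal_mul hρ.le] at key
    have h2 : ENNReal.ofReal ρ ≠ 0 := by
      rw [Ne, ENNReal.ofReal_eq_zero, not_le]
      exact hρ
    have h3 := (ENNReal.mul_le_mul_iff_right h2 ENNReal.ofReal_ne_top).1 key
    refine le_trans (le_of_eq ?_) h3
    refine lintegral_congr fun u => ?_
    have h4 : ρ⁻¹ * (ρ * u) = u := by field_simp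
    have h5 : 2 * (σ / ρ) * (ρ * u) = 2 * σ * u := by field_simp
    rw [h4, h5]
  · rw [ae_restrict_iff' measurableSet_Ioi] at hcont ⊢
    have hq : Measure.QuasiMeasurePreserving (fun x : ℝ => ρ⁻¹ * x) volume volume := by
      refine ⟨measurable_const_mul _, ?_⟩
      rw [Real.map_volume_mul_left (inv_ne_zero hρ0)]
      exact Measure.smul_absolutelyContinuous
    filter_upwards [hq.ae hcont] with u hu hu0
    have h1 : ContinuousAt e (ρ⁻¹ * u) := hu (mul_pos (inv_pos.2 hρ) hu0)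
    exact ContinuousAt.comp (f := fun v => ρ⁻¹ * v) h1
      (continuous_const.mul continuous_id).continuousAt
  · have h1 := (integrableOn_Ioi_comp_mul_left_iff
      (fun v : ℝ => e (ρ⁻¹ * v) * Real.exp (-v)) 0 hρ).1 ?_
    · rwa [mul_zero] at h1
    · refine hint.congr_fun (fun v _ => ?_) measurableSet_Ioi
      have h4 : ρ⁻¹ * (ρ * v) = v := by field_simp
      simp only [h4]
  · intro s hs
    have hs' : 0 < s.re := hs
    have hopen : IsOpen {s : ℂ | 0 < s.re} := isOpen_lt continuous_const Complex.continuous_re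
    have h1 : 0 < ((ρ : ℂ) * s).re := by
      rw [Complex.re_ofReal_mul]
      exact mul_pos hρ hs'
    have h2 : DifferentiableAt ℂ E (ρ * s) := (hE _ h1).differentiableAt (hopen.mem_nhds h1)
    have h3 : DifferentiableAt ℂ (fun s : ℂ => (ρ : ℂ) * s) s :=
      (differentiableAt_const _).mul differentiableAt_id
    exact ((DifferentiableAt.comp s h2 h3).const_mul (ρ : ℂ)).differentiableWithinAt
  · intro t
    have h1 : (ρ : ℂ) * ((1 : ℂ) + t * I) = (ρ : ℂ) + ((ρ * t : ℝ) : ℂ) * I := by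
      push_cast
      ring
    have h2 := integral_comp_mul_left_Ioi
      (fun v : ℝ => (e (ρ⁻¹ * v) : ℂ) * Complex.exp (-(((1 : ℂ) + t * I) * v))) 0 hρ
    rw [mul_zero] at h2
    rw [h1, hEe (ρ * t)]
    have h3 : (∫ v in Set.Ioi (0 : ℝ), (e v : ℂ) *
        Complex.exp (-(((ρ : ℂ) + ((ρ * t : ℝ) : ℂ) * I) * v))) =
        ρ⁻¹ • ∫ v in Set.Ioi (0 : ℝ), (e (ρ⁻¹ * v) : ℂ) *
          Complex.exp (-(((1 : ℂ) + t * I) * v)) := by
      rw [← h2]
      refine setIntegral_congr_fun measurableSet_Ioi fun v _ => ?_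
      have h4 : ρ⁻¹ * (ρ * v) = v := by field_simp
      simp only [h4]
      congr 2
      push_cast
      ring
    rw [h3, Complex.real_smul, ← mul_assoc]
    push_cast
    rw [mul_inv_cancel₀ hρc, one_mul]
  · intro s hs hs1
    have h1 : ((ρ : ℂ) * s).re = ρ * s.re := Complex.re_ofReal_mul _ _
    have h2 : ((ρ : ℂ) * s).im = ρ * s.im := Complex.im_ofReal_mul _ _
    have h3 := hC (ρ * s) (by rw [h1]; rwa [div_le_iff₀' hρ] at hs)
      (by rw [h1]; nlinarith)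
    rw [norm_mul, Complex.norm_real, Real.norm_eq_abs, abs_of_pos hρ, mul_assoc]
    refine mul_le_mul_of_nonneg_left (h3.trans ?_) hρ.le
    rw [h2, abs_mul, abs_of_pos hρ, mul_assoc]
    have h4 : 0 ≤ 1 + ρ * |s.im| := by positivity
    have h5 : C * (1 + ρ * |s.im|) ≤ |C| * (1 + ρ * |s.im|) :=
      mul_le_mul_of_nonneg_right (le_abs_self C) h4
    refine h5.trans (mul_le_mul_of_nonneg_left ?_ (abs_nonneg C))
    nlinarith [abs_nonneg s.im]
  · have h1 := Scale_lin ρ hρ (fun t => ‖E ((σ : ℂ) + t * I)‖ₑ ^ 2)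
    have h2 : ∀ t : ℝ, (ρ : ℂ) * (((σ / ρ : ℝ) : ℂ) + t * I) = (σ : ℂ) + ((ρ * t : ℝ) : ℂ) * I := by
      intro t
      push_cast
      field_simp
    have h3 : ∀ t : ℝ, ‖(ρ : ℂ) * E (ρ * (((σ / ρ : ℝ) : ℂ) + t * I))‖ₑ ^ 2 =
        ENNReal.ofReal ρ * (ENNReal.ofReal ρ * ‖E ((σ : ℂ) + ((ρ * t : ℝ) : ℂ) * I)‖ₑ ^ 2) := by
      intro t
      rw [h2 t, enorm_mul, mul_pow, ← mul_assoc]
      congr 1
      rw [← ofReal_norm, Complex.norm_real, Real.norm_eq_abs, abs_of_pos hρ, sq]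
    simp only [h3]
    rw [lintegral_const_mul' _ _ ENNReal.ofReal_ne_top,
      lintegral_const_mul' _ _ ENNReal.ofReal_ne_top, h1, ENNReal.ofReal_mul hρ.le]
    exact mul_le_mul_right hB _

end BSDC
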