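import Pool.Agent.W_92892c_h19.Ee
import Pool.Agent.W_92892c_h19.LogG
import Pool.Agent.W_92892c_h19.Bds
import Pool.Agent.W_92892c_h19.Near
import Pool.Agent.W_92892c_h19.Scale
import Pool.Agent.W_92892c_h19.Pt

open MeasureTheory Set Filter Topology

namespace BSDC

open BSDS W3283g W3283f Complex

variable {ι : Type} {c u : ι → ℝ} {a : ℝ} {L : ℂ → ℂ}

/-- The constant in the notation of `W3283f.lGold`: with `l = √2 lam`,
`log (√2/|l|) = -log lam` and `lGold l r = kap lam r`. -/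
theorem kap_eq (lam : ℝ) (hlam : 0 < lam) (r : ℕ) :
    Real.log (Real.sqrt 2 / |Real.sqrt 2 * lam|) = -Real.log lam ∧
      lGold (Real.sqrt 2 * lam) r = kap lam r := by
  have h2 : 0 < Real.sqrt 2 := Real.sqrt_pos.2 (by norm_num)
  have h1 : Real.log (Real.sqrt 2 / |Real.sqrt 2 * lam|) = -Real.log lam := by
    rw [abs_of_pos (mul_pos h2 hlam), div_mul_cancel_left₀ h2.ne', Real.log_inv]
  refine ⟨h1, ?_⟩
  unfold lGold kap
  rw [h1]
  ring

/-- The mean square bound, as `W3283g.rh_msq`: `Gt` from `Gt_ex`, the bounds `Gt_bds` with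
`ρ = a + 1`, `near0'`, `Et_dnear` (with `l = √2 lam`, `kap_eq`), `Et_D2`, `Et_dpt'`, the function
`v ee(v)` and its transform `-(Et Gt κ r)'` on `Re s > a` (`lap_deriv`, `lap_mul_int`, `ee_int`,
`ee_transform`, `hD`), `l2_sig'` with `ρ = a + 1` and `σ ≤ min σ1 1 ≤ ρ`, `l2_grow`. -/
theorem msq (H : Hyp c u a L) (hgr : Gro L) (hz : ∀ s : ℂ, 0 < s.re → L s ≠ 0) (r : ℕ) (lam : ℝ)
    (hlam : 0 < lam)
    (hlim : Tendsto (fun s : ℂ => L s / s ^ r) (𝓝[≠] 0) (𝓝 (lam : ℂ))) :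
    ∃ B : ℝ, 0 ≤ B ∧ ∀ U : ℝ, 1 ≤ U →
      IntegrableOn (fun v : ℝ => (v * ee c u (kap lam r) r v) ^ 2) (Set.Ioc 0 U) ∧
        ∫ v in Set.Ioc 0 U, (v * ee c u (kap lam r) r v) ^ 2 ≤ B * U := by
  have ha := H.apos
  have hρ : 0 < a + 1 := by linarith
  obtain ⟨Gt, hGt, hD, he⟩ := Gt_ex H hz
  obtain ⟨C, hC, h2, h3, h1, h4⟩ := Gt_bds H hgr hz Gt hGt hD he (a + 1)
  obtain ⟨δ, Λ, hδ, hΛ, hΛ0, hΛe⟩ := near0' H Gt hGt hD he r lam hlam hlim
  obtain ⟨hk1, hk2⟩ := kap_eq lam hlam r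
  have hΛ0' : Λ 0 = (Real.log (Real.sqrt 2 / |Real.sqrt 2 * lam|) : ℂ) := by
    rw [hΛ0, hk1]
  obtain ⟨B, hB⟩ := Et_dnear Gt Λ r (Real.sqrt 2 * lam) δ hδ hΛ hΛ0' hΛe
  rw [hk2] at hB
  obtain ⟨κ, hκ⟩ : ∃ κ : ℝ, κ = kap lam r := ⟨_, rfl⟩
  rw [← hκ] at hB ⊢
  obtain ⟨σ1, B', hσ1, hB'⟩ := Et_D2 Gt κ r hGt C hC h2 h3 (δ / 2) B (by linarith) hB
  have hopen : IsOpen {s : ℂ | 0 < s.re} := isOpen_lt continuous_const Complex.continuous_re
  have hem := ee_meas H κ r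
  have hei := ee_int H κ r
  have hum : Measurable (fun v : ℝ => v * ee c u κ r v) := measurable_id.mul hem
  have hEd : DifferentiableOn ℂ (Et Gt κ r) {s : ℂ | 0 < s.re} := fun s hs =>
    (EtD_deriv Gt κ r hGt s hs).differentiableAt.differentiableWithinAt
  -- the transform
  have htr : ∀ s : ℂ, a < s.re → Et Gt κ r s =
      ∫ v in Set.Ioi (0 : ℝ), (ee c u κ r v : ℂ) * Complex.exp (-(s * v)) := by
    intro s hs
    have hs0 : s ≠ 0 := by
      rintro rfl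
      rw [Complex.zero_re] at hs
      linarith
    have h5 := ee_transform H κ r s hs
    unfold Et
    rw [hD s hs, ← h5, mul_div_cancel_left₀ _ hs0]
  have hdtr : ∀ s : ℂ, a < s.re → -deriv (Et Gt κ r) s =
      ∫ v in Set.Ioi (0 : ℝ), ((v * ee c u κ r v : ℝ) : ℂ) * Complex.exp (-(s * v)) := by
    intro s hs
    have ho2 : IsOpen {s : ℂ | a < s.re} := isOpen_lt continuous_const Complex.continuous_re
    have h5 : Et Gt κ r =ᶠ[𝓝 s]
        fun z : ℂ => ∫ v in Set.Ioi (0 : ℝ), (ee c u κ r v : ℂ) * Complex.exp (-(z * v)) := by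
      filter_upwards [ho2.mem_nhds hs] with z hz
      exact htr z hz
    rw [h5.deriv_eq, (lap_deriv (ee c u κ r) hem a hei s hs).deriv, neg_neg]
  have hint : IntegrableOn (fun v : ℝ => (v * ee c u κ r v) * Real.exp (-((a + 1) * v)))
      (Set.Ioi 0) := lap_mul_int (ee c u κ r) hem a hei (a + 1) (by linarith)
  have hcont : ∀ᵐ v ∂(volume.restrict (Set.Ioi (0 : ℝ))),
      ContinuousAt (fun v : ℝ => v * ee c u κ r v) v := by
    filter_upwards [ee_cont H κ r] with v hv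
    exact continuousAt_id.mul hv
  have hdd : DifferentiableOn ℂ (fun s => -deriv (Et Gt κ r) s) {s : ℂ | 0 < s.re} :=
    (hEd.deriv hopen).neg
  refine l2_grow (fun v : ℝ => v * ee c u κ r v) hum B' (min σ1 1) (lt_min hσ1 one_pos) ?_
  intro σ hσ hσm
  have hσρ : σ ≤ a + 1 := (hσm.trans (min_le_right _ _)).trans (by linarith)
  obtain ⟨C', hC'⟩ := Et_dpt' Gt κ r hGt C hC (a + 1) hρ h1 h4 σ hσ
  refine l2_sig' (fun v : ℝ => v * ee c u κ r v) hum hcont (a + 1) hρ hint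
    (fun s => -deriv (Et Gt κ r) s) hdd ?_ σ hσ hσρ C' ?_ (B' / σ) ?_
  · intro t
    have hre : (((a + 1 : ℝ) : ℂ) + t * I).re = a + 1 := by simp
    exact hdtr _ (by rw [hre]; linarith)
  · intro s hs hs1
    rw [norm_neg]
    exact hC' s hs hs1
  · have h5 := hB' σ hσ (hσm.trans (min_le_left _ _))
    simpa only [enorm_neg] using h5

end BSDC
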