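import Pool.Agent.W_MP_3283e1_nt.Landau

open MeasureTheory Set Filter Topology

namespace BSDC

open W3283e1

/-- Landau's lemma for Laplace transforms of nonnegative functions: `W3283e1.landau` (same proof) in
the variable `v = log t`: `landau_mgf` with `μ = (volume.restrict (Ioi 0)).withDensity (ofReal (B v))`
and `X v = -v`. -/
theorem landau_exp (B : ℝ → ℝ) (hB : Measurable B) (h0 : ∀ v : ℝ, 0 < v → 0 ≤ B v)
    (F : ℝ → ℝ) (σ0 σ1 : ℝ) (hF : ∀ σ : ℝ, σ0 < σ → AnalyticAt ℝ F σ)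
    (hint : ∀ σ : ℝ, σ1 < σ → IntegrableOn (fun v : ℝ => B v * Real.exp (-(σ * v))) (Set.Ioi 0))
    (heq : ∀ σ : ℝ, σ1 < σ → F σ = ∫ v in Set.Ioi (0 : ℝ), B v * Real.exp (-(σ * v))) :
    ∀ σ : ℝ, σ0 < σ →
      IntegrableOn (fun v : ℝ => B v * Real.exp (-(σ * v))) (Set.Ioi 0) ∧
      F σ = ∫ v in Set.Ioi (0 : ℝ), B v * Real.exp (-(σ * v)) := by
  set ν : Measure ℝ := (volume.restrict (Ioi 0)).withDensity
    (fun t => ENNReal.ofReal (B t)) with hν
  have hden : Measurable (fun t : ℝ => ENNReal.ofReal (B t)) := hB.ennreal_ofReal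
  have hXm : Measurable (fun t : ℝ => -t) := measurable_id.neg
  have hX : ∀ᵐ t ∂ν, -t ≤ 0 := by
    have h1 : ∀ᵐ t ∂(volume.restrict (Ioi (0 : ℝ))), -t ≤ 0 := by
      filter_upwards [ae_restrict_mem measurableSet_Ioi] with t ht
      have : (0 : ℝ) < t := ht
      linarith
    exact (withDensity_absolutelyContinuous _ _).ae_le h1
  have hpt : ∀ σ : ℝ, ∀ᵐ t ∂(volume.restrict (Ioi (0 : ℝ))),
      (ENNReal.ofReal (B t)).toReal • Real.exp (σ * (-t)) = B t * Real.exp (-(σ * t)) := by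
    intro σ
    filter_upwards [ae_restrict_mem measurableSet_Ioi] with t ht
    have ht0 : (0 : ℝ) < t := ht
    rw [ENNReal.toReal_ofReal (h0 t ht0), smul_eq_mul, mul_neg]
  have hI : ∀ σ : ℝ, Integrable (fun t => Real.exp (σ * (-t))) ν ↔
      IntegrableOn (fun t : ℝ => B t * Real.exp (-(σ * t))) (Set.Ioi 0) := by
    intro σ
    rw [hν, integrable_withDensity_iff_integrable_smul' hden
      (by filter_upwards with t using ENNReal.ofReal_lt_top)]
    exact integrable_congr (hpt σ)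
  have hM : ∀ σ : ℝ, ProbabilityTheory.mgf (fun t => -t) ν σ =
      ∫ t in Set.Ioi (0 : ℝ), B t * Real.exp (-(σ * t)) := by
    intro σ
    rw [ProbabilityTheory.mgf, hν, integral_withDensity_eq_integral_toReal_smul hden
      (by filter_upwards with t using ENNReal.ofReal_lt_top)]
    exact integral_congr_ae (hpt σ)
  intro σ hσ
  have := landau_mgf (μ := ν) hXm hX F σ0 σ1 hF (fun τ hτ => (hI τ).2 (hint τ hτ))
    (fun τ hτ => by rw [hM]; exact heq τ hτ) σ hσ
  exact ⟨(hI σ).1 this.1, by rw [this.2, hM]⟩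

end BSDC
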