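import Pool.Agent.W_92892c_h19.OneA
import Pool.Agent.W_92892c_h19.Near
import Pool.Agent.W_92892c_h19.CesF

open MeasureTheory Set Filter Topology

namespace BSDC

open BSDS W3283g Complex

variable {ι : Type} {c u : ι → ℝ} {a : ℝ} {L : ℂ → ℂ}

/-- For real `σ ≥ a`, `L σ = exp (Dser σ)` with `Dser σ` real (`H.LD`, `Dser` is a sum of real
terms), and `Re (L σ) > 0`. -/
theorem one_large (H : Hyp c u a L) (σ : ℝ) (hσ : a ≤ σ) :
    0 < (L σ).re ∧ ((Real.log (L σ).re : ℝ) : ℂ) = Dser c u σ := by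
  have hLD := H.LD (σ : ℂ) (by rw [Complex.ofReal_re]; exact hσ)
  rw [Dser_ofReal H σ hσ, ← Complex.ofReal_exp] at hLD
  rw [hLD, Complex.ofReal_re, Real.log_exp, Dser_ofReal H σ hσ]
  exact ⟨Real.exp_pos _, rfl⟩

theorem OneB_Fint (H : Hyp c u a L) (κ : ℝ) (r : ℕ) (σ : ℝ) (hσ : a < σ) :
    IntegrableOn (fun v : ℝ => (∫ w in Ioc 0 v, ee c u κ r w) * Real.exp (-(σ * v))) (Ioi 0) := by
  have ha := H.apos
  obtain ⟨τ, hτ1, hτ2⟩ := exists_between hσ
  have hτ0 : 0 < τ := by linarith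
  have hI : IntegrableOn (fun v : ℝ => ‖ee c u κ r v * Real.exp (-(τ * v))‖) (Ioi 0) :=
    (ee_int H κ r τ hτ1).norm
  set I : ℝ := ∫ v in Ioi (0 : ℝ), ‖ee c u κ r v * Real.exp (-(τ * v))‖ with hIdef
  have hexp : IntegrableOn (fun v : ℝ => Real.exp (-((σ - τ) * v))) (Ioi 0) := by
    have := integrableOn_exp_mul_Ioi (a := -(σ - τ)) (by linarith) 0
    refine this.congr_fun (fun v _ => ?_) measurableSet_Ioi
    show Real.exp (-(σ - τ) * v) = _
    rw [neg_mul]
  refine Integrable.mono' (hexp.const_mul I) ?_ ?_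
  · have h1 : Continuous (fun v : ℝ => Real.exp (-(σ * v))) := by fun_prop
    exact ((Ces_Fmeas _ (ee_meas H κ r)).mul h1.measurable).aestronglyMeasurable
  · refine (ae_restrict_iff' measurableSet_Ioi).2 (Eventually.of_forall fun v hv => ?_)
    have hv0 : 0 < v := hv
    have h1 : |∫ w in Ioc 0 v, ee c u κ r w| ≤ I * Real.exp (τ * v) := by
      calc |∫ w in Ioc 0 v, ee c u κ r w| ≤ ∫ w in Ioc 0 v, |ee c u κ r w| :=
            abs_integral_le_integral_abs
        _ ≤ ∫ w in Ioc 0 v, ‖ee c u κ r w * Real.exp (-(τ * w))‖ * Real.exp (τ * v) := by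
            refine setIntegral_mono_on (ee_loc H κ r v).abs
              ((hI.mono_set Ioc_subset_Ioi_self).mul_const _) measurableSet_Ioc fun w hw => ?_
            rw [norm_mul, Real.norm_eq_abs, Real.norm_of_nonneg (Real.exp_pos _).le, mul_assoc,
              ← Real.exp_add]
            have h2 : 1 ≤ Real.exp (-(τ * w) + τ * v) := by
              apply Real.one_le_exp
              have := mul_le_mul_of_nonneg_left hw.2 hτ0.le
              linarith
            calc |ee c u κ r w| = |ee c u κ r w| * 1 := (mul_one _).symm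
              _ ≤ _ := mul_le_mul_of_nonneg_left h2 (abs_nonneg _)
        _ = (∫ w in Ioc 0 v, ‖ee c u κ r w * Real.exp (-(τ * w))‖) * Real.exp (τ * v) :=
            integral_mul_const _ _
        _ ≤ I * Real.exp (τ * v) := by
            refine mul_le_mul_of_nonneg_right ?_ (Real.exp_pos _).le
            exact setIntegral_mono_set hI (Eventually.of_forall fun _ => norm_nonneg _)
              (LE.le.eventuallyLE Ioc_subset_Ioi_self)
    rw [norm_mul, Real.norm_eq_abs, Real.norm_of_nonneg (Real.exp_pos _).le]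
    calc |∫ w in Ioc 0 v, ee c u κ r w| * Real.exp (-(σ * v)) ≤
          I * Real.exp (τ * v) * Real.exp (-(σ * v)) :=
          mul_le_mul_of_nonneg_right h1 (Real.exp_pos _).le
      _ = I * Real.exp (-((σ - τ) * v)) := by
          rw [mul_assoc, ← Real.exp_add]
          congr 2
          ring

theorem OneB_cint (F : ℝ → ℝ) (σ : ℝ) :
    ∫ v in Ioi (0 : ℝ), ((F v : ℝ) : ℂ) * Complex.exp (-((σ : ℂ) * v)) =
      ((∫ v in Ioi (0 : ℝ), F v * Real.exp (-(σ * v)) : ℝ) : ℂ) := by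
  have h1 : ∫ v in Ioi (0 : ℝ), ((F v : ℝ) : ℂ) * Complex.exp (-((σ : ℂ) * v)) =
      ∫ v in Ioi (0 : ℝ), ((F v * Real.exp (-(σ * v)) : ℝ) : ℂ) := by
    refine integral_congr_ae (Eventually.of_forall fun v => ?_)
    push_cast
    rfl
  rw [h1]
  exact integral_ofReal

theorem OneB_val (H : Hyp c u a L) (κ : ℝ) (r : ℕ) (σ : ℝ) (hσ : a < σ) :
    σ ^ 2 * ∫ v in Ioi (0 : ℝ), (∫ w in Ioc 0 v, ee c u κ r w) * Real.exp (-(σ * v)) =
      -Real.log (L σ).re + r * (Real.eulerMascheroniConstant + Real.log σ) - κ := by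
  have ha := H.apos
  have hσ0 : 0 < σ := by linarith
  have hre : a < (σ : ℂ).re := by rw [Complex.ofReal_re]; exact hσ
  have h1 := Ces_fub (ee c u κ r) (ee_meas H κ r) (σ : ℂ)
    (by rw [Complex.ofReal_re]; exact hσ0) (ee_int H κ r (σ : ℂ).re hre)
  have h2 := ee_transform H κ r (σ : ℂ) hre
  rw [← h1, OneB_cint (fun U : ℝ => ∫ w in Ioc 0 U, ee c u κ r w) σ,
    ← (one_large H σ hσ.le).2, ← Complex.ofReal_log hσ0.le] at h2
  have h3 : σ * (σ * ∫ v in Ioi (0 : ℝ), (∫ w in Ioc 0 v, ee c u κ r w) *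
      Real.exp (-(σ * v))) =
      -Real.log (L σ).re + r * (Real.eulerMascheroniConstant + Real.log σ) - κ := by
    exact_mod_cast h2
  rw [← h3]
  ring

theorem OneB_an (H : Hyp c u a L) (κ M : ℝ) (r : ℕ) (σ : ℝ) (hσ : 0 < σ) (hp : 0 < (L σ).re) :
    AnalyticAt ℝ (fun σ : ℝ => M * (1 / σ + 1 / σ ^ 2) - (-Real.log (L σ).re +
      r * (Real.eulerMascheroniConstant + Real.log σ) - κ) / σ ^ 2) σ := by
  have hL : AnalyticAt ℝ (fun x : ℝ => (L x).re) σ := (H.Lent.analyticAt (σ : ℂ)).re_ofReal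
  have hlL : AnalyticAt ℝ (fun x : ℝ => Real.log (L x).re) σ := hL.log hp
  have hl : AnalyticAt ℝ (fun x : ℝ => Real.log x) σ := analyticAt_log hσ
  have hid : AnalyticAt ℝ (fun x : ℝ => x) σ := analyticAt_id
  have h1 : AnalyticAt ℝ (fun x : ℝ => 1 / x) σ := analyticAt_const.div hid hσ.ne'
  have h2 : AnalyticAt ℝ (fun x : ℝ => 1 / x ^ 2) σ :=
    analyticAt_const.div (hid.pow 2) (pow_ne_zero 2 hσ.ne')
  refine (analyticAt_const.mul (h1.add h2)).sub
    (AnalyticAt.div ?_ (hid.pow 2) (pow_ne_zero 2 hσ.ne'))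
  exact (hlL.neg.add (analyticAt_const.mul (analyticAt_const.add hl))).sub analyticAt_const

/-- Landau's argument to the right of the last real zero.  Put `F U = ∫_0^U ee` and
`B v = M (1 + v) - F v ≥ 0` for `v > 0`.  For `σ > a`, `F v e^{-σ v}` is integrable and
`σ² ∫ F e^{-σ v} dv = σ ∫ ee e^{-σ v} dv = - Dser σ + r (γ + log σ) - κ`
(`Ces_fub` and `ee_int`, `ee_transform`, at the complex point `σ`; integrability of
`F v e^{-σv}` for `σ > a`: `|F v| e^{-σ v} ≤ e^{-(σ-τ) v} ∫ |ee| e^{-τ w} dw` for `a < τ < σ`), and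
`∫ (1 + v) e^{-σ v} dv = 1/σ + 1/σ²` (`CesF_int`).  The function
`M (1/σ + 1/σ²) - (- log (L σ).re + r (γ + log σ) - κ)/σ²` is real analytic for `σ > σ0`
(`(L σ).re` is real analytic and positive), so `landau_exp` applies. -/
theorem one_step (H : Hyp c u a L) (κ : ℝ) (r : ℕ) (M : ℝ)
    (hM : ∀ U : ℝ, 0 < U → ∫ v in Ioc 0 U, ee c u κ r v ≤ M * (1 + U)) (σ0 : ℝ) (hσ0 : 0 ≤ σ0)
    (hpos : ∀ σ : ℝ, σ0 < σ → 0 < (L σ).re) (σ : ℝ) (hσ : σ0 < σ) :
    IntegrableOn (fun v : ℝ => (∫ w in Ioc 0 v, ee c u κ r w) * Real.exp (-(σ * v))) (Ioi 0) ∧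
      σ ^ 2 * ∫ v in Ioi (0 : ℝ), (∫ w in Ioc 0 v, ee c u κ r w) * Real.exp (-(σ * v)) =
        -Real.log (L σ).re + r * (Real.eulerMascheroniConstant + Real.log σ) - κ := by
  have ha := H.apos
  have hσp : 0 < σ := by linarith
  set e : ℝ → ℝ := ee c u κ r with he
  set F : ℝ → ℝ := fun v => ∫ w in Ioc 0 v, e w with hF
  have hFm : Measurable F := Ces_Fmeas _ (ee_meas H κ r)
  have hBm : Measurable fun v : ℝ => M * (1 + v) - F v :=
    ((measurable_const.add measurable_id).const_mul M).sub hFm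
  have hlin : ∀ x : ℝ, 0 < x →
      IntegrableOn (fun v : ℝ => M * (1 + v) * Real.exp (-(x * v))) (Ioi 0) ∧
      ∫ v in Ioi (0 : ℝ), M * (1 + v) * Real.exp (-(x * v)) = M * (1 / x + 1 / x ^ 2) := by
    intro x hx
    obtain ⟨h1, h2⟩ := CesF_int 1 1 x hx
    have h3 : (fun v : ℝ => M * (1 + v) * Real.exp (-(x * v))) =
        fun v : ℝ => M * ((1 + 1 * v) * Real.exp (-(x * v))) := by
      funext v
      ring
    rw [h3]
    refine ⟨h1.const_mul M, ?_⟩
    rw [integral_const_mul, h2]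
  have hsplit : ∀ x : ℝ, (fun v : ℝ => (M * (1 + v) - F v) * Real.exp (-(x * v))) =
      fun v : ℝ => M * (1 + v) * Real.exp (-(x * v)) - F v * Real.exp (-(x * v)) := by
    intro x
    funext v
    ring
  have hlan := landau_exp (fun v : ℝ => M * (1 + v) - F v) hBm
    (fun v hv => sub_nonneg.2 (hM v hv))
    (fun σ : ℝ => M * (1 / σ + 1 / σ ^ 2) - (-Real.log (L σ).re +
      r * (Real.eulerMascheroniConstant + Real.log σ) - κ) / σ ^ 2) σ0 a
    (fun x hx => OneB_an H κ M r x (by linarith) (hpos x hx))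
    (fun x hx => by
      rw [hsplit x]
      exact (hlin x (by linarith)).1.sub (OneB_Fint H κ r x hx))
    (fun x hx => by
      have hx0 : 0 < x := by linarith
      rw [hsplit x, integral_sub (hlin x hx0).1 (OneB_Fint H κ r x hx), (hlin x hx0).2,
        ← OneB_val H κ r x hx]
      congr 1
      field_simp) σ hσ
  obtain ⟨h1, h2⟩ := hlan
  have h3 : (fun v : ℝ => F v * Real.exp (-(σ * v))) =
      fun v : ℝ => M * (1 + v) * Real.exp (-(σ * v)) -
        (M * (1 + v) - F v) * Real.exp (-(σ * v)) := by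
    funext v
    ring
  have h4 : IntegrableOn (fun v : ℝ => F v * Real.exp (-(σ * v))) (Ioi 0) := by
    rw [h3]
    exact (hlin σ hσp).1.sub h1
  refine ⟨h4, ?_⟩
  rw [h3, integral_sub (hlin σ hσp).1 h1, (hlin σ hσp).2, ← h2]
  field_simp
  ring

/-- No real zeros: otherwise let `σ0 > 0` be the largest real zero of `σ ↦ (L σ).re` on `(0, ∞)`
(it exists: `(L σ).re` is continuous and positive for `σ ≥ a`); `(L σ).re > 0` for `σ > σ0`, and by
`one_step` and `F v ≤ M (1 + v)`,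
`-log (L σ).re + r (γ + log σ) - κ = σ² ∫ F e^{-σv} dv ≤ M (σ + 1)` for `σ > σ0`; but the left side
tends to `+∞` as `σ → σ0+`. -/
theorem one_pos (H : Hyp c u a L) (κ : ℝ) (r : ℕ) (M : ℝ)
    (hM : ∀ U : ℝ, 0 < U → ∫ v in Ioc 0 U, ee c u κ r v ≤ M * (1 + U)) (σ : ℝ) (hσ : 0 < σ) :
    0 < (L σ).re := by
  have ha := H.apos
  by_contra hneg
  rw [not_lt] at hneg
  have hcont : Continuous fun x : ℝ => (L x).re :=
    Complex.continuous_re.comp (H.Lent.continuous.comp Complex.continuous_ofReal)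
  have hσa : σ ≤ a := by
    by_contra hc
    rw [not_le] at hc
    exact absurd (one_large H σ hc.le).1 (not_lt.2 hneg)
  have hcl : IsCompact (Icc σ a ∩ {x : ℝ | (L x).re ≤ 0}) :=
    isCompact_Icc.inter_right (isClosed_le hcont continuous_const)
  obtain ⟨σ0, ⟨⟨hσσ0, hσ0a⟩, hσ0n⟩, hmax⟩ := hcl.exists_isGreatest ⟨σ, ⟨le_rfl, hσa⟩, hneg⟩
  have hσ0n' : (L σ0).re ≤ 0 := hσ0n
  have hσ0p : 0 < σ0 := by linarith
  have hpos : ∀ x : ℝ, σ0 < x → 0 < (L x).re := by
    intro x hx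
    rcases le_or_gt a x with h | h
    · exact (one_large H x h).1
    · by_contra hc
      rw [not_lt] at hc
      have := hmax ⟨⟨by linarith, h.le⟩, hc⟩
      linarith
  have hz : (L σ0).re = 0 := by
    refine le_antisymm hσ0n' ?_
    have h1 : Tendsto (fun x : ℝ => (L x).re) (𝓝[>] σ0) (𝓝 (L σ0).re) :=
      (hcont.tendsto σ0).mono_left nhdsWithin_le_nhds
    refine ge_of_tendsto h1 ?_
    filter_upwards [self_mem_nhdsWithin] with x hx
    exact (hpos x hx).le
  have hlog : Tendsto (fun x : ℝ => -Real.log (L x).re) (𝓝[>] σ0) atTop := by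
    have h1 : Tendsto (fun x : ℝ => (L x).re) (𝓝[>] σ0) (𝓝[>] 0) := by
      refine tendsto_nhdsWithin_iff.2 ⟨?_, ?_⟩
      · have h2 : Tendsto (fun x : ℝ => (L x).re) (𝓝[>] σ0) (𝓝 (L σ0).re) :=
          (hcont.tendsto σ0).mono_left nhdsWithin_le_nhds
        rwa [hz] at h2
      · filter_upwards [self_mem_nhdsWithin] with x hx
        exact hpos x hx
    exact tendsto_neg_atBot_atTop.comp (Real.tendsto_log_nhdsGT_zero.comp h1)
  have hbound : ∀ x : ℝ, σ0 < x → -Real.log (L x).re ≤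
      M * (x + 1) - r * (Real.eulerMascheroniConstant + Real.log x) + κ := by
    intro x hx
    have hx0 : 0 < x := by linarith
    obtain ⟨h1, h2⟩ := one_step H κ r M hM σ0 hσ0p.le hpos x hx
    obtain ⟨h3, h4⟩ := CesF_int M M x hx0
    have h5 : ∫ v in Ioi (0 : ℝ), (∫ w in Ioc 0 v, ee c u κ r w) * Real.exp (-(x * v)) ≤
        ∫ v in Ioi (0 : ℝ), (M + M * v) * Real.exp (-(x * v)) := by
      refine setIntegral_mono_on h1 h3 measurableSet_Ioi fun v hv => ?_
      refine mul_le_mul_of_nonneg_right ?_ (Real.exp_pos _).le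
      have := hM v hv
      linarith
    rw [h4] at h5
    have h6 := mul_le_mul_of_nonneg_left h5 (sq_nonneg x)
    rw [h2] at h6
    have h7 : x ^ 2 * (M / x + M / x ^ 2) = M * (x + 1) := by
      field_simp
    rw [h7] at h6
    linarith
  have hK : Tendsto (fun x : ℝ => M * (x + 1) -
      r * (Real.eulerMascheroniConstant + Real.log x) + κ) (𝓝[>] σ0)
      (𝓝 (M * (σ0 + 1) - r * (Real.eulerMascheroniConstant + Real.log σ0) + κ)) := by
    have h1 : ContinuousAt (fun x : ℝ => M * (x + 1) -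
      r * (Real.eulerMascheroniConstant + Real.log x) + κ) σ0 := by
      have h2 : ContinuousAt Real.log σ0 := Real.continuousAt_log hσ0p.ne'
      fun_prop
    exact h1.mono_left nhdsWithin_le_nhds
  have hev1 := (tendsto_order.1 hK).2 _ (lt_add_one _)
  have hev2 := hlog.eventually_ge_atTop
    (M * (σ0 + 1) - r * (Real.eulerMascheroniConstant + Real.log σ0) + κ + 1)
  have hev3 : ∀ᶠ x in 𝓝[>] σ0, σ0 < x := self_mem_nhdsWithin
  obtain ⟨x, hx1, hx2, hx3⟩ := (hev1.and (hev2.and hev3)).exists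
  have := hbound x hx3
  linarith

/-- The representation `bdd_rep` (module Bdd) with its integrability as hypothesis: same proof. -/
theorem one_rep (H : Hyp c u a L) (κ : ℝ) (r : ℕ)
    (hFi : ∀ σ : ℝ, 0 < σ → IntegrableOn (fun v : ℝ => (∫ w in Ioc 0 v, ee c u κ r w) *
      Real.exp (-(σ * v))) (Ioi 0)) (s : ℂ) (hs : 0 < s.re) :
    L s = s ^ r * Complex.exp (r * Real.eulerMascheroniConstant - κ -
      s ^ 2 * ∫ v in Ioi (0 : ℝ),
        ((∫ w in Ioc 0 v, ee c u κ r w : ℝ) : ℂ) * Complex.exp (-(s * v))) := by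
  have hem := ee_meas H κ r
  have hd := lap_diff (fun U : ℝ => ∫ w in Ioc 0 U, ee c u κ r w) (Ces_Fmeas _ hem) hFi
  set Φ : ℂ → ℂ := fun s => ∫ v in Ioi (0 : ℝ),
    ((∫ w in Ioc 0 v, ee c u κ r w : ℝ) : ℂ) * Complex.exp (-(s * v)) with hΦ
  have ho : IsOpen {s : ℂ | 0 < s.re} := isOpen_lt continuous_const Complex.continuous_re
  have hR : DifferentiableOn ℂ (fun s : ℂ => s ^ r *
      Complex.exp (r * Real.eulerMascheroniConstant - κ - s ^ 2 * Φ s)) {s : ℂ | 0 < s.re} := by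
    refine (differentiableOn_id.pow r).mul (DifferentiableOn.cexp ?_)
    exact ((differentiableOn_id.pow 2).mul hd).const_sub _
  have hpc : IsPreconnected {s : ℂ | 0 < s.re} := (convex_halfSpace_re_gt 0).isPreconnected
  have ha1 := H.apos
  have hmem : ((a + 1 : ℝ) : ℂ) ∈ {s : ℂ | 0 < s.re} := by
    show 0 < ((a + 1 : ℝ) : ℂ).re
    rw [Complex.ofReal_re]
    linarith
  have hev : L =ᶠ[𝓝 (((a + 1 : ℝ) : ℂ))] (fun s : ℂ => s ^ r *
      Complex.exp (r * Real.eulerMascheroniConstant - κ - s ^ 2 * Φ s)) := by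
    have ho2 : IsOpen {s : ℂ | a < s.re} := isOpen_lt continuous_const Complex.continuous_re
    have hm2 : ((a + 1 : ℝ) : ℂ) ∈ {s : ℂ | a < s.re} := by
      show a < ((a + 1 : ℝ) : ℂ).re
      rw [Complex.ofReal_re]
      linarith
    filter_upwards [ho2.mem_nhds hm2] with s hs
    have hs' : a < s.re := hs
    have hs0 : s ≠ 0 := by
      rintro rfl
      rw [Complex.zero_re] at hs'
      linarith
    have h1 := Ces_fub (ee c u κ r) hem s (by linarith) (ee_int H κ r s.re hs')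
    have h2 := ee_transform H κ r s hs'
    have h3 : s ^ 2 * Φ s = -Dser c u s + r * ((Real.eulerMascheroniConstant : ℂ) +
        Complex.log s) - κ := by
      rw [← h2, ← h1, hΦ]
      ring
    show L s = s ^ r * Complex.exp (r * Real.eulerMascheroniConstant - κ - s ^ 2 * Φ s)
    rw [h3, H.LD s hs'.le]
    have h4 : (r : ℂ) * Real.eulerMascheroniConstant - κ - (-Dser c u s +
        r * ((Real.eulerMascheroniConstant : ℂ) + Complex.log s) - κ) =
        Dser c u s + -(r * Complex.log s) := by ring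
    rw [h4, Complex.exp_add, Complex.exp_neg, Complex.exp_nat_mul, Complex.exp_log hs0]
    have h5 : s ^ r ≠ 0 := pow_ne_zero _ hs0
    field_simp
  have h6 := (H.Lent.differentiableOn.analyticOnNhd ho).eqOn_of_preconnected_of_eventuallyEq
    (hR.analyticOnNhd ho) hpc hmem hev
  exact h6 hs

end BSDC
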