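import Mathlib

/-!
Definitions used in the statement of the hand-in PrimePowerMean of MP_92892c_nt.
-/

open MeasureTheory Set Filter Topology

namespace PPM

/-- Number of points over `F_p` of the projective Weierstrass cubic `W` mod `p`. -/
noncomputable def nPoints (W : WeierstrassCurve ℤ) (p : ℕ) : ℕ :=
  1 + Nat.card {P : ZMod p × ZMod p //
    (W.map (Int.castRingHom (ZMod p))).toAffine.Equation P.1 P.2}

/-- `a_p = p + 1 - #W(F_p)`. -/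
noncomputable def aCoeff (W : WeierstrassCurve ℤ) (p : ℕ) : ℤ := (p : ℤ) + 1 - nPoints W p

/-- `p` if `p` does not divide the discriminant of `W`, else `0`. -/
noncomputable def eCoeff (W : WeierstrassCurve ℤ) (p : ℕ) : ℤ :=
  if (p : ℤ) ∣ W.Δ then 0 else (p : ℤ)

/-- The Euler polynomial `1 - a_p p^(-s) + e_p p^(-2s)`. -/
noncomputable def eulerPoly (W : WeierstrassCurve ℤ) (p : ℕ) (s : ℂ) : ℂ :=
  1 - (aCoeff W p : ℂ) * (p : ℂ) ^ (-s) + (eCoeff W p : ℂ) * (p : ℂ) ^ (-2 * s)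

/-- `powSum a e m = α^m + β^m`, where `α`, `β` are the roots of `T² - aT + e`. -/
def powSum (a e : ℤ) : ℕ → ℤ
  | 0 => 2
  | 1 => a
  | (m + 2) => a * powSum a e (m + 1) - e * powSum a e m

/-- The Birch and Swinnerton-Dyer product over the prime powers `p^m ≤ x`: the exponential of
`- Σ_{p^m ≤ x} (α_p^m + β_p^m) / (m p^m)` (the index `(p, j)` stands for `p^(j+1)`). -/
noncomputable def bsdProduct (W : WeierstrassCurve ℤ) (x : ℝ) : ℝ :=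
  Real.exp (-∑' i : Nat.Primes × ℕ, if (i.1 : ℝ) ^ (i.2 + 1) ≤ x then
    (powSum (aCoeff W i.1) (eCoeff W i.1) (i.2 + 1) : ℝ) /
      (((i.2 : ℝ) + 1) * (i.1 : ℝ) ^ (i.2 + 1)) else 0)

/-- `e(x) = log (lam * bsdProduct W x / (e^γ log x)^r)`. -/
noncomputable def bsdError (W : WeierstrassCurve ℤ) (r : ℕ) (lam x : ℝ) : ℝ :=
  Real.log (lam * bsdProduct W x /
    (Real.exp Real.eulerMascheroniConstant * Real.log x) ^ r)

/-- `(1/log X) ∫_2^X e(x) dx/x`. -/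
noncomputable def logMean (W : WeierstrassCurve ℤ) (r : ℕ) (lam X : ℝ) : ℝ :=
  (Real.log X)⁻¹ * ∫ x in (2 : ℝ)..X, bsdError W r lam x / x

/-- `L` is the Euler product of `W` for `Re s > 3/2`. -/
def EulerProduct (W : WeierstrassCurve ℤ) (L : ℂ → ℂ) : Prop :=
  ∀ s : ℂ, 3 / 2 < s.re → Tendsto (fun N : ℕ =>
    ∏ p ∈ (Finset.range N).filter Nat.Prime, (eulerPoly W p s)⁻¹) atTop (𝓝 (L s))

/-- At most polynomial growth for `Re s ≥ 4/5`. -/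
def PolyGrowth (L : ℂ → ℂ) : Prop :=
  ∃ (K : ℝ) (n : ℕ), ∀ s : ℂ, 4 / 5 ≤ s.re → ‖L s‖ ≤ K * (2 + ‖s‖) ^ n

/-- No zeros with `Re s > 1`. -/
def NoZeros (L : ℂ → ℂ) : Prop := ∀ s : ℂ, 1 < s.re → L s ≠ 0

/-- `L(s)/(s-1)^r → lam` as `s → 1`. -/
def LeadingTerm (L : ℂ → ℂ) (r : ℕ) (lam : ℝ) : Prop :=
  Tendsto (fun s : ℂ => L s / (s - 1) ^ r) (𝓝[≠] 1) (𝓝 (lam : ℂ))

/-- Functional equation `M(-w) = ε M(w)`, `M(w) = A^(1+w) Γ(1+w) L(1+w)`, for `|Re w| < 1`. -/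
def FunEq (L : ℂ → ℂ) (A : ℝ) (ε : ℂ) : Prop :=
  ∀ w : ℂ, |w.re| < 1 → (A : ℂ) ^ (1 - w) * Complex.Gamma (1 - w) * L (1 - w) =
    ε * ((A : ℂ) ^ (1 + w) * Complex.Gamma (1 + w) * L (1 + w))

/-- The curve `y² = x³ + c k² x`. -/
def twist (c : ℤ) (k : ℕ) : WeierstrassCurve ℤ := ⟨0, 0, 0, c * (k : ℤ) ^ 2, 0⟩

/-- The conductor of `y² = x³ + c k² x`, `c = ±1`, `k` squarefree. -/
def cond (c : ℤ) (k : ℕ) : ℕ :=
  (if c = -1 then (if Odd k then 32 else 16) else (if Odd k then 64 else 8)) * k ^ 2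

end PPM
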