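import Pool.Agent.W_92892c_h19.Hs
import Pool.Agent.W_92892c_h19.Near
import Pool.Agent.W_92892c_h19.Msq

open MeasureTheory Set Filter Topology

namespace BSDC

open BSDS W3283g Complex

variable {ι : Type} {c u : ι → ℝ} {a : ℝ} {L : ℂ → ℂ}

/-- The second coefficient of `L` at `0`: `L s = s^r g s` near `0` with `g` analytic,
`g 0 = lam` (`NearZero_factor` and the limit), `l1 = g'(0)`; it is real since `L s/s^r` is real for
real `s` (`L_real`), as the limit along the reals. -/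
theorem second_coeff (H : Hyp c u a L) (r : ℕ) (lam : ℝ) (hlam : 0 < lam)
    (hlim : Tendsto (fun s : ℂ => L s / s ^ r) (𝓝[≠] 0) (𝓝 (lam : ℂ))) :
    ∃ l1 : ℝ, Tendsto (fun s : ℂ => (L s / s ^ r - lam) / s) (𝓝[≠] 0) (𝓝 (l1 : ℂ)) := by
  obtain ⟨g, hgdef⟩ : ∃ g : ℂ → ℂ, g = Function.update (fun s : ℂ => L s / s ^ r) 0 (lam : ℂ) :=
    ⟨_, rfl⟩
  have hg0 : g 0 = lam := by rw [hgdef, Function.update_self]
  have hgne : ∀ s : ℂ, s ≠ 0 → g s = L s / s ^ r := fun s hs => by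
    rw [hgdef, Function.update_of_ne hs]
  have hgc : ContinuousAt g 0 := by
    rw [hgdef]
    exact continuousAt_update_same.2 hlim
  have hgd : ∀ s : ℂ, s ≠ 0 → DifferentiableAt ℂ g s := by
    intro s hs
    have h1 : DifferentiableAt ℂ (fun s : ℂ => L s / s ^ r) s :=
      (H.Lent s).div (differentiableAt_pow r) (pow_ne_zero r hs)
    refine h1.congr_of_eventuallyEq ?_
    filter_upwards [isOpen_ne.mem_nhds hs] with z hz
    exact hgne z hz
  have hga0 : AnalyticAt ℂ g 0 := by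
    refine Complex.analyticAt_of_differentiable_on_punctured_nhds_of_continuousAt ?_ hgc
    filter_upwards [self_mem_nhdsWithin] with z hz
    exact hgd z hz
  have h1 : Tendsto (fun s : ℂ => (L s / s ^ r - lam) / s) (𝓝[≠] 0) (𝓝 (deriv g 0)) := by
    refine (hasDerivAt_iff_tendsto_slope.1 hga0.differentiableAt.hasDerivAt).congr' ?_
    filter_upwards [self_mem_nhdsWithin] with z hz
    rw [slope_def_field, hg0, hgne z hz, sub_zero]
  have ht : Tendsto (fun y : ℝ => (y : ℂ)) (𝓝[≠] 0) (𝓝[≠] (0 : ℂ)) := by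
    refine tendsto_nhdsWithin_of_tendsto_nhds_of_eventually_within _ ?_ ?_
    · have := (Complex.continuous_ofReal.tendsto 0).mono_left
        (nhdsWithin_le_nhds (s := {(0 : ℝ)}ᶜ))
      rwa [Complex.ofReal_zero] at this
    · filter_upwards [self_mem_nhdsWithin] with y hy
      intro h
      exact hy (Complex.ofReal_eq_zero.1 h)
  have h2 := (Complex.continuous_im.tendsto _).comp (h1.comp ht)
  have h3 : ∀ y : ℝ, ((L y / (y : ℂ) ^ r - lam) / y).im = 0 := by
    intro y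
    have h4 : L (y : ℂ) = (((L (y : ℂ)).re : ℝ) : ℂ) := by
      apply Complex.ext
      · rw [Complex.ofReal_re]
      · rw [Complex.ofReal_im]
        exact L_real H _
    rw [h4, ← Complex.ofReal_pow, ← Complex.ofReal_div, ← Complex.ofReal_sub,
      ← Complex.ofReal_div, Complex.ofReal_im]
  have h5 : (deriv g 0).im = 0 := by
    refine tendsto_nhds_unique h2 ?_
    refine tendsto_const_nhds.congr fun y => ?_
    exact (h3 y).symm
  refine ⟨(deriv g 0).re, ?_⟩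
  have h6 : (((deriv g 0).re : ℝ) : ℂ) = deriv g 0 := by
    apply Complex.ext
    · rw [Complex.ofReal_re]
    · rw [Complex.ofReal_im, h5]
  rw [h6]
  exact h1

/-- With `Λ` as in `near0'`: `Et Gt (kap lam r) r s = (Λ s - Λ 0)/s` on the half ball (as in
`Et_near`; `Λ 0 = -log lam`), and `Λ'(0) = -l1/lam`: for `s → 0` in the half ball (real, positive),
`exp (-Λ s) = exp (-Gt s) s^{-r} = L s/s^r = lam + l1 s + o(s)`, so `(exp (-Λ s) - lam)/s → l1`,
and this limit is `-Λ'(0) exp (-Λ 0) = -Λ'(0) lam`.  Hence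
`Hs Gt (kap lam r) r (-l1/lam) s = ((Λ s - Λ 0)/s - Λ'(0))/s` is bounded for `‖s‖ ≤ δ/2`
(`dslope` twice). -/
theorem Hs_near (r : ℕ) (lam : ℝ) (hlam : 0 < lam) (l1 : ℝ)
    (hl1 : Tendsto (fun s : ℂ => (L s / s ^ r - lam) / s) (𝓝[≠] 0) (𝓝 (l1 : ℂ))) (Gt : ℂ → ℂ)
    (he : ∀ s : ℂ, 0 < s.re → L s * Complex.exp (Gt s) = 1) (δ : ℝ) (hδ : 0 < δ) (Λ : ℂ → ℂ)
    (hΛ : AnalyticOnNhd ℂ Λ (Metric.ball 0 δ)) (hΛ0 : Λ 0 = ((-Real.log lam : ℝ) : ℂ))
    (h : ∀ s ∈ Metric.ball (0 : ℂ) δ, 0 < s.re → Gt s + r * Complex.log s = Λ s) :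
    ∃ B : ℝ, ∀ s : ℂ, 0 < s.re → ‖s‖ ≤ δ / 2 →
      ‖Hs Gt (kap lam r) r ((-l1 / lam : ℝ) : ℂ) s‖ ≤ B := by
  have hmem : (0 : ℂ) ∈ Metric.ball (0 : ℂ) δ := Metric.mem_ball_self hδ
  have hD := EtB_dslope (Metric.ball 0 δ) Λ hΛ 0 hmem
  have hDD := EtB_dslope (Metric.ball 0 δ) _ hD 0 hmem
  have hsub : Metric.closedBall (0 : ℂ) (δ / 2) ⊆ Metric.ball 0 δ :=
    Metric.closedBall_subset_ball (by linarith)
  obtain ⟨B, hB⟩ := (isCompact_closedBall (0 : ℂ) (δ / 2)).exists_bound_of_continuousOn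
    ((hDD.continuousOn).mono hsub)
  -- the derivative of `Λ`
  have hlam0 : (lam : ℂ) ≠ 0 := Complex.ofReal_ne_zero.2 hlam.ne'
  have hE0 : Complex.exp (-Λ 0) = lam := by
    rw [hΛ0, Complex.ofReal_neg, neg_neg, ← Complex.ofReal_exp, Real.exp_log hlam]
  have hder : HasDerivAt (fun z => Complex.exp (-Λ z)) (-(lam : ℂ) * deriv Λ 0) 0 := by
    have h1 : HasDerivAt (fun z => Complex.exp (-Λ z)) (Complex.exp (-Λ 0) * -deriv Λ 0) 0 :=
      ((hΛ 0 hmem).differentiableAt.hasDerivAt.neg).cexp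
    rw [hE0] at h1
    convert h1 using 1
    ring
  have hval : ∀ s ∈ Metric.ball (0 : ℂ) δ, 0 < s.re → Complex.exp (-Λ s) = L s / s ^ r := by
    intro s hs hre
    have hs0 : s ≠ 0 := by
      rintro rfl
      simp at hre
    have h1 := he s hre
    have h2 : s ^ r ≠ 0 := pow_ne_zero r hs0
    rw [← h s hs hre, Complex.exp_neg, Complex.exp_add, Complex.exp_nat_mul,
      Complex.exp_log hs0]
    have h3 : Complex.exp (Gt s) ≠ 0 := Complex.exp_ne_zero _
    rw [eq_div_iff h2]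
    have h4 : L s = (Complex.exp (Gt s))⁻¹ := eq_inv_of_mul_eq_one_left h1
    rw [h4]
    field_simp
  have ht : Tendsto (fun y : ℝ => (y : ℂ)) (𝓝[>] 0) (𝓝[≠] (0 : ℂ)) := by
    refine tendsto_nhdsWithin_of_tendsto_nhds_of_eventually_within _ ?_ ?_
    · have := (Complex.continuous_ofReal.tendsto 0).mono_left
        (nhdsWithin_le_nhds (s := Ioi (0 : ℝ)))
      rwa [Complex.ofReal_zero] at this
    · filter_upwards [self_mem_nhdsWithin] with y hy
      intro h
      exact (ne_of_gt hy) (Complex.ofReal_eq_zero.1 h)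
  have hl1' := hl1.comp ht
  have hs1 := (hasDerivAt_iff_tendsto_slope.1 hder).comp ht
  have heq : -(lam : ℂ) * deriv Λ 0 = l1 := by
    refine tendsto_nhds_unique hs1 (hl1'.congr' ?_)
    filter_upwards [Ioo_mem_nhdsGT hδ] with y hy
    have hb : (y : ℂ) ∈ Metric.ball (0 : ℂ) δ := by
      rw [Metric.mem_ball, dist_zero_right, Complex.norm_real, Real.norm_eq_abs,
        abs_of_pos hy.1]
      exact hy.2
    change (L (y : ℂ) / (y : ℂ) ^ r - lam) / (y : ℂ) =
      slope (fun z => Complex.exp (-Λ z)) 0 (y : ℂ)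
    rw [slope_def_field, hE0, hval _ hb (by rw [Complex.ofReal_re]; exact hy.1), sub_zero]
  have hdΛ : deriv Λ 0 = ((-l1 / lam : ℝ) : ℂ) := by
    rw [Complex.ofReal_div, Complex.ofReal_neg, ← heq]
    field_simp
  refine ⟨B, fun s hs hsn => ?_⟩
  have hs1 : s ∈ Metric.closedBall (0 : ℂ) (δ / 2) := by
    rw [Metric.mem_closedBall, dist_zero_right]
    exact hsn
  have hs0 : s ≠ 0 := by
    rintro rfl
    simp at hs
  have h1 : Et Gt (kap lam r) r s = dslope Λ 0 s := by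
    rw [dslope_of_ne _ hs0, slope_def_field, sub_zero, hΛ0, ← h s (hsub hs1) hs]
    unfold Et kap
    congr 1
    push_cast
    ring
  have h2 : Hs Gt (kap lam r) r ((-l1 / lam : ℝ) : ℂ) s = dslope (dslope Λ 0) 0 s := by
    rw [dslope_of_ne _ hs0, slope_def_field, sub_zero, dslope_same, hdΛ, ← h1]
    rfl
  rw [h2]
  exact hB s hs1

end BSDC
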